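import Pool.Agent.helper5.EY.Defs

set_option autoImplicit false

/-!
# EY-Chart: the local multiplicity of a projective scheme does not depend on the affine chart
-/

namespace EY

open MvPolynomial

noncomputable section

variable {σ : Type*}

/-- the local ring of the affine scheme `I` at `p` (opaque copy) -/
def LocQ (I : Ideal (MvPolynomial σ ℂ)) (p : σ → ℂ) : Type _ :=
  Localization.AtPrime (pt p) ⧸ I.map (algebraMap (MvPolynomial σ ℂ) (Localization.AtPrime (pt p)))

instance (I : Ideal (MvPolynomial σ ℂ)) (p : σ → ℂ) : CommRing (LocQ I p) :=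
  inferInstanceAs (CommRing (Localization.AtPrime (pt p) ⧸
    I.map (algebraMap (MvPolynomial σ ℂ) (Localization.AtPrime (pt p)))))

instance (I : Ideal (MvPolynomial σ ℂ)) (p : σ → ℂ) : Algebra ℂ (LocQ I p) :=
  inferInstanceAs (Algebra ℂ (Localization.AtPrime (pt p) ⧸
    I.map (algebraMap (MvPolynomial σ ℂ) (Localization.AtPrime (pt p)))))

theorem mulAt_eq_locQ (I : Ideal (MvPolynomial σ ℂ)) (p : σ → ℂ) :
    mulAt I p = Module.finrank ℂ (LocQ I p) := rfl

section abstract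
variable {A : Type*} [CommRing A] [Algebra ℂ A]

lemma aeval_scale {f : MvPolynomial σ ℂ} {e : ℕ}
    (hf : f.IsHomogeneous e) (x : σ → A) (c : A) :
    MvPolynomial.aeval (fun i => x i * c) f = MvPolynomial.aeval x f * c ^ e := by
  rw [MvPolynomial.aeval_def, MvPolynomial.aeval_def, MvPolynomial.eval₂_eq, MvPolynomial.eval₂_eq,
    Finset.sum_mul]
  refine Finset.sum_congr rfl fun d hd => ?_
  have hdeg : ∑ i ∈ d.support, d i = e := by
    have := hf (MvPolynomial.mem_support_iff.1 hd)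
    rw [← this]
    simp [Finsupp.weight_apply, Finsupp.sum]
  rw [mul_assoc, ← hdeg, ← Finset.prod_pow_eq_pow_sum, ← Finset.prod_mul_distrib]
  congr 1
  exact Finset.prod_congr rfl fun i _ => mul_pow _ _ _

lemma algHom_eq_aeval (T : MvPolynomial σ ℂ →ₐ[ℂ] A) (f : MvPolynomial σ ℂ) :
    T f = MvPolynomial.aeval (fun i => T (X i)) f := by
  have : T = MvPolynomial.aeval (fun i => T (X i)) := by
    apply MvPolynomial.algHom_ext; intro i; simp
  conv_lhs => rw [this]

/-- substitution `x_i ↦ x_i / l` -/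
def chartHom (T : MvPolynomial σ ℂ →ₐ[ℂ] A) (l : MvPolynomial σ ℂ) : MvPolynomial σ ℂ →ₐ[ℂ] A :=
  MvPolynomial.aeval fun i => T (X i) * Ring.inverse (T l)

lemma chartHom_X (T : MvPolynomial σ ℂ →ₐ[ℂ] A) (l : MvPolynomial σ ℂ) (i : σ) :
    chartHom T l (X i) = T (X i) * Ring.inverse (T l) := by
  unfold chartHom; simp

lemma chartHom_hom (T : MvPolynomial σ ℂ →ₐ[ℂ] A) {l f : MvPolynomial σ ℂ} {e : ℕ}
    (hf : f.IsHomogeneous e) :
    chartHom T l f = T f * Ring.inverse (T l) ^ e := by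
  unfold chartHom
  rw [algHom_eq_aeval T f]
  exact aeval_scale hf _ _

lemma eval_scale {f : MvPolynomial σ ℂ} {e : ℕ} (hf : f.IsHomogeneous e) {p p' : σ → ℂ} {c : ℂ}
    (h : ∀ i, p' i = c * p i) : eval p' f = c ^ e * eval p f := by
  have h1 := aeval_scale (A := ℂ) hf p c
  have h2 : (fun i => p i * c) = p' := by funext i; rw [h i, mul_comm]
  rw [h2] at h1
  simpa [MvPolynomial.aeval_def, MvPolynomial.eval₂_id, mul_comm] using h1

lemma chartHom_unit (T : MvPolynomial σ ℂ →ₐ[ℂ] A) {p p' : σ → ℂ}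
    (hT : ∀ f, eval p' f ≠ 0 → IsUnit (T f)) {a : MvPolynomial σ ℂ}
    (h0 : eval p' a ≠ 0) (hp : ∀ i, p' i = eval p' a * p i)
    (g : MvPolynomial σ ℂ) (hg : eval p g ≠ 0) : IsUnit (chartHom T a g) := by
  have hu : IsUnit (T a) := hT a h0
  set N := g.totalDegree with hN
  have hsum : g = ∑ k ∈ Finset.range (N + 1), homogeneousComponent k g :=
    (sum_homogeneousComponent g).symm
  set G : MvPolynomial σ ℂ := ∑ k ∈ Finset.range (N + 1), homogeneousComponent k g * a ^ (N - k)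
    with hG
  have h1 : chartHom T a g * T a ^ N = T G := by
    have e1 : chartHom T a g =
        ∑ k ∈ Finset.range (N + 1), chartHom T a (homogeneousComponent k g) := by
      rw [← map_sum, ← hsum]
    rw [e1, Finset.sum_mul, hG, map_sum]
    refine Finset.sum_congr rfl fun k hk => ?_
    have hk' : k ≤ N := by simpa [Nat.lt_succ_iff] using hk
    rw [chartHom_hom T (homogeneousComponent_isHomogeneous k g), map_mul, map_pow, mul_assoc]
    congr 1
    have e2 : T a ^ N = T a ^ k * T a ^ (N - k) := by rw [← pow_add, Nat.add_sub_cancel' hk']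
    rw [e2, ← mul_assoc, ← mul_pow, Ring.inverse_mul_cancel _ hu, one_pow, one_mul]
  have h2 : eval p' G = eval p' a ^ N * eval p g := by
    have e1 : eval p g = ∑ k ∈ Finset.range (N + 1), eval p (homogeneousComponent k g) := by
      rw [← map_sum, ← hsum]
    rw [e1, Finset.mul_sum, hG, map_sum]
    refine Finset.sum_congr rfl fun k hk => ?_
    have hk' : k ≤ N := by simpa [Nat.lt_succ_iff] using hk
    rw [map_mul, map_pow, eval_scale (homogeneousComponent_isHomogeneous k g) hp]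
    rw [mul_right_comm, ← pow_add, Nat.add_sub_cancel' hk']
  have h3 : IsUnit (T G) := hT G (by
    rw [h2]; exact mul_ne_zero (pow_ne_zero _ h0) hg)
  rw [← h1] at h3
  exact isUnit_of_mul_isUnit_left h3

end abstract

/-- canonical map from polynomials to the local ring -/
def toQ (I : Ideal (MvPolynomial σ ℂ)) (p : σ → ℂ) : MvPolynomial σ ℂ →ₐ[ℂ] LocQ I p :=
  (Ideal.Quotient.mkₐ ℂ (I.map (algebraMap (MvPolynomial σ ℂ) (Localization.AtPrime (pt p))))).comp
    (IsScalarTower.toAlgHom ℂ (MvPolynomial σ ℂ) (Localization.AtPrime (pt p)))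

lemma toQ_apply (I : Ideal (MvPolynomial σ ℂ)) (p : σ → ℂ) (f : MvPolynomial σ ℂ) :
    toQ I p f = Ideal.Quotient.mk
      (I.map (algebraMap (MvPolynomial σ ℂ) (Localization.AtPrime (pt p))))
      (algebraMap _ (Localization.AtPrime (pt p)) f) := rfl

lemma toQ_zero {I : Ideal (MvPolynomial σ ℂ)} {p : σ → ℂ} {f : MvPolynomial σ ℂ} (hf : f ∈ I) :
    toQ I p f = 0 := by
  rw [toQ_apply]
  exact Ideal.Quotient.eq_zero_iff_mem.mpr (Ideal.mem_map_of_mem _ hf)

lemma toQ_isUnit {I : Ideal (MvPolynomial σ ℂ)} {p : σ → ℂ} {f : MvPolynomial σ ℂ}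
    (hf : eval p f ≠ 0) : IsUnit (toQ I p f) := by
  rw [toQ_apply]
  exact (IsLocalization.map_units (M := (pt p).primeCompl) (Localization.AtPrime (pt p))
    ⟨f, fun h => hf (by simpa [pt, RingHom.mem_ker] using h)⟩).map
      (Ideal.Quotient.mk (I.map (algebraMap (MvPolynomial σ ℂ) (Localization.AtPrime (pt p)))))

/-- universal property of the local ring -/
theorem exists_liftQ {A : Type*} [CommRing A] [Algebra ℂ A] (I : Ideal (MvPolynomial σ ℂ))
    (p : σ → ℂ) (φ : MvPolynomial σ ℂ →ₐ[ℂ] A) (h0 : ∀ f ∈ I, φ f = 0)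
    (h1 : ∀ f, eval p f ≠ 0 → IsUnit (φ f)) :
    ∃ Φ : LocQ I p →ₐ[ℂ] A, ∀ f, Φ (toQ I p f) = φ f := by
  have hu : ∀ y : (pt p).primeCompl, IsUnit (φ y) :=
    fun y => h1 y.1 (fun h => y.2 (by simpa [pt, RingHom.mem_ker] using h))
  let Ψ : Localization.AtPrime (pt p) →ₐ[ℂ] A :=
    IsLocalization.liftAlgHom (M := (pt p).primeCompl) (f := φ) hu
  have hΨ : ∀ f, Ψ (algebraMap _ _ f) = φ f := fun f => by simp [Ψ]
  have hk : I.map (algebraMap (MvPolynomial σ ℂ) (Localization.AtPrime (pt p))) ≤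
      RingHom.ker Ψ.toRingHom := by
    rw [Ideal.map_le_iff_le_comap]
    intro f hf
    change Ψ (algebraMap _ _ f) = 0
    rw [hΨ, h0 f hf]
  refine ⟨Ideal.Quotient.liftₐ _ Ψ (fun a ha => hk ha), fun f => ?_⟩
  rw [← hΨ f]
  rfl

lemma homQ_ext {A : Type*} [CommRing A] [Algebra ℂ A] {I : Ideal (MvPolynomial σ ℂ)} {p : σ → ℂ}
    {φ ψ : LocQ I p →ₐ[ℂ] A} (h : ∀ i, φ (toQ I p (X i)) = ψ (toQ I p (X i))) : φ = ψ := by
  have h1 : (φ.comp (toQ I p)) = (ψ.comp (toQ I p)) := by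
    apply MvPolynomial.algHom_ext
    intro i
    exact h i
  apply Ideal.Quotient.algHom_ext
  apply IsLocalization.algHom_ext (pt p).primeCompl
  exact h1

/-- one direction of the change of charts, in any target -/
lemma half_exists (S : Set (MvPolynomial σ ℂ)) (hS : ∀ f ∈ S, ∃ e, f.IsHomogeneous e)
    {a b : MvPolynomial σ ℂ} (ha : a.IsHomogeneous 1) {p p' : σ → ℂ} (h0 : eval p' a ≠ 0)
    (hp : ∀ i, p' i = eval p' a * p i) {A : Type*} [CommRing A] [Algebra ℂ A]
    (T : MvPolynomial σ ℂ →ₐ[ℂ] A) (hT0 : ∀ f ∈ Ideal.span S ⊔ Ideal.span {b - 1}, T f = 0)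
    (hTu : ∀ f, eval p' f ≠ 0 → IsUnit (T f)) :
    ∃ φ : LocQ (Ideal.span S ⊔ Ideal.span {a - 1}) p →ₐ[ℂ] A,
      (∀ i, φ (toQ _ p (X i)) = T (X i) * Ring.inverse (T a)) ∧
      (∀ c : MvPolynomial σ ℂ, c.IsHomogeneous 1 →
        φ (toQ _ p c) = T c * Ring.inverse (T a)) := by
  have hker : ∀ f ∈ Ideal.span S ⊔ Ideal.span {a - 1}, chartHom T a f = 0 := by
    have : Ideal.span S ⊔ Ideal.span {a - 1} ≤ RingHom.ker (chartHom T a).toRingHom := by
      rw [sup_le_iff, Ideal.span_le, Ideal.span_le]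
      constructor
      · intro f hf
        obtain ⟨e, he⟩ := hS f hf
        change chartHom T a f = 0
        rw [chartHom_hom T he, hT0 _ (Ideal.mem_sup_left (Ideal.subset_span hf)), zero_mul]
      · intro f hf
        obtain rfl : f = a - 1 := hf
        change chartHom T a (a - 1) = 0
        rw [map_sub, chartHom_hom T ha, pow_one, Ring.mul_inverse_cancel _ (hTu a h0), map_one,
          sub_self]
    intro f hf
    exact this hf
  obtain ⟨Φ, hΦ⟩ := exists_liftQ _ p (chartHom T a) hker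
    (fun f hf => chartHom_unit T hTu h0 hp f hf)
  refine ⟨Φ, fun i => ?_, fun c hc => ?_⟩
  · rw [hΦ, chartHom_X]
  · rw [hΦ, chartHom_hom T hc, pow_one]

/-- an algebra homomorphism maps `Ring.inverse` of units to `Ring.inverse` -/
lemma map_inv_unit {A B : Type*} [CommRing A] [CommRing B] [Algebra ℂ A] [Algebra ℂ B]
    (φ : A →ₐ[ℂ] B) {u : A} (hu : IsUnit u) : φ (Ring.inverse u) = Ring.inverse (φ u) := by
  obtain ⟨v, rfl⟩ := hu
  rw [Ring.inverse_unit]
  have : φ (v : A) = ((Units.map (φ : A →* B) v : Bˣ) : B) := rfl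
  rw [this, Ring.inverse_unit]
  rfl

theorem chart_equiv (S : Set (MvPolynomial σ ℂ)) (hS : ∀ f ∈ S, ∃ e, f.IsHomogeneous e)
    {a b : MvPolynomial σ ℂ} (ha : a.IsHomogeneous 1) (hb : b.IsHomogeneous 1)
    {p p' : σ → ℂ} (h0 : eval p' a ≠ 0) (h0' : eval p b ≠ 0)
    (hp : ∀ i, p' i = eval p' a * p i) (hp' : ∀ i, p i = eval p b * p' i) :
    Nonempty (LocQ (Ideal.span S ⊔ Ideal.span {a - 1}) p ≃ₐ[ℂ]
      LocQ (Ideal.span S ⊔ Ideal.span {b - 1}) p') := by
  obtain ⟨φ, hφ1, hφ2⟩ := half_exists S hS (b := b) ha h0 hp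
    (toQ (Ideal.span S ⊔ Ideal.span {b - 1}) p')
    (fun f hf => toQ_zero hf) (fun f hf => toQ_isUnit hf)
  obtain ⟨ψ, hψ1, hψ2⟩ := half_exists S hS (b := a) hb h0' hp'
    (toQ (Ideal.span S ⊔ Ideal.span {a - 1}) p)
    (fun f hf => toQ_zero hf) (fun f hf => toQ_isUnit hf)
  have hua : toQ (Ideal.span S ⊔ Ideal.span {a - 1}) p a = 1 := by
    rw [← sub_eq_zero, ← map_one (toQ (Ideal.span S ⊔ Ideal.span {a - 1}) p), ← map_sub]
    exact toQ_zero (Ideal.mem_sup_right (Ideal.subset_span rfl))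
  have hub : toQ (Ideal.span S ⊔ Ideal.span {b - 1}) p' b = 1 := by
    rw [← sub_eq_zero, ← map_one (toQ (Ideal.span S ⊔ Ideal.span {b - 1}) p'), ← map_sub]
    exact toQ_zero (Ideal.mem_sup_right (Ideal.subset_span rfl))
  have hu1 : IsUnit (toQ (Ideal.span S ⊔ Ideal.span {a - 1}) p b) := toQ_isUnit h0'
  have hu2 : IsUnit (toQ (Ideal.span S ⊔ Ideal.span {b - 1}) p' a) := toQ_isUnit h0
  refine ⟨AlgEquiv.ofAlgHom φ ψ ?_ ?_⟩
  · apply homQ_ext
    intro i
    rw [AlgHom.comp_apply, hψ1, map_mul, map_inv_unit φ hu1, hφ1, hφ2 b hb, hub, one_mul, mul_assoc,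
      Ring.mul_inverse_cancel _ (hu2.ringInverse), mul_one]
    rfl
  · apply homQ_ext
    intro i
    rw [AlgHom.comp_apply, hφ1, map_mul, map_inv_unit ψ hu2, hψ1, hψ2 a ha, hua, one_mul, mul_assoc,
      Ring.mul_inverse_cancel _ (hu1.ringInverse), mul_one]
    rfl

/-- chart independence of the local multiplicity of the scheme in projective space defined by
homogeneous polynomials `S` -/
theorem mulAt_chart_indep (S : Set (MvPolynomial σ ℂ)) (hS : ∀ f ∈ S, ∃ e, f.IsHomogeneous e)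
    {a b : MvPolynomial σ ℂ} (ha : a.IsHomogeneous 1) (hb : b.IsHomogeneous 1)
    {v : σ → ℂ} (h1 : eval v a = 1) (h2 : eval v b ≠ 0) :
    mulAt (Ideal.span S ⊔ Ideal.span {a - 1}) v =
      mulAt (Ideal.span S ⊔ Ideal.span {b - 1}) (fun i => v i / eval v b) := by
  have hv : ∀ i, v i / eval v b = (1 / eval v b) * v i := fun i => by ring
  have ev : eval (fun i => v i / eval v b) a = 1 / eval v b := by
    rw [eval_scale ha hv, h1, pow_one, mul_one]
  obtain ⟨e⟩ := chart_equiv S hS ha hb (p := v) (p' := fun i => v i / eval v b)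
    (by rw [ev]; exact one_div_ne_zero h2) h2 (fun i => by rw [ev, hv i])
    (fun i => by rw [mul_div_cancel₀ _ h2])
  rw [mulAt_eq_locQ, mulAt_eq_locQ]
  exact e.toLinearEquiv.finrank_eq

lemma linForm_isHomogeneous {N : ℕ} (l : Fin N → ℂ) : (linForm l).IsHomogeneous 1 := by
  unfold linForm
  exact IsHomogeneous.sum _ _ _ fun i _ => isHomogeneous_C_mul_X _ _

/-- the length of the eigenscheme at an eigenpoint does not depend on the affine chart -/
theorem mulAt_chartIdeal {N d : ℕ} {f : MvPolynomial (Fin N) ℂ} (hf : f.IsHomogeneous d)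
    (l l' : Fin N → ℂ) (v : Fin N → ℂ) (h1 : eval v (linForm l) = 1)
    (h2 : eval v (linForm l') ≠ 0) :
    mulAt (chartIdeal f l) v = mulAt (chartIdeal f l') (fun i => v i / eval v (linForm l')) := by
  unfold chartIdeal eigIdeal
  refine mulAt_chart_indep _ ?_ (linForm_isHomogeneous l) (linForm_isHomogeneous l') h1 h2
  rintro g ⟨i, j, rfl⟩
  exact ⟨1 + (d - 1), ((isHomogeneous_X _ i).mul (hf.pderiv)).sub
    ((isHomogeneous_X _ j).mul (hf.pderiv))⟩

end

end EY
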