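import Pool.Agent.helper40.EY.Pow

set_option autoImplicit false

/-!
# EY-Glob: the dimension of `ℂ[x]/I` is the sum of the local multiplicities
-/

namespace EY

open MvPolynomial

noncomputable section

variable {σ : Type*}

lemma pt_le_iff {p q : σ → ℂ} (h : pt q ≤ pt p) : q = p := by
  funext i
  have h1 : (X i - C (q i) : MvPolynomial σ ℂ) ∈ pt q := mem_pt.mpr (by simp)
  have h2 := mem_pt.mp (h h1)
  simp only [map_sub, eval_X, eval_C] at h2
  exact (sub_eq_zero.mp h2).symm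

lemma prod_sup_le {R ι : Type*} [CommRing R] (I : Ideal R) (B : ι → Ideal R) (s : Finset ι) :
    ∏ i ∈ s, (I ⊔ B i) ≤ I ⊔ ∏ i ∈ s, B i := by
  classical
  induction s using Finset.induction_on with
  | empty => simp
  | insert a s ha ih =>
    rw [Finset.prod_insert ha, Finset.prod_insert ha]
    refine (Ideal.mul_mono_right ih).trans ?_
    rw [Ideal.mul_le]
    intro x hx y hy
    obtain ⟨i, hi, b, hb, rfl⟩ := Submodule.mem_sup.mp hx
    obtain ⟨j, hj, c, hc, rfl⟩ := Submodule.mem_sup.mp hy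
    have e : (i + b) * (j + c) = (i * (j + c) + b * j) + b * c := by ring
    rw [e]
    apply add_mem
    · exact Ideal.mem_sup_left (I.add_mem (I.mul_mem_right _ hi) (I.mul_mem_left _ hj))
    · exact Ideal.mem_sup_right (Ideal.mul_mem_mul hb hc)

variable [Finite σ] (I : Ideal (MvPolynomial σ ℂ)) (Z : Finset (σ → ℂ))
  (hZ : ∀ q, q ∈ Z ↔ ∀ f ∈ I, eval q f = 0)

include hZ in
lemma exists_prod_le : ∃ N, ∏ p ∈ Z, pt p ^ N ≤ I := by
  have h1 : ∏ p ∈ Z, pt p ≤ I.radical := by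
    rw [← vanishingIdeal_zeroLocus_eq_radical (K := ℂ)]
    refine Ideal.prod_le_inf.trans ?_
    intro x hx
    rw [mem_vanishingIdeal_iff]
    intro q hq
    have h2 : q ∈ Z := (hZ q).mpr fun f hf => by
      have := hq f hf
      rwa [← coe_aeval_eq_eval]
    have h3 : x ∈ pt q := (Finset.inf_le h2 : Z.inf pt ≤ pt q) hx
    have h4 := mem_pt.mp h3
    rwa [← coe_aeval_eq_eval] at h4
  obtain ⟨N, hN⟩ := Ideal.exists_pow_le_of_le_radical_of_fg h1 (IsNoetherian.noetherian _)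
  exact ⟨N, by rwa [Finset.prod_pow]⟩

omit [Finite σ] in
lemma isCoprime_pt {p q : σ → ℂ} (h : p ≠ q) (N : ℕ) : IsCoprime (I ⊔ pt p ^ N) (I ⊔ pt q ^ N) := by
  have h1 : IsCoprime (pt p) (pt q) := Ideal.isCoprime_of_isMaximal fun h2 => h (pt_le_iff h2.le)
  have h2 : IsCoprime (pt p ^ N) (pt q ^ N) := IsCoprime.pow h1
  rw [Ideal.isCoprime_iff_sup_eq] at h2 ⊢
  rw [eq_top_iff, ← h2]
  exact sup_le_sup le_sup_right le_sup_right

include hZ in
lemma iInf_eq {N : ℕ} (hN : ∏ p ∈ Z, pt p ^ N ≤ I) : ⨅ p ∈ Z, (I ⊔ pt p ^ N) = I := by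
  apply le_antisymm
  · rw [← Ideal.prod_eq_iInf_of_pairwise_isCoprime (s := Z) (J := fun p => I ⊔ pt p ^ N)
      (fun p _ q _ hpq => isCoprime_pt I hpq N)]
    exact (prod_sup_le I (fun p => pt p ^ N) Z).trans (sup_le le_rfl hN)
  · exact le_iInf₂ fun p _ => le_sup_left

/-- the map to the product of the truncated local rings -/
def crt (N : ℕ) : MvPolynomial σ ℂ →ₗ[ℂ] ((p : Z) → MvPolynomial σ ℂ ⧸ (I ⊔ pt (p : σ → ℂ) ^ N)) :=
  LinearMap.pi fun p => (Ideal.Quotient.mkₐ ℂ (I ⊔ pt (p : σ → ℂ) ^ N)).toLinearMap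

omit [Finite σ] in
lemma crt_apply (N : ℕ) (f : MvPolynomial σ ℂ) (p : Z) :
    crt I Z N f p = Ideal.Quotient.mk (I ⊔ pt (p : σ → ℂ) ^ N) f := rfl

omit [Finite σ] in
lemma crt_surjective (N : ℕ) : Function.Surjective (crt I Z N) := by
  intro y
  choose z hz using fun p : Z => Ideal.Quotient.mk_surjective (y p)
  obtain ⟨r, hr⟩ := Ideal.exists_forall_sub_mem_ideal (I := fun p : Z => I ⊔ pt (p : σ → ℂ) ^ N)
    (fun p q hpq => isCoprime_pt I (fun h => hpq (Subtype.ext h)) N) z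
  refine ⟨r, ?_⟩
  funext p
  rw [crt_apply, ← hz p, Ideal.Quotient.eq]
  exact hr p

include hZ in
lemma ker_crt {N : ℕ} (hN : ∏ p ∈ Z, pt p ^ N ≤ I) :
    LinearMap.ker (crt I Z N) = I.restrictScalars ℂ := by
  ext f
  rw [LinearMap.mem_ker, Submodule.restrictScalars_mem]
  constructor
  · intro h
    rw [← iInf_eq I Z hZ hN]
    simp only [Submodule.mem_iInf]
    intro p hp
    have h1 := congrFun h ⟨p, hp⟩
    rw [crt_apply, Pi.zero_apply, Ideal.Quotient.eq_zero_iff_mem] at h1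
    exact h1
  · intro h
    funext p
    rw [crt_apply, Pi.zero_apply, Ideal.Quotient.eq_zero_iff_mem]
    exact Ideal.mem_sup_left h

omit [Finite σ] in
lemma killed_of_prod {N : ℕ} (hN : ∏ p ∈ Z, pt p ^ N ≤ I) (p : σ → ℂ) :
    ∀ x ∈ pt p ^ N, ∃ s, s ∉ pt p ∧ s * x ∈ I := by
  classical
  have h1 : ¬ (∏ q ∈ Z.erase p, pt q ^ N ≤ pt p) := by
    intro h
    obtain ⟨q, hq, hqp⟩ := (pt_isPrime p).prod_le.mp h
    have h2 : q = p := pt_le_iff ((pt_isPrime p).le_of_pow_le hqp)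
    exact (Finset.mem_erase.mp hq).1 h2
  obtain ⟨s, hs, hs'⟩ := SetLike.not_le_iff_exists.mp h1
  intro x hx
  refine ⟨s, hs', hN ?_⟩
  by_cases hp : p ∈ Z
  · rw [← Finset.mul_prod_erase Z _ hp, mul_comm s x]
    exact Ideal.mul_mem_mul hx hs
  · rw [Finset.erase_eq_of_notMem hp] at hs
    exact Ideal.mul_mem_right _ _ hs

include hZ in
/-- (GL) the dimension is the sum of the local multiplicities -/
theorem finrank_eq_sum_mulAt :
    (∀ p : σ → ℂ, Module.Finite ℂ (Localization.AtPrime (pt p) ⧸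
      I.map (algebraMap (MvPolynomial σ ℂ) (Localization.AtPrime (pt p))))) ∧
    Module.finrank ℂ (MvPolynomial σ ℂ ⧸ I) = ∑ p ∈ Z, mulAt I p := by
  obtain ⟨N, hN⟩ := exists_prod_le I Z hZ
  have hm : ∀ p : σ → ℂ, Module.Finite ℂ (Localization.AtPrime (pt p) ⧸
      I.map (algebraMap (MvPolynomial σ ℂ) (Localization.AtPrime (pt p)))) ∧
      mulAt I p = Module.finrank ℂ (MvPolynomial σ ℂ ⧸ (I ⊔ pt p ^ N)) := by
    intro p
    obtain ⟨e⟩ := algEquiv_of_killed I p N (killed_of_prod I Z hN p)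
    have := finite_quot_pow I p N
    exact ⟨Module.Finite.equiv e.toLinearEquiv, e.toLinearEquiv.finrank_eq.symm⟩
  refine ⟨fun p => (hm p).1, ?_⟩
  have h1 := (LinearMap.quotKerEquivOfSurjective (crt I Z N) (crt_surjective I Z N)).finrank_eq
  have hf : ∀ p : Z, Module.Finite ℂ (MvPolynomial σ ℂ ⧸ (I ⊔ pt (p : σ → ℂ) ^ N)) :=
    fun p => finite_quot_pow I p N
  rw [ker_crt I Z hZ hN] at h1
  rw [← (Submodule.Quotient.restrictScalarsEquiv ℂ I).finrank_eq]
  refine h1.trans ?_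
  rw [Module.finrank_pi_fintype, ← Finset.sum_coe_sort Z]
  exact Finset.sum_congr rfl fun p _ => (hm p).2.symm

end

end EY
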