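import Pool.Agent.helper40.EY.Wt

set_option autoImplicit false

/-!
# EY-Add: additivity of the local multiplicity
-/

namespace EY

open MvPolynomial Pool.Agent.helper62.BZ

noncomputable section

section General

variable {k O : Type*} [Field k] [CommRing O] [Algebra k O]

/-- multiplication by `f` from `O/(J, g)` to `O/(J, f g)` -/
def mulq (J : Ideal O) (f g : O) : (O ⧸ (J ⊔ Ideal.span {g})) →ₗ[O] (O ⧸ (J ⊔ Ideal.span {f * g})) :=
  Submodule.mapQ (J ⊔ Ideal.span {g}) (J ⊔ Ideal.span {f * g}) (LinearMap.mulLeft O f) (by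
    rw [sup_le_iff]
    constructor
    · intro x hx
      exact Ideal.mem_sup_left (J.mul_mem_left f hx)
    · intro x hx
      obtain ⟨a, rfl⟩ := Ideal.mem_span_singleton'.mp hx
      refine Ideal.mem_sup_right (Ideal.mem_span_singleton'.mpr ⟨a, ?_⟩)
      change a * (f * g) = f * (a * g)
      ring)

lemma mulq_mk (J : Ideal O) (f g x : O) : mulq J f g (Ideal.Quotient.mk _ x) =
    Ideal.Quotient.mk _ (f * x) := rfl

/-- the projection -/
def prq (J : Ideal O) (f g : O) : (O ⧸ (J ⊔ Ideal.span {f * g})) →ₗ[O] (O ⧸ (J ⊔ Ideal.span {f})) :=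
  Submodule.mapQ (J ⊔ Ideal.span {f * g}) (J ⊔ Ideal.span {f}) LinearMap.id (by
    rw [sup_le_iff]
    constructor
    · exact le_sup_left
    · intro x hx
      obtain ⟨a, rfl⟩ := Ideal.mem_span_singleton'.mp hx
      refine Ideal.mem_sup_right (Ideal.mem_span_singleton'.mpr ⟨a * g, ?_⟩)
      change a * g * f = a * (f * g)
      ring)

lemma prq_mk (J : Ideal O) (f g x : O) : prq J f g (Ideal.Quotient.mk _ x) =
    Ideal.Quotient.mk _ x := rfl

lemma mulq_injective (J : Ideal O) (f g : O) (hreg : ∀ h, f * h ∈ J → h ∈ J) :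
    Function.Injective (mulq J f g) := by
  rw [injective_iff_map_eq_zero]
  intro y hy
  obtain ⟨x, rfl⟩ := Ideal.Quotient.mk_surjective y
  rw [mulq_mk, Ideal.Quotient.eq_zero_iff_mem] at hy
  obtain ⟨j, hj, t, ht, hjt⟩ := Submodule.mem_sup.mp hy
  obtain ⟨a, rfl⟩ := Ideal.mem_span_singleton'.mp ht
  rw [Ideal.Quotient.eq_zero_iff_mem]
  have h1 : f * (x - a * g) ∈ J := by
    have e : f * (x - a * g) = j := by linear_combination -hjt
    rw [e]; exact hj
  have h2 := hreg _ h1
  have e : x = (x - a * g) + a * g := by ring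
  rw [e]
  exact add_mem (Ideal.mem_sup_left h2) (Ideal.mem_sup_right (Ideal.mem_span_singleton'.mpr ⟨a, rfl⟩))

lemma range_mulq (J : Ideal O) (f g : O) : LinearMap.range (mulq J f g) = LinearMap.ker (prq J f g) := by
  apply le_antisymm
  · rintro _ ⟨y, rfl⟩
    obtain ⟨x, rfl⟩ := Ideal.Quotient.mk_surjective y
    rw [LinearMap.mem_ker, mulq_mk, prq_mk, Ideal.Quotient.eq_zero_iff_mem]
    exact Ideal.mem_sup_right (Ideal.mem_span_singleton'.mpr ⟨x, mul_comm _ _⟩)
  · intro y hy
    obtain ⟨x, rfl⟩ := Ideal.Quotient.mk_surjective y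
    rw [LinearMap.mem_ker, prq_mk, Ideal.Quotient.eq_zero_iff_mem] at hy
    obtain ⟨j, hj, t, ht, hjt⟩ := Submodule.mem_sup.mp hy
    obtain ⟨a, rfl⟩ := Ideal.mem_span_singleton'.mp ht
    refine ⟨Ideal.Quotient.mk _ a, ?_⟩
    rw [mulq_mk, Ideal.Quotient.eq, ← hjt]
    have e : f * a - (j + a * f) = -j := by ring
    rw [e]
    exact Ideal.mem_sup_left (neg_mem hj)

lemma prq_surjective (J : Ideal O) (f g : O) : Function.Surjective (prq J f g) := by
  intro y
  obtain ⟨x, rfl⟩ := Ideal.Quotient.mk_surjective y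
  exact ⟨Ideal.Quotient.mk _ x, rfl⟩

lemma finite_mul (J : Ideal O) (f g : O)
    (h1 : Module.Finite k (O ⧸ (J ⊔ Ideal.span {f}))) (h2 : Module.Finite k (O ⧸ (J ⊔ Ideal.span {g}))) :
    Module.Finite k (O ⧸ (J ⊔ Ideal.span {f * g})) := by
  set N : Submodule k (O ⧸ (J ⊔ Ideal.span {f * g})) :=
    LinearMap.range ((mulq J f g).restrictScalars k) with hN
  have hN2 : N = LinearMap.ker ((prq J f g).restrictScalars k) := by
    ext y
    have := congrArg (fun M => y ∈ M) (range_mulq J f g)
    exact iff_of_eq this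
  have f1 : Module.Finite k N := Module.Finite.range _
  have f2 : Module.Finite k ((O ⧸ (J ⊔ Ideal.span {f * g})) ⧸ N) := by
    rw [hN2]
    exact Module.Finite.equiv (LinearMap.quotKerEquivOfSurjective ((prq J f g).restrictScalars k)
      (prq_surjective J f g)).symm
  exact Module.Finite.of_submodule_quotient N

lemma finrank_mul (J : Ideal O) (f g : O) (hreg : ∀ h, f * h ∈ J → h ∈ J)
    (h1 : Module.Finite k (O ⧸ (J ⊔ Ideal.span {f}))) (h2 : Module.Finite k (O ⧸ (J ⊔ Ideal.span {g}))) :
    Module.finrank k (O ⧸ (J ⊔ Ideal.span {f * g})) =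
      Module.finrank k (O ⧸ (J ⊔ Ideal.span {f})) + Module.finrank k (O ⧸ (J ⊔ Ideal.span {g})) := by
  have := finite_mul (k := k) J f g h1 h2
  have h3 := LinearMap.finrank_range_add_finrank_ker ((prq J f g).restrictScalars k)
  have hN2 : LinearMap.range ((mulq J f g).restrictScalars k) =
      LinearMap.ker ((prq J f g).restrictScalars k) := by
    ext y
    have := congrArg (fun M => y ∈ M) (range_mulq J f g)
    exact iff_of_eq this
  have h4 : LinearMap.range ((prq J f g).restrictScalars k) = ⊤ :=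
    LinearMap.range_eq_top.mpr (prq_surjective J f g)
  rw [← hN2, h4, finrank_top] at h3
  rw [← h3]
  congr 1
  exact (LinearEquiv.ofInjective ((mulq J f g).restrictScalars k)
    (mulq_injective J f g hreg)).finrank_eq.symm

end General

section Local

variable {σ : Type*}

/-- (A1) additivity -/
theorem mulAt_mul (J : Ideal (MvPolynomial σ ℂ)) (f g : MvPolynomial σ ℂ) (p : σ → ℂ)
    (hreg : ∀ h s, s ∉ pt p → s * (f * h) ∈ J → ∃ s', s' ∉ pt p ∧ s' * h ∈ J)
    (h1 : Module.Finite ℂ (Localization.AtPrime (pt p) ⧸ (J ⊔ Ideal.span {f}).map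
      (algebraMap (MvPolynomial σ ℂ) (Localization.AtPrime (pt p)))))
    (h2 : Module.Finite ℂ (Localization.AtPrime (pt p) ⧸ (J ⊔ Ideal.span {g}).map
      (algebraMap (MvPolynomial σ ℂ) (Localization.AtPrime (pt p))))) :
    Module.Finite ℂ (Localization.AtPrime (pt p) ⧸ (J ⊔ Ideal.span {f * g}).map
      (algebraMap (MvPolynomial σ ℂ) (Localization.AtPrime (pt p)))) ∧
    mulAt (J ⊔ Ideal.span {f * g}) p = mulAt (J ⊔ Ideal.span {f}) p + mulAt (J ⊔ Ideal.span {g}) p := by
  have hm : ∀ x : MvPolynomial σ ℂ, (J ⊔ Ideal.span {x}).map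
      (algebraMap (MvPolynomial σ ℂ) (Localization.AtPrime (pt p))) =
      J.map (algebraMap (MvPolynomial σ ℂ) (Localization.AtPrime (pt p))) ⊔
        Ideal.span {algebraMap (MvPolynomial σ ℂ) (Localization.AtPrime (pt p)) x} := by
    intro x
    rw [Ideal.map_sup, Ideal.map_span, Set.image_singleton]
  have hreg' : ∀ h : Localization.AtPrime (pt p),
      algebraMap (MvPolynomial σ ℂ) (Localization.AtPrime (pt p)) f * h ∈
        J.map (algebraMap (MvPolynomial σ ℂ) (Localization.AtPrime (pt p))) →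
      h ∈ J.map (algebraMap (MvPolynomial σ ℂ) (Localization.AtPrime (pt p))) := by
    intro h hh
    obtain ⟨r, t, rfl⟩ := IsLocalization.exists_mk'_eq (pt p).primeCompl h
    rw [IsLocalization.mul_mk'_eq_mk'_of_mul,
      IsLocalization.mk'_mem_map_algebraMap_iff (pt p).primeCompl] at hh
    rw [IsLocalization.mk'_mem_map_algebraMap_iff (pt p).primeCompl]
    obtain ⟨s, hs, hs'⟩ := hh
    obtain ⟨s', hs1, hs2⟩ := hreg r s hs hs'
    exact ⟨s', hs1, hs2⟩
  rw [hm] at h1 h2
  unfold mulAt
  rw [hm, hm, hm, map_mul]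
  exact ⟨finite_mul _ _ _ h1 h2, finrank_mul _ _ _ hreg' h1 h2⟩

/-- Krull: membership modulo all the powers of the maximal ideal is local membership -/
theorem krull_local [Finite σ] (J : Ideal (MvPolynomial σ ℂ)) (p : σ → ℂ) (h : MvPolynomial σ ℂ)
    (hh : ∀ M, h ∈ J ⊔ pt p ^ M) : ∃ s, s ∉ pt p ∧ s * h ∈ J := by
  have h1 : (Ideal.Quotient.mk J h) ∈ (⨅ i : ℕ, pt p ^ i • ⊤ :
      Submodule (MvPolynomial σ ℂ) (MvPolynomial σ ℂ ⧸ J)) := by
    rw [Submodule.mem_iInf]
    intro i
    obtain ⟨j, hj, r, hr, hjr⟩ := Submodule.mem_sup.mp (hh i)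
    have e : (Ideal.Quotient.mk J h) = r • (Ideal.Quotient.mk J 1) := by
      rw [← hjr, map_add, Ideal.Quotient.eq_zero_iff_mem.mpr hj, zero_add]
      have e2 : r • (Ideal.Quotient.mk J 1) = Ideal.Quotient.mk J (r * 1) := rfl
      rw [e2, mul_one]
    rw [e]
    exact Submodule.smul_mem_smul hr Submodule.mem_top
  obtain ⟨r, hr⟩ := (Ideal.mem_iInf_smul_pow_eq_bot_iff (pt p) _).mp h1
  refine ⟨1 - r, ?_, ?_⟩
  · intro h2
    have h3 : (1 : MvPolynomial σ ℂ) ∈ pt p := by
      have := (pt p).add_mem h2 r.2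
      simpa using this
    exact (Ideal.ne_top_iff_one _).mp (pt_isMaximal p).ne_top h3
  · rw [← Ideal.Quotient.eq_zero_iff_mem]
    have e : (Ideal.Quotient.mk J ((1 - (r : MvPolynomial σ ℂ)) * h)) =
        Ideal.Quotient.mk J h - (r : MvPolynomial σ ℂ) • Ideal.Quotient.mk J h := by
      have e2 : (r : MvPolynomial σ ℂ) • Ideal.Quotient.mk J h =
        Ideal.Quotient.mk J ((r : MvPolynomial σ ℂ) * h) := rfl
      rw [e2, sub_mul, one_mul, map_sub]
    rw [e, hr, sub_self]

end Local

section syz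

variable {n : ℕ} (g G : Fin n → MvPolynomial (Fin n) ℂ) (d : Fin n → ℕ) (hd : ∀ i, 0 < d i)
  (hg : ∀ i, (g i).IsHomogeneous (d i))
  (h0 : ∀ x : Fin n → ℂ, (∀ i, eval x (g i) = 0) → x = 0)
  (hG : ∀ i, lo (d i + 1) (G i - g i))

include hd hg h0 hG in
/-- syzygies of `G` are Koszul up to any order -/
lemma syz_descent (a : Fin n → MvPolynomial (Fin n) ℂ) (ha : ∑ i, a i * G i = 0) (s : ℕ) :
    ∃ c : Fin n → Fin n → MvPolynomial (Fin n) ℂ, (∀ i j, c i j = - c j i) ∧
      ∀ i, lo (s - d i) (a i - ∑ j, c i j * G j) := by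
  classical
  induction s with
  | zero =>
    exact ⟨fun _ _ => 0, by simp, fun i x hx => by omega⟩
  | succ s ih =>
    obtain ⟨c0, hc0, hlo0⟩ := ih
    set b : Fin n → MvPolynomial (Fin n) ℂ := fun i => a i - ∑ j, c0 i j * G j with hb
    have hbG : ∑ i, b i * G i = 0 := by
      have h1 : ∑ i, (∑ j, c0 i j * G j) * G i = 0 := by
        have h2 : ∑ i, (∑ j, c0 i j * G j) * G i = ∑ i, ∑ j, c0 i j * G j * G i := by
          apply Finset.sum_congr rfl
          intro i _
          rw [Finset.sum_mul]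
        have h3 : ∑ i, ∑ j, c0 i j * G j * G i = - ∑ i, ∑ j, c0 i j * G j * G i := by
          conv_lhs => rw [Finset.sum_comm]
          rw [← Finset.sum_neg_distrib]
          apply Finset.sum_congr rfl
          intro i _
          rw [← Finset.sum_neg_distrib]
          apply Finset.sum_congr rfl
          intro j _
          rw [hc0 j i]
          ring
        rw [h2]
        exact self_eq_neg.mp h3
      have h2 : ∑ i, b i * G i = ∑ i, a i * G i - ∑ i, (∑ j, c0 i j * G j) * G i := by
        rw [← Finset.sum_sub_distrib]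
        apply Finset.sum_congr rfl
        intro i _
        simp only [hb]
        ring
      rw [h2, ha, h1, sub_zero]
    set A : Fin n → MvPolynomial (Fin n) ℂ :=
      fun i => if d i ≤ s then homogeneousComponent (s - d i) (b i) else 0 with hA
    have hcomp : ∀ i, homogeneousComponent s (b i * G i) = A i * g i := by
      intro i
      simp only [hA]
      by_cases h : d i ≤ s
      · rw [if_pos h]
        have h2 := comp_mul_lo (hlo0 i) (hg i) (hG i)
        rwa [Nat.sub_add_cancel h] at h2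
      · rw [if_neg h, zero_mul]
        apply comp_eq_zero_of_lo (s := d i) (by omega)
        have := lo_mul (hlo0 i) (lo_G g G d hg hG i)
        exact lo_mono (by omega) this
    have hsum : ∑ i, A i * g i = 0 := by
      have h1 := congrArg (homogeneousComponent s) hbG
      rw [map_zero, map_sum] at h1
      rw [← h1]
      exact Finset.sum_congr rfl fun i _ => (hcomp i).symm
    obtain ⟨c, hc1, hc2⟩ := koszul g d hd hg h0 A hsum
    set c' : Fin n → Fin n → MvPolynomial (Fin n) ℂ :=
      fun i j => if d i + d j ≤ s then homogeneousComponent (s - (d i + d j)) (c i j) else 0 with hc'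
    have hanti : ∀ i j, c' i j = - c' j i := by
      intro i j
      simp only [hc']
      rw [add_comm (d j) (d i)]
      by_cases h : d i + d j ≤ s
      · rw [if_pos h, if_pos h, hc1 i j, map_neg]
      · rw [if_neg h, if_neg h, neg_zero]
    have hA' : ∀ i, A i = ∑ j, c' i j * g j := by
      intro i
      by_cases h : d i ≤ s
      · have h1 : A i = homogeneousComponent (s - d i) (A i) := by
          have h2 : A i ∈ homogeneousSubmodule (Fin n) ℂ (s - d i) := by
            simp only [hA]
            rw [if_pos h]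
            exact homogeneousComponent_isHomogeneous _ _
          rw [homogeneousComponent_of_mem h2, if_pos rfl]
        rw [h1, hc2 i, map_sum]
        apply Finset.sum_congr rfl
        intro j _
        simp only [hc']
        by_cases h2 : d i + d j ≤ s
        · rw [if_pos h2]
          have e : s - d i = (s - (d i + d j)) + d j := by omega
          rw [e, comp_mul (hg j)]
        · rw [if_neg h2, zero_mul, comp_mul_lt (hg j) _ (by omega)]
      · have h1 : A i = 0 := by simp only [hA]; rw [if_neg h]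
        rw [h1]
        symm
        apply Finset.sum_eq_zero
        intro j _
        simp only [hc']
        rw [if_neg (by omega), zero_mul]
    have hc'lo : ∀ i j, c' i j = 0 ∨ (d i + d j ≤ s ∧ (c' i j).IsHomogeneous (s - (d i + d j))) := by
      intro i j
      simp only [hc']
      by_cases h : d i + d j ≤ s
      · rw [if_pos h]; exact Or.inr ⟨h, homogeneousComponent_isHomogeneous _ _⟩
      · rw [if_neg h]; exact Or.inl rfl
    refine ⟨fun i j => c0 i j + c' i j, fun i j => ?_, fun i => ?_⟩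
    · dsimp only
      rw [hc0 i j, hanti i j]
      ring
    · have e0 : a i - ∑ j, (c0 i j + c' i j) * G j = b i - ∑ j, c' i j * G j := by
        simp only [hb, add_mul, Finset.sum_add_distrib]
        ring
      rw [e0]
      by_cases h : d i ≤ s
      · have e : s + 1 - d i = (s - d i) + 1 := by omega
        rw [e]
        have h1 : ∀ j, lo (s - d i) (c' i j * G j) := by
          intro j
          rcases hc'lo i j with h2 | ⟨h2, h3⟩
          · rw [h2, zero_mul]; exact lo_zero _
          · have := lo_mul (lo_of_hom le_rfl h3) (lo_G g G d hg hG j)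
            exact lo_mono (by omega) this
        have h2 : lo (s - d i) (b i - ∑ j, c' i j * G j) :=
          lo_sub (hlo0 i) (lo_sum _ fun j _ => h1 j)
        have h3 : homogeneousComponent (s - d i) (b i - ∑ j, c' i j * G j) = 0 := by
          rw [map_sub, map_sum, sub_eq_zero]
          have h4 : homogeneousComponent (s - d i) (b i) = A i := by
            simp only [hA]; rw [if_pos h]
          rw [h4, hA' i]
          apply Finset.sum_congr rfl
          intro j _
          rcases hc'lo i j with h5 | ⟨h5, h6⟩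
          · rw [h5, zero_mul, zero_mul, map_zero]
          · have h7 := comp_mul_lo (lo_of_hom le_rfl h6) (hg j) (hG j)
            have e2 : s - (d i + d j) + d j = s - d i := by omega
            rw [e2, homogeneousComponent_of_mem h6, if_pos rfl] at h7
            exact h7.symm
        have h4 := lo_sub_comp h2
        rwa [h3, sub_zero] at h4
      · have e : s + 1 - d i = 0 := by omega
        rw [e]
        intro x hx
        omega

include hd hg h0 hG in
/-- each `G i0` is regular modulo the others up to any order -/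
lemma reg_order (i0 : Fin n) (h : MvPolynomial (Fin n) ℂ)
    (hh : G i0 * h ∈ Ideal.span (G '' {i0}ᶜ)) (M : ℕ) :
    h ∈ Ideal.span (G '' {i0}ᶜ) ⊔ pt (0 : Fin n → ℂ) ^ M := by
  classical
  obtain ⟨b, hb⟩ : ∃ b : Fin n → MvPolynomial (Fin n) ℂ,
      ∑ j ∈ Finset.univ.erase i0, b j * G j = G i0 * h := by
    have h1 : G '' {i0}ᶜ = G '' ((Finset.univ.erase i0 : Finset (Fin n)) : Set (Fin n)) := by
      congr 1
      ext x
      simp
    rw [h1] at hh
    obtain ⟨b, hb⟩ := (Submodule.mem_span_image_finset_iff_exists_fun' _).mp hh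
    exact ⟨b, by simpa only [smul_eq_mul] using hb⟩
  set a : Fin n → MvPolynomial (Fin n) ℂ := fun i => if i = i0 then h else - b i with ha
  have hsum : ∑ i, a i * G i = 0 := by
    rw [← Finset.add_sum_erase _ _ (Finset.mem_univ i0)]
    have h1 : ∑ j ∈ Finset.univ.erase i0, a j * G j = - (G i0 * h) := by
      rw [← hb, ← Finset.sum_neg_distrib]
      apply Finset.sum_congr rfl
      intro j hj
      have : j ≠ i0 := (Finset.mem_erase.mp hj).1
      simp only [ha, if_neg this]
      ring
    rw [h1]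
    simp only [ha, if_true]
    ring
  obtain ⟨c, hc1, hc2⟩ := syz_descent g G d hd hg h0 hG a hsum (M + d i0)
  have h2 := hc2 i0
  rw [Nat.add_sub_cancel, lo_iff, idealOfVars_eq_pt] at h2
  have h3 : a i0 = h := by simp only [ha, if_true]
  rw [h3] at h2
  have e : h = ∑ j, c i0 j * G j + (h - ∑ j, c i0 j * G j) := by ring
  rw [e]
  apply add_mem
  · apply Ideal.mem_sup_left
    apply Ideal.sum_mem
    intro j _
    by_cases hj : j = i0
    · have h4 : c i0 j = 0 := by
        rw [hj]
        exact self_eq_neg.mp (hc1 i0 i0)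
      rw [h4, zero_mul]
      exact zero_mem _
    · exact Ideal.mul_mem_left _ _ (Ideal.subset_span ⟨j, hj, rfl⟩)
  · exact Ideal.mem_sup_right h2

end syz

section weighted

variable {n : ℕ} (w : Fin n → ℕ) (hw : ∀ i, 0 < w i)
  (f g : Fin n → MvPolynomial (Fin n) ℂ) (d : Fin n → ℕ) (hd : ∀ i, 0 < d i)
  (hg : ∀ i, ∀ α : Fin n →₀ ℕ, (g i).coeff α ≠ 0 → ∑ j, w j * α j = d i)
  (h0 : ∀ x : Fin n → ℂ, (∀ i, eval x (g i) = 0) → x = 0)
  (hfg : ∀ i, ∀ α : Fin n →₀ ℕ, (f i - g i).coeff α ≠ 0 → d i < ∑ j, w j * α j)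

include hw hd hg h0 hfg in
/-- (A2) -/
theorem reg_weighted (i0 : Fin n) (h s : MvPolynomial (Fin n) ℂ) (hs : s ∉ pt (0 : Fin n → ℂ))
    (hh : s * (f i0 * h) ∈ Ideal.span (f '' {i0}ᶜ)) :
    ∃ s', s' ∉ pt (0 : Fin n → ℂ) ∧ s' * h ∈ Ideal.span (f '' {i0}ᶜ) := by
  set F : Fin n → MvPolynomial (Fin n) ℂ := fun i => pw w (f i) with hF
  set G : Fin n → MvPolynomial (Fin n) ℂ := fun i => pw w (g i) with hG
  have hGh : ∀ i, (G i).IsHomogeneous (d i) := pw_hom w g d hg
  have hG0 : ∀ x : Fin n → ℂ, (∀ i, eval x (G i) = 0) → x = 0 := fun x hx => pw_zero w hw g h0 x hx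
  have hFG : ∀ i, lo (d i + 1) (F i - G i) := pw_lo w f g d hfg
  have hmap : (Ideal.span (f '' {i0}ᶜ)).map (pw w) = Ideal.span (F '' {i0}ᶜ) := by
    rw [Ideal.map_span, ← Set.image_comp]
    rfl
  have h1 : F i0 * pw w (s * h) ∈ Ideal.span (F '' {i0}ᶜ) := by
    have h2 : pw w (s * (f i0 * h)) ∈ Ideal.span (F '' {i0}ᶜ) := by
      rw [← hmap]
      exact Ideal.mem_map_of_mem _ hh
    have e : F i0 * pw w (s * h) = pw w (s * (f i0 * h)) := by
      simp only [hF, map_mul]
      ring
    rw [e]
    exact h2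
  have h3 : ∀ M, s * h ∈ Ideal.span (f '' {i0}ᶜ) ⊔ pt (0 : Fin n → ℂ) ^ M := by
    intro M
    have h4 := reg_order G F d hd hGh hG0 hFG i0 (pw w (s * h)) h1 (Wb w * (M + n) + 1)
    rw [← hmap] at h4
    obtain ⟨i, hi, r, hr, hir⟩ := Submodule.mem_sup.mp h4
    let e0 : Er w := fun i => ⟨0, hw i⟩
    have h2 : chi w e0 (pw w (s * h)) = s * h := by
      have h3 := chi_pw_mul w hw e0 (s * h) (ye w e0)
      have h4 : ye w e0 = 1 := by
        unfold ye
        have : (Finsupp.equivFunOnFinite.symm fun i => ((e0 i : Fin (w i)) : ℕ)) = 0 := by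
          ext i; rfl
        rw [this]; rfl
      rw [chi_ye, if_pos rfl, mul_one, h4, mul_one] at h3
      exact h3
    rw [← h2, ← hir, map_add]
    apply add_mem
    · exact Ideal.mem_sup_left ((mem_map_pw w hw _ _).mp hi e0)
    · apply Ideal.mem_sup_right
      rw [← idealOfVars_eq_pt, ← lo_iff] at hr ⊢
      exact lo_chi w hw hr e0
  obtain ⟨s', hs', hs2⟩ := krull_local _ _ _ h3
  refine ⟨s' * s, ?_, by rwa [mul_assoc]⟩
  intro h5
  rcases (pt_isPrime (0 : Fin n → ℂ)).mem_or_mem h5 with h6 | h6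
  · exact hs' h6
  · exact hs h6

lemma span_update {i0 : Fin n} (y : MvPolynomial (Fin n) ℂ) :
    Ideal.span (Set.range (Function.update f i0 y)) = Ideal.span (f '' {i0}ᶜ) ⊔ Ideal.span {y} := by
  rw [← Ideal.span_union]
  congr 1
  ext x
  constructor
  · rintro ⟨i, rfl⟩
    by_cases hi : i = i0
    · subst hi
      right
      simp
    · left
      exact ⟨i, hi, by rw [Function.update_of_ne hi]⟩
  · rintro (⟨i, hi, rfl⟩ | hx)
    · exact ⟨i, by rw [Function.update_of_ne hi]⟩
    · rw [Set.mem_singleton_iff] at hx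
      exact ⟨i0, by rw [hx]; simp⟩

include hw hd hg h0 hfg in
/-- (A3) additivity for a factor of one equation, the other factor satisfying (W) -/
theorem mulAt_update_mul (i0 : Fin n) (y : MvPolynomial (Fin n) ℂ)
    (hfin : Module.Finite ℂ (Localization.AtPrime (pt (0 : Fin n → ℂ)) ⧸
      (Ideal.span (Set.range (Function.update f i0 y))).map
        (algebraMap (MvPolynomial (Fin n) ℂ) (Localization.AtPrime (pt (0 : Fin n → ℂ)))))) :
    Module.Finite ℂ (Localization.AtPrime (pt (0 : Fin n → ℂ)) ⧸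
      (Ideal.span (Set.range (Function.update f i0 (f i0 * y)))).map
        (algebraMap (MvPolynomial (Fin n) ℂ) (Localization.AtPrime (pt (0 : Fin n → ℂ))))) ∧
    mulAt (Ideal.span (Set.range (Function.update f i0 (f i0 * y)))) 0 =
      mulAt (Ideal.span (Set.range f)) 0 +
        mulAt (Ideal.span (Set.range (Function.update f i0 y))) 0 := by
  obtain ⟨h1, -⟩ := locBez_weighted w hw f g d hd hg h0 hfg
  have e1 : Ideal.span (Set.range f) = Ideal.span (f '' {i0}ᶜ) ⊔ Ideal.span {f i0} := by
    have := span_update f (i0 := i0) (f i0)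
    rwa [Function.update_eq_self] at this
  rw [e1] at h1 ⊢
  rw [span_update] at hfin ⊢
  rw [span_update]
  exact mulAt_mul _ _ _ _ (reg_weighted w hw f g d hd hg h0 hfg i0) h1 hfin

end weighted

end

end EY
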