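import Mathlib

set_option autoImplicit false

/-!
# EY-WOrd: weighted orders and initial forms, weighted degrees and top forms

`w : σ → ℕ` weights.  `wlo w s f`: every monomial of `f` has weight `≥ s`; `Lead w s f g`: `g` has weights `≥ s` and
`f - g` has weights `> s`.  `wlt w s f`: every monomial of `f` has weight `< s`; `Top w s f g`: `g` has weights `≤ s`
and `f - g` has weights `< s`.
-/

namespace EY

open MvPolynomial

noncomputable section

variable {σ τ : Type*} [Fintype σ] [Fintype τ]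

/-- weight of an exponent -/
def wd (w : σ → ℕ) (α : σ →₀ ℕ) : ℕ := ∑ j, w j * α j

lemma wd_add (w : σ → ℕ) (α β : σ →₀ ℕ) : wd w (α + β) = wd w α + wd w β := by
  unfold wd
  rw [← Finset.sum_add_distrib]
  apply Finset.sum_congr rfl
  intro j _
  rw [Finsupp.add_apply, mul_add]

lemma wd_zero (w : σ → ℕ) : wd w 0 = 0 := by
  unfold wd; simp

lemma wd_single [DecidableEq σ] (w : σ → ℕ) (i : σ) (k : ℕ) : wd w (Finsupp.single i k) = w i * k := by
  unfold wd
  rw [Finset.sum_eq_single i]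
  · simp
  · intro j _ hj
    rw [Finsupp.single_apply, if_neg (Ne.symm hj), mul_zero]
  · intro h; exact absurd (Finset.mem_univ i) h

/-- weighted homogeneous of degree `s` -/
def wh (w : σ → ℕ) (s : ℕ) (f : MvPolynomial σ ℂ) : Prop := ∀ α, f.coeff α ≠ 0 → wd w α = s

/-- weighted order at least `s` -/
def wlo (w : σ → ℕ) (s : ℕ) (f : MvPolynomial σ ℂ) : Prop := ∀ α, f.coeff α ≠ 0 → s ≤ wd w α

/-- weighted degree less than `s` -/
def wlt (w : σ → ℕ) (s : ℕ) (f : MvPolynomial σ ℂ) : Prop := ∀ α, f.coeff α ≠ 0 → wd w α < s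

variable {w : σ → ℕ} {s t : ℕ} {f g f' g' : MvPolynomial σ ℂ}

omit [Fintype σ] in
/-- a condition on exponents, closed under products -/
lemma coeff_mul_ne {f g : MvPolynomial σ ℂ} {α : σ →₀ ℕ} (h : (f * g).coeff α ≠ 0) :
    ∃ β γ, β + γ = α ∧ f.coeff β ≠ 0 ∧ g.coeff γ ≠ 0 := by
  classical
  rw [coeff_mul] at h
  obtain ⟨⟨β, γ⟩, hm, hne⟩ := Finset.exists_ne_zero_of_sum_ne_zero h
  exact ⟨β, γ, by simpa using hm, left_ne_zero_of_mul hne, right_ne_zero_of_mul hne⟩

omit [Fintype σ] in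
lemma coeff_add_ne {f g : MvPolynomial σ ℂ} {α : σ →₀ ℕ} (h : (f + g).coeff α ≠ 0) :
    f.coeff α ≠ 0 ∨ g.coeff α ≠ 0 := by
  by_contra hc
  push Not at hc
  rw [coeff_add, hc.1, hc.2, add_zero] at h
  exact h rfl

/-! ### weighted homogeneous -/

lemma wh_zero (w : σ → ℕ) (s : ℕ) : wh w s (0 : MvPolynomial σ ℂ) := fun α h => absurd (coeff_zero α) h

lemma wh_add (hf : wh w s f) (hg : wh w s g) : wh w s (f + g) := fun α h => by
  rcases coeff_add_ne h with h | h
  · exact hf α h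
  · exact hg α h

lemma wh_neg (hf : wh w s f) : wh w s (-f) := fun α h => hf α (by rwa [coeff_neg, neg_ne_zero] at h)

lemma wh_sub (hf : wh w s f) (hg : wh w s g) : wh w s (f - g) := by
  rw [sub_eq_add_neg]; exact wh_add hf (wh_neg hg)

lemma wh_sum {ι : Type*} (T : Finset ι) {f : ι → MvPolynomial σ ℂ} (hf : ∀ i ∈ T, wh w s (f i)) :
    wh w s (∑ i ∈ T, f i) := by
  classical
  induction T using Finset.induction_on with
  | empty => rw [Finset.sum_empty]; exact wh_zero w s
  | insert a T ha ih =>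
    rw [Finset.sum_insert ha]
    exact wh_add (hf a (Finset.mem_insert_self _ _)) (ih fun i hi => hf i (Finset.mem_insert_of_mem hi))

lemma wh_mul (hf : wh w s f) (hg : wh w t g) : wh w (s + t) (f * g) := fun α h => by
  obtain ⟨β, γ, rfl, h1, h2⟩ := coeff_mul_ne h
  rw [wd_add, hf β h1, hg γ h2]

lemma wh_C (w : σ → ℕ) (c : ℂ) : wh w 0 (C c : MvPolynomial σ ℂ) := fun α h => by
  classical
  rw [coeff_C] at h
  split_ifs at h with h1
  · rw [← h1, wd_zero]
  · exact absurd rfl h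

lemma wh_one (w : σ → ℕ) : wh w 0 (1 : MvPolynomial σ ℂ) := by
  rw [← C_1]; exact wh_C w 1

lemma wh_C_mul (c : ℂ) (hf : wh w s f) : wh w s (C c * f) := by
  have := wh_mul (wh_C w c) hf
  rwa [zero_add] at this

lemma wh_pow (hf : wh w s f) (k : ℕ) : wh w (s * k) (f ^ k) := by
  induction k with
  | zero => rw [pow_zero, mul_zero]; exact wh_one w
  | succ k ih => rw [pow_succ, Nat.mul_succ]; exact wh_mul ih hf

lemma wh_X (w : σ → ℕ) (i : σ) : wh w (w i) (X i : MvPolynomial σ ℂ) := fun α h => by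
  classical
  rw [coeff_X] at h
  split_ifs at h with h1
  · rw [← h1, wd_single, mul_one]
  · exact absurd rfl h

lemma wh_prod {ι : Type*} (T : Finset ι) {f : ι → MvPolynomial σ ℂ} {s : ι → ℕ}
    (hf : ∀ i ∈ T, wh w (s i) (f i)) : wh w (∑ i ∈ T, s i) (∏ i ∈ T, f i) := by
  classical
  induction T using Finset.induction_on with
  | empty => rw [Finset.sum_empty, Finset.prod_empty]; exact wh_one w
  | insert a T ha ih =>
    rw [Finset.sum_insert ha, Finset.prod_insert ha]
    exact wh_mul (hf a (Finset.mem_insert_self _ _)) (ih fun i hi => hf i (Finset.mem_insert_of_mem hi))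

/-! ### weighted order -/

lemma wh.wlo (hf : wh w s f) : wlo w s f := fun α h => (hf α h).ge

lemma wh.wlt (hf : wh w s f) : wlt w (s + 1) f := fun α h => by rw [hf α h]; exact Nat.lt_succ_self s

lemma wlo_triv (f : MvPolynomial σ ℂ) : wlo w 0 f := fun _ _ => Nat.zero_le _

lemma wlo_zero (w : σ → ℕ) (s : ℕ) : wlo w s (0 : MvPolynomial σ ℂ) := (wh_zero w s).wlo

lemma wlo_mono (h : t ≤ s) (hf : wlo w s f) : wlo w t f := fun α hα => h.trans (hf α hα)

lemma wlo_add (hf : wlo w s f) (hg : wlo w s g) : wlo w s (f + g) := fun α h => by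
  rcases coeff_add_ne h with h | h
  · exact hf α h
  · exact hg α h

lemma wlo_neg (hf : wlo w s f) : wlo w s (-f) := fun α h => hf α (by rwa [coeff_neg, neg_ne_zero] at h)

lemma wlo_sub (hf : wlo w s f) (hg : wlo w s g) : wlo w s (f - g) := by
  rw [sub_eq_add_neg]; exact wlo_add hf (wlo_neg hg)

lemma wlo_sum {ι : Type*} (T : Finset ι) {f : ι → MvPolynomial σ ℂ} (hf : ∀ i ∈ T, wlo w s (f i)) :
    wlo w s (∑ i ∈ T, f i) := by
  classical
  induction T using Finset.induction_on with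
  | empty => rw [Finset.sum_empty]; exact wlo_zero w s
  | insert a T ha ih =>
    rw [Finset.sum_insert ha]
    exact wlo_add (hf a (Finset.mem_insert_self _ _)) (ih fun i hi => hf i (Finset.mem_insert_of_mem hi))

lemma wlo_mul (hf : wlo w s f) (hg : wlo w t g) : wlo w (s + t) (f * g) := fun α h => by
  obtain ⟨β, γ, rfl, h1, h2⟩ := coeff_mul_ne h
  rw [wd_add]; exact add_le_add (hf β h1) (hg γ h2)

lemma wlo_C_mul (c : ℂ) (hf : wlo w s f) : wlo w s (C c * f) := by
  have := wlo_mul (wh_C w c).wlo hf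
  rwa [zero_add] at this

lemma wlo_mul_left (f : MvPolynomial σ ℂ) (hg : wlo w s g) : wlo w s (f * g) := by
  have := wlo_mul (wlo_triv (w := w) f) hg
  rwa [zero_add] at this

lemma wlo_mul_right (hf : wlo w s f) (g : MvPolynomial σ ℂ) : wlo w s (f * g) := by
  rw [mul_comm]; exact wlo_mul_left g hf

lemma wlo_pow (hf : wlo w s f) (k : ℕ) : wlo w (s * k) (f ^ k) := by
  induction k with
  | zero => exact wlo_triv _
  | succ k ih => rw [pow_succ, Nat.mul_succ]; exact wlo_mul ih hf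

lemma wlo_prod {ι : Type*} (T : Finset ι) {f : ι → MvPolynomial σ ℂ} {s : ι → ℕ}
    (hf : ∀ i ∈ T, wlo w (s i) (f i)) : wlo w (∑ i ∈ T, s i) (∏ i ∈ T, f i) := by
  classical
  induction T using Finset.induction_on with
  | empty => exact wlo_triv _
  | insert a T ha ih =>
    rw [Finset.sum_insert ha, Finset.prod_insert ha]
    exact wlo_mul (hf a (Finset.mem_insert_self _ _)) (ih fun i hi => hf i (Finset.mem_insert_of_mem hi))

/-- substitution -/
lemma wlo_aeval {v : τ → ℕ} {p : τ → MvPolynomial σ ℂ} (hp : ∀ i, wlo w (v i) (p i))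
    {Φ : MvPolynomial τ ℂ} (hΦ : wlo v s Φ) : wlo w s (aeval p Φ) := by
  rw [aeval_def, eval₂_eq']
  apply wlo_sum
  intro α hα
  rw [MvPolynomial.algebraMap_eq]
  apply wlo_C_mul
  refine wlo_mono (hΦ α (mem_support_iff.mp hα)) ?_
  exact wlo_prod Finset.univ fun i _ => wlo_pow (hp i) (α i)

lemma wh_aeval {v : τ → ℕ} {p : τ → MvPolynomial σ ℂ} (hp : ∀ i, wh w (v i) (p i))
    {Φ : MvPolynomial τ ℂ} (hΦ : wh v s Φ) : wh w s (aeval p Φ) := by
  rw [aeval_def, eval₂_eq']
  apply wh_sum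
  intro α hα
  rw [MvPolynomial.algebraMap_eq]
  apply wh_C_mul
  rw [← hΦ α (mem_support_iff.mp hα)]
  exact wh_prod Finset.univ fun i _ => wh_pow (hp i) (α i)

/-! ### initial forms -/

/-- `f = g +` terms of weight `> s`, `g` of weight `≥ s` -/
structure Lead (w : σ → ℕ) (s : ℕ) (f g : MvPolynomial σ ℂ) : Prop where
  lo : wlo w s g
  hi : wlo w (s + 1) (f - g)

lemma Lead.lof (h : Lead w s f g) : wlo w s f := by
  have e : f = g + (f - g) := by ring
  rw [e]; exact wlo_add h.lo (wlo_mono (Nat.le_succ s) h.hi)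

lemma Lead.self (h : wlo w s f) : Lead w s f f := ⟨h, by rw [sub_self]; exact wlo_zero w _⟩

lemma Lead.zero (h : wlo w (s + 1) f) : Lead w s f 0 := ⟨wlo_zero w _, by rwa [sub_zero]⟩

lemma Lead.of_lt {s' : ℕ} (h : wlo w s' f) (hs : s < s') : Lead w s f 0 := Lead.zero (wlo_mono hs h)

lemma Lead.add (h : Lead w s f g) (h' : Lead w s f' g') : Lead w s (f + f') (g + g') :=
  ⟨wlo_add h.lo h'.lo, by rw [add_sub_add_comm]; exact wlo_add h.hi h'.hi⟩

lemma Lead.neg (h : Lead w s f g) : Lead w s (-f) (-g) :=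
  ⟨wlo_neg h.lo, by rw [neg_sub_neg, ← neg_sub]; exact wlo_neg h.hi⟩

lemma Lead.sub (h : Lead w s f g) (h' : Lead w s f' g') : Lead w s (f - f') (g - g') := by
  rw [sub_eq_add_neg, sub_eq_add_neg]; exact h.add h'.neg

/-- adding terms of higher weight -/
lemma Lead.add_hi (h : Lead w s f g) (h' : wlo w (s + 1) f') : Lead w s (f + f') g := by
  have := h.add (Lead.zero h')
  rwa [add_zero] at this

lemma Lead.mul (h : Lead w s f g) (h' : Lead w t f' g') : Lead w (s + t) (f * f') (g * g') := by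
  refine ⟨wlo_mul h.lo h'.lo, ?_⟩
  have e : f * f' - g * g' = (f - g) * f' + g * (f' - g') := by ring
  rw [e]
  apply wlo_add
  · exact wlo_mono (by omega) (wlo_mul h.hi h'.lof)
  · exact wlo_mono (by omega) (wlo_mul h.lo h'.hi)

lemma Lead.C_mul (c : ℂ) (h : Lead w s f g) : Lead w s (C c * f) (C c * g) := by
  refine ⟨wlo_C_mul c h.lo, ?_⟩
  rw [← mul_sub]; exact wlo_C_mul c h.hi

lemma Lead.one (w : σ → ℕ) : Lead w 0 (1 : MvPolynomial σ ℂ) 1 := Lead.self (wlo_triv _)

lemma Lead.X (w : σ → ℕ) (i : σ) : Lead w (w i) (X i : MvPolynomial σ ℂ) (X i) := Lead.self (wh_X w i).wlo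

lemma Lead.pow (h : Lead w s f g) (k : ℕ) : Lead w (s * k) (f ^ k) (g ^ k) := by
  induction k with
  | zero => rw [pow_zero, pow_zero, mul_zero]; exact Lead.one w
  | succ k ih => rw [pow_succ, pow_succ, Nat.mul_succ]; exact ih.mul h

lemma Lead.sum {ι : Type*} (T : Finset ι) {f g : ι → MvPolynomial σ ℂ}
    (h : ∀ i ∈ T, Lead w s (f i) (g i)) : Lead w s (∑ i ∈ T, f i) (∑ i ∈ T, g i) :=
  ⟨wlo_sum T fun i hi => (h i hi).lo, by
    rw [← Finset.sum_sub_distrib]; exact wlo_sum T fun i hi => (h i hi).hi⟩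

lemma Lead.prod {ι : Type*} (T : Finset ι) {f g : ι → MvPolynomial σ ℂ} {s : ι → ℕ}
    (h : ∀ i ∈ T, Lead w (s i) (f i) (g i)) :
    Lead w (∑ i ∈ T, s i) (∏ i ∈ T, f i) (∏ i ∈ T, g i) := by
  classical
  induction T using Finset.induction_on with
  | empty => exact Lead.one w
  | insert a T ha ih =>
    rw [Finset.sum_insert ha, Finset.prod_insert ha, Finset.prod_insert ha]
    exact (h a (Finset.mem_insert_self _ _)).mul (ih fun i hi => h i (Finset.mem_insert_of_mem hi))

lemma Lead.cast (h : Lead w s f g) (hs : s = t) : Lead w t f g := hs ▸ h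

/-- the initial form of a substitution -/
lemma Lead.aeval {v : τ → ℕ} {p p' : τ → MvPolynomial σ ℂ} (hp : ∀ i, Lead w (v i) (p i) (p' i))
    {Φ Φ' : MvPolynomial τ ℂ} (hΦ : Lead v s Φ Φ') :
    Lead w s (MvPolynomial.aeval p Φ) (MvPolynomial.aeval p' Φ') := by
  have h1 : Lead w s (MvPolynomial.aeval p Φ') (MvPolynomial.aeval p' Φ') := by
    rw [aeval_def, aeval_def, eval₂_eq', eval₂_eq']
    apply Lead.sum
    intro α hα
    rw [MvPolynomial.algebraMap_eq]
    apply Lead.C_mul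
    have h2 : Lead w (∑ i, v i * α i) (∏ i, p i ^ α i) (∏ i, p' i ^ α i) :=
      Lead.prod Finset.univ fun i _ => (hp i).pow (α i)
    have h3 : s ≤ ∑ i, v i * α i := hΦ.lo α (mem_support_iff.mp hα)
    exact ⟨wlo_mono h3 h2.lo, wlo_mono (by omega) h2.hi⟩
  have h4 : wlo w (s + 1) (MvPolynomial.aeval p (Φ - Φ')) :=
    wlo_aeval (fun i => (hp i).lof) hΦ.hi
  have e : MvPolynomial.aeval p Φ = MvPolynomial.aeval p Φ' + MvPolynomial.aeval p (Φ - Φ') := by
    rw [map_sub]; ring
  rw [e]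
  exact h1.add_hi h4

/-! ### weighted degree -/

lemma wlt_zero (w : σ → ℕ) (s : ℕ) : wlt w s (0 : MvPolynomial σ ℂ) := fun α h => absurd (coeff_zero α) h

lemma wlt_mono (h : s ≤ t) (hf : wlt w s f) : wlt w t f := fun α hα => (hf α hα).trans_le h

lemma wlt_add (hf : wlt w s f) (hg : wlt w s g) : wlt w s (f + g) := fun α h => by
  rcases coeff_add_ne h with h | h
  · exact hf α h
  · exact hg α h

lemma wlt_neg (hf : wlt w s f) : wlt w s (-f) := fun α h => hf α (by rwa [coeff_neg, neg_ne_zero] at h)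

lemma wlt_sub (hf : wlt w s f) (hg : wlt w s g) : wlt w s (f - g) := by
  rw [sub_eq_add_neg]; exact wlt_add hf (wlt_neg hg)

lemma wlt_sum {ι : Type*} (T : Finset ι) {f : ι → MvPolynomial σ ℂ} (hf : ∀ i ∈ T, wlt w s (f i)) :
    wlt w s (∑ i ∈ T, f i) := by
  classical
  induction T using Finset.induction_on with
  | empty => rw [Finset.sum_empty]; exact wlt_zero w s
  | insert a T ha ih =>
    rw [Finset.sum_insert ha]
    exact wlt_add (hf a (Finset.mem_insert_self _ _)) (ih fun i hi => hf i (Finset.mem_insert_of_mem hi))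

/-- `f` of degree `< s`, `g` of degree `≤ t` -/
lemma wlt_mul (hf : wlt w s f) (hg : wlt w (t + 1) g) : wlt w (s + t) (f * g) := fun α h => by
  obtain ⟨β, γ, rfl, h1, h2⟩ := coeff_mul_ne h
  rw [wd_add]
  have := hf β h1
  have := hg γ h2
  omega

lemma wlt_C_mul (c : ℂ) (hf : wlt w s f) : wlt w s (C c * f) := by
  rw [mul_comm]
  exact wlt_mul (t := 0) hf (wh_C w c).wlt

/-- `f = g +` terms of weight `< s`, `g` of weight `≤ s` -/
structure Top (w : σ → ℕ) (s : ℕ) (f g : MvPolynomial σ ℂ) : Prop where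
  up : wlt w (s + 1) g
  hi : wlt w s (f - g)

lemma Top.upf (h : Top w s f g) : wlt w (s + 1) f := by
  have e : f = g + (f - g) := by ring
  rw [e]; exact wlt_add h.up (wlt_mono (Nat.le_succ s) h.hi)

lemma Top.self (h : wlt w (s + 1) f) : Top w s f f := ⟨h, by rw [sub_self]; exact wlt_zero w _⟩

lemma Top.zero (h : wlt w s f) : Top w s f 0 := ⟨wlt_zero w _, by rwa [sub_zero]⟩

lemma Top.add (h : Top w s f g) (h' : Top w s f' g') : Top w s (f + f') (g + g') :=
  ⟨wlt_add h.up h'.up, by rw [add_sub_add_comm]; exact wlt_add h.hi h'.hi⟩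

lemma Top.neg (h : Top w s f g) : Top w s (-f) (-g) :=
  ⟨wlt_neg h.up, by rw [neg_sub_neg, ← neg_sub]; exact wlt_neg h.hi⟩

lemma Top.sub (h : Top w s f g) (h' : Top w s f' g') : Top w s (f - f') (g - g') := by
  rw [sub_eq_add_neg, sub_eq_add_neg]; exact h.add h'.neg

lemma Top.add_lo (h : Top w s f g) (h' : wlt w s f') : Top w s (f + f') g := by
  have := h.add (Top.zero h')
  rwa [add_zero] at this

lemma Top.mul (h : Top w s f g) (h' : Top w t f' g') : Top w (s + t) (f * f') (g * g') := by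
  refine ⟨?_, ?_⟩
  · have := wlt_mul h.up h'.up
    exact wlt_mono (by omega) this
  · have e : f * f' - g * g' = (f - g) * f' + (f' - g') * g := by ring
    rw [e]
    apply wlt_add
    · exact wlt_mul h.hi h'.upf
    · rw [add_comm]; exact wlt_mul h'.hi h.up

lemma Top.C_mul (c : ℂ) (h : Top w s f g) : Top w s (C c * f) (C c * g) := by
  refine ⟨wlt_C_mul c h.up, ?_⟩
  rw [← mul_sub]; exact wlt_C_mul c h.hi

lemma Top.one (w : σ → ℕ) : Top w 0 (1 : MvPolynomial σ ℂ) 1 := Top.self (wh_one w).wlt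

lemma Top.C (w : σ → ℕ) (c : ℂ) : Top w 0 (C c : MvPolynomial σ ℂ) (C c) := Top.self (wh_C w c).wlt

lemma Top.X (w : σ → ℕ) (i : σ) : Top w (w i) (X i : MvPolynomial σ ℂ) (X i) := Top.self (wh_X w i).wlt

lemma Top.pow (h : Top w s f g) (k : ℕ) : Top w (s * k) (f ^ k) (g ^ k) := by
  induction k with
  | zero => rw [pow_zero, pow_zero, mul_zero]; exact Top.one w
  | succ k ih => rw [pow_succ, pow_succ, Nat.mul_succ]; exact ih.mul h

lemma Top.sum {ι : Type*} (T : Finset ι) {f g : ι → MvPolynomial σ ℂ}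
    (h : ∀ i ∈ T, Top w s (f i) (g i)) : Top w s (∑ i ∈ T, f i) (∑ i ∈ T, g i) :=
  ⟨wlt_sum T fun i hi => (h i hi).up, by
    rw [← Finset.sum_sub_distrib]; exact wlt_sum T fun i hi => (h i hi).hi⟩

lemma Top.prod {ι : Type*} (T : Finset ι) {f g : ι → MvPolynomial σ ℂ} {s : ι → ℕ}
    (h : ∀ i ∈ T, Top w (s i) (f i) (g i)) :
    Top w (∑ i ∈ T, s i) (∏ i ∈ T, f i) (∏ i ∈ T, g i) := by
  classical
  induction T using Finset.induction_on with
  | empty => exact Top.one w
  | insert a T ha ih =>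
    rw [Finset.sum_insert ha, Finset.prod_insert ha, Finset.prod_insert ha]
    exact (h a (Finset.mem_insert_self _ _)).mul (ih fun i hi => h i (Finset.mem_insert_of_mem hi))

lemma Top.cast (h : Top w s f g) (hs : s = t) : Top w t f g := hs ▸ h

/-- the top form of a substitution -/
lemma Top.aeval {v : τ → ℕ} {p p' : τ → MvPolynomial σ ℂ} (hp : ∀ i, Top w (v i) (p i) (p' i))
    {Φ Φ' : MvPolynomial τ ℂ} (hΦ : Top v s Φ Φ') :
    Top w s (MvPolynomial.aeval p Φ) (MvPolynomial.aeval p' Φ') := by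
  have hmono : ∀ (Ψ : MvPolynomial τ ℂ) (r : ℕ), wlt v (r + 1) Ψ →
      Top w r (MvPolynomial.aeval p Ψ) (MvPolynomial.aeval p' Ψ) := by
    intro Ψ r hΨ
    rw [aeval_def, aeval_def, eval₂_eq', eval₂_eq']
    apply Top.sum
    intro α hα
    rw [MvPolynomial.algebraMap_eq]
    apply Top.C_mul
    have h2 : Top w (∑ i, v i * α i) (∏ i, p i ^ α i) (∏ i, p' i ^ α i) :=
      Top.prod Finset.univ fun i _ => (hp i).pow (α i)
    have h3 : ∑ i, v i * α i < r + 1 := hΨ α (mem_support_iff.mp hα)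
    exact ⟨wlt_mono (by omega) h2.up, wlt_mono (by omega) h2.hi⟩
  have h1 := hmono Φ' s hΦ.up
  have h4 : wlt w s (MvPolynomial.aeval p (Φ - Φ')) := by
    rcases Nat.eq_zero_or_pos s with hs | hs
    · have h5 : Φ - Φ' = 0 := by
        ext α
        by_contra h6
        have := hΦ.hi α h6
        omega
      rw [h5, map_zero]; exact wlt_zero w s
    · obtain ⟨r, rfl⟩ := Nat.exists_eq_succ_of_ne_zero hs.ne'
      exact (hmono (Φ - Φ') r hΦ.hi).upf
  have e : MvPolynomial.aeval p Φ = MvPolynomial.aeval p Φ' + MvPolynomial.aeval p (Φ - Φ') := by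
    rw [map_sub]; ring
  rw [e]
  exact h1.add_lo h4

end

end EY
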