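import Pool.Agent.helper40.EY.AffW
import Pool.Agent.helper40.EY.Add
import Pool.Agent.helper40.EY.WOrd
import Pool.Agent.helper5.EY.Congr

set_option autoImplicit false

/-!
# EY-WBez: the weighted Bezout theorems for any finite index type; elimination of a variable
-/

namespace EY

open MvPolynomial

noncomputable section

/-! ### transport of local multiplicities -/

section transport

variable {σ τ : Type*}

/-- a point off the scheme has multiplicity 0 -/
theorem mulAt_eq_zero {I : Ideal (MvPolynomial σ ℂ)} {p : σ → ℂ} {f : MvPolynomial σ ℂ} (hf : f ∈ I)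
    (hp : eval p f ≠ 0) : mulAt I p = 0 := by
  unfold mulAt
  have h1 : I.map (algebraMap (MvPolynomial σ ℂ) (Localization.AtPrime (pt p))) = ⊤ := by
    apply Ideal.eq_top_of_isUnit_mem _ (Ideal.mem_map_of_mem _ hf)
    exact IsLocalization.map_units (Localization.AtPrime (pt p))
      (⟨f, fun h => hp (mem_pt.mp h)⟩ : (pt p).primeCompl)
  rw [h1]
  have : Subsingleton (Localization.AtPrime (pt p) ⧸
      (⊤ : Ideal (Localization.AtPrime (pt p)))) := Ideal.Quotient.subsingleton_iff.mpr rfl
  exact Module.finrank_zero_of_subsingleton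

theorem eval_eq_zero_of_pos {I : Ideal (MvPolynomial σ ℂ)} {p : σ → ℂ} (h : mulAt I p ≠ 0)
    {f : MvPolynomial σ ℂ} (hf : f ∈ I) : eval p f = 0 := by
  by_contra hp
  exact h (mulAt_eq_zero hf hp)

/-- a nonzero multiplicity is a finite one -/
theorem finite_of_mulAt {I : Ideal (MvPolynomial σ ℂ)} {p : σ → ℂ} (h : mulAt I p ≠ 0) :
    Module.Finite ℂ (Localization.AtPrime (pt p) ⧸
      I.map (algebraMap (MvPolynomial σ ℂ) (Localization.AtPrime (pt p)))) :=
  Module.finite_of_finrank_pos (Nat.pos_of_ne_zero h)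

/-- transport along a surjection with kernel in `I` -/
theorem mulAt_map (φ : MvPolynomial σ ℂ →ₐ[ℂ] MvPolynomial τ ℂ) (hφ : Function.Surjective φ)
    (I : Ideal (MvPolynomial σ ℂ)) (hk : ∀ x, φ x = 0 → x ∈ I) (p : σ → ℂ) (p' : τ → ℂ)
    (h3 : ∀ x, eval p' (φ x) = eval p x) : mulAt I p = mulAt (I.map φ) p' := by
  have h2 : ∀ x, φ x ∈ I.map φ ↔ x ∈ I := by
    intro x
    constructor
    · intro hx
      obtain ⟨y, hy, hyx⟩ := (Ideal.mem_map_iff_of_surjective φ hφ).mp hx
      have h4 : x - y ∈ I := hk _ (by rw [map_sub, hyx, sub_self])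
      have e : x = (x - y) + y := by ring
      rw [e]
      exact I.add_mem h4 hy
    · intro hx
      exact Ideal.mem_map_of_mem _ hx
  by_cases h : ∀ x ∈ I, eval p x = 0
  · refine mulAt_congr I (I.map φ) p p' φ ?_ h2 h3 ?_
    · intro y
      obtain ⟨x, rfl⟩ := hφ y
      exact ⟨x, by rw [sub_self]; exact Ideal.zero_mem _⟩
    · intro y hy
      obtain ⟨x, hx, rfl⟩ := (Ideal.mem_map_iff_of_surjective φ hφ).mp hy
      rw [h3, h x hx]
  · push Not at h
    obtain ⟨x, hx, hx0⟩ := h
    rw [mulAt_eq_zero hx hx0, mulAt_eq_zero (Ideal.mem_map_of_mem φ hx) (by rw [h3]; exact hx0)]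

/-- finite colength, the same transport -/
theorem finrank_map_surj (φ : MvPolynomial σ ℂ →ₐ[ℂ] MvPolynomial τ ℂ) (hφ : Function.Surjective φ)
    (I : Ideal (MvPolynomial σ ℂ)) (hk : ∀ x, φ x = 0 → x ∈ I) :
    Nonempty ((MvPolynomial σ ℂ ⧸ I) ≃ₐ[ℂ] (MvPolynomial τ ℂ ⧸ I.map φ)) := by
  set F : MvPolynomial σ ℂ →ₐ[ℂ] (MvPolynomial τ ℂ ⧸ I.map φ) :=
    (Ideal.Quotient.mkₐ ℂ (I.map φ)).comp φ with hF
  have hs : Function.Surjective F := (Ideal.Quotient.mkₐ_surjective ℂ _).comp hφ
  have hker : RingHom.ker F = I := by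
    ext x
    rw [RingHom.mem_ker]
    change Ideal.Quotient.mk (I.map φ) (φ x) = 0 ↔ _
    rw [Ideal.Quotient.eq_zero_iff_mem]
    constructor
    · intro hx
      obtain ⟨y, hy, hyx⟩ := (Ideal.mem_map_iff_of_surjective φ hφ).mp hx
      have h4 : x - y ∈ I := hk _ (by rw [map_sub, hyx, sub_self])
      have e : x = (x - y) + y := by ring
      rw [e]
      exact I.add_mem h4 hy
    · intro hx
      exact Ideal.mem_map_of_mem _ hx
  exact ⟨(Ideal.quotientEquivAlgOfEq ℂ hker.symm).trans (Ideal.quotientKerAlgEquivOfSurjective hs)⟩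

end transport

/-! ### elimination of the variable `none` -/

section elim

variable {τ : Type*}

/-- `X none ↦ c`, `X (some t) ↦ X t` -/
def subN (c : MvPolynomial τ ℂ) : MvPolynomial (Option τ) ℂ →ₐ[ℂ] MvPolynomial τ ℂ :=
  aeval fun o => o.elim c X

@[simp] lemma subN_none (c : MvPolynomial τ ℂ) : subN c (X none) = c := by
  unfold subN; rw [aeval_X]; rfl

@[simp] lemma subN_some (c : MvPolynomial τ ℂ) (t : τ) : subN c (X (some t)) = X t := by
  unfold subN; rw [aeval_X]; rfl

lemma subN_rename (c : MvPolynomial τ ℂ) (f : MvPolynomial τ ℂ) : subN c (rename some f) = f := by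
  unfold subN
  rw [aeval_rename]
  have : (fun o : Option τ => o.elim c X) ∘ some = (X : τ → MvPolynomial τ ℂ) := rfl
  rw [this, aeval_X_left_apply]

lemma subN_surjective (c : MvPolynomial τ ℂ) : Function.Surjective (subN c) := fun f => ⟨_, subN_rename c f⟩

lemma sub_subN_mem (c : MvPolynomial τ ℂ) (f : MvPolynomial (Option τ) ℂ) :
    f - rename some (subN c f) ∈ Ideal.span {(X none - rename some c : MvPolynomial (Option τ) ℂ)} := by
  induction f using MvPolynomial.induction_on with
  | C a =>
    have : rename some (subN c (C a)) = (C a : MvPolynomial (Option τ) ℂ) := by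
      unfold subN; rw [aeval_C, MvPolynomial.algebraMap_eq, rename_C]
    rw [this, sub_self]; exact Ideal.zero_mem _
  | add p q hp hq =>
    have e : p + q - rename some (subN c (p + q)) =
        (p - rename some (subN c p)) + (q - rename some (subN c q)) := by
      rw [map_add, map_add]; ring
    rw [e]; exact Ideal.add_mem _ hp hq
  | mul_X p i hp =>
    have e : p * X i - rename some (subN c (p * X i)) =
        X i * (p - rename some (subN c p)) + rename some (subN c p) * (X i - rename some (subN c (X i))) := by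
      rw [map_mul, map_mul]; ring
    rw [e]
    apply Ideal.add_mem _ (Ideal.mul_mem_left _ _ hp)
    apply Ideal.mul_mem_left
    cases i with
    | none => rw [subN_none]; exact Ideal.subset_span rfl
    | some t => rw [subN_some, rename_X, sub_self]; exact Ideal.zero_mem _

lemma mem_of_subN_eq_zero {c : MvPolynomial τ ℂ} {I : Ideal (MvPolynomial (Option τ) ℂ)}
    (hI : X none - rename some c ∈ I) (x : MvPolynomial (Option τ) ℂ) (hx : subN c x = 0) : x ∈ I := by
  have h1 := sub_subN_mem c x
  rw [hx, map_zero, sub_zero] at h1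
  exact (Ideal.span_le.mpr (Set.singleton_subset_iff.mpr hI)) h1

lemma eval_subN (c : MvPolynomial τ ℂ) (p : Option τ → ℂ) (hp : p none = eval (fun t => p (some t)) c)
    (x : MvPolynomial (Option τ) ℂ) : eval (fun t => p (some t)) (subN c x) = eval p x := by
  induction x using MvPolynomial.induction_on with
  | C a => unfold subN; rw [aeval_C, MvPolynomial.algebraMap_eq, eval_C, eval_C]
  | add a b ha hb => rw [map_add, map_add, map_add, ha, hb]
  | mul_X a i ha =>
    rw [map_mul, map_mul, map_mul, ha, eval_X]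
    congr 1
    cases i with
    | none => rw [subN_none, hp]
    | some t => rw [subN_some, eval_X]

/-- **elimination of a variable** given by `X none = c` -/
theorem mulAt_subN (c : MvPolynomial τ ℂ) (I : Ideal (MvPolynomial (Option τ) ℂ))
    (hI : X none - rename some c ∈ I) (p : Option τ → ℂ) (hp : p none = eval (fun t => p (some t)) c) :
    mulAt I p = mulAt (I.map (subN c)) (fun t => p (some t)) :=
  mulAt_map (subN c) (subN_surjective c) I (mem_of_subN_eq_zero hI) p _ (eval_subN c p hp)

/-- the sheet `X none = 0` -/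
theorem mulAt_sheet (I : Ideal (MvPolynomial (Option τ) ℂ)) (hI : X none ∈ I) :
    mulAt I (0 : Option τ → ℂ) = mulAt (I.map (subN 0)) (0 : τ → ℂ) :=
  mulAt_subN 0 I (by rwa [map_zero, sub_zero]) 0 (by simp)

end elim

/-! ### the weighted theorems for a finite index type -/

section weighted

variable {σ : Type*} [Fintype σ]

/-- the reindexing -/
def ren (σ : Type*) [Fintype σ] : MvPolynomial σ ℂ ≃ₐ[ℂ] MvPolynomial (Fin (Fintype.card σ)) ℂ :=
  renameEquiv ℂ (Fintype.equivFin σ)

/-- the reindexed system -/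
def rsys (f : σ → MvPolynomial σ ℂ) : Fin (Fintype.card σ) → MvPolynomial (Fin (Fintype.card σ)) ℂ :=
  fun j => ren σ (f ((Fintype.equivFin σ).symm j))

lemma coeff_ren {f : MvPolynomial σ ℂ} {β : Fin (Fintype.card σ) →₀ ℕ} (h : (ren σ f).coeff β ≠ 0)
    (w : σ → ℕ) : ∃ α, f.coeff α ≠ 0 ∧ ∑ j, w ((Fintype.equivFin σ).symm j) * β j = wd w α := by
  obtain ⟨α, hα, hc⟩ := coeff_rename_ne_zero _ _ _ h
  refine ⟨α, hc, ?_⟩
  rw [← hα]
  unfold wd
  rw [← Equiv.sum_comp (Fintype.equivFin σ)]
  apply Finset.sum_congr rfl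
  intro i _
  rw [Equiv.symm_apply_apply, Finsupp.mapDomain_apply (Fintype.equivFin σ).injective]

lemma eval_ren (f : MvPolynomial σ ℂ) (x : Fin (Fintype.card σ) → ℂ) :
    eval x (ren σ f) = eval (fun i => x (Fintype.equivFin σ i)) f := by
  unfold ren
  rw [renameEquiv_apply, eval_rename]
  rfl

lemma map_rsys (f : σ → MvPolynomial σ ℂ) :
    (Ideal.span (Set.range f)).map (ren σ) = Ideal.span (Set.range (rsys f)) := by
  rw [Ideal.map_span, ← Set.range_comp]
  congr 1
  unfold rsys
  exact ((Fintype.equivFin σ).symm.surjective.range_comp (fun i => ren σ (f i))).symm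

lemma mulAt_rsys (f : σ → MvPolynomial σ ℂ) :
    mulAt (Ideal.span (Set.range f)) 0 = mulAt (Ideal.span (Set.range (rsys f))) 0 := by
  rw [← map_rsys]
  exact mulAt_map (ren σ).toAlgHom (ren σ).surjective _ (fun x hx => by
    have : x = 0 := (ren σ).injective (by rw [map_zero]; exact hx)
    rw [this]; exact Ideal.zero_mem _) 0 0 (fun x => eval_ren x 0)

variable {w : σ → ℕ} (hw : ∀ i, 0 < w i)
  {f g : σ → MvPolynomial σ ℂ} {d : σ → ℕ} (hd : ∀ i, 0 < d i)
  (hg : ∀ i, wh w (d i) (g i))
  (h0 : ∀ x : σ → ℂ, (∀ i, eval x (g i) = 0) → x = 0)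

include h0 in
lemma h0_ren (x : Fin (Fintype.card σ) → ℂ) (hx : ∀ j, eval x (rsys g j) = 0) : x = 0 := by
  have h1 := h0 (fun i => x (Fintype.equivFin σ i)) (fun i => by
    have h2 := hx (Fintype.equivFin σ i)
    unfold rsys at h2
    rwa [Equiv.symm_apply_apply, eval_ren] at h2)
  funext j
  have h3 := congrFun h1 ((Fintype.equivFin σ).symm j)
  simpa using h3

include hg in
lemma hg_ren (j : Fin (Fintype.card σ)) (β : Fin (Fintype.card σ) →₀ ℕ)
    (h : (rsys g j).coeff β ≠ 0) :
    ∑ i, w ((Fintype.equivFin σ).symm i) * β i = d ((Fintype.equivFin σ).symm j) := by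
  obtain ⟨α, hα, e⟩ := coeff_ren h w
  rw [e]
  exact hg _ α hα

include hw hd hg h0 in
/-- (W) weighted local Bezout: the multiplicity at the origin -/
theorem wBez (hfg : ∀ i, Lead w (d i) (f i) (g i)) :
    mulAt (Ideal.span (Set.range f)) 0 * ∏ i, w i = ∏ i, d i := by
  have h1 := (locBez_weighted (fun j => w ((Fintype.equivFin σ).symm j)) (fun j => hw _)
    (rsys f) (rsys g) (fun j => d ((Fintype.equivFin σ).symm j)) (fun j => hd _)
    (hg_ren hg) (h0_ren h0) (fun j β h => by
      unfold rsys at h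
      rw [← map_sub] at h
      obtain ⟨α, hα, e⟩ := coeff_ren h w
      rw [e]
      exact (hfg _).hi α hα)).2
  rw [mulAt_rsys]
  rw [Equiv.prod_comp (Fintype.equivFin σ).symm w, Equiv.prod_comp (Fintype.equivFin σ).symm d] at h1
  exact h1

include hw hd hg h0 in
lemma wBez_pos (hfg : ∀ i, Lead w (d i) (f i) (g i)) : mulAt (Ideal.span (Set.range f)) 0 ≠ 0 := by
  intro h
  have h1 := wBez hw hd hg h0 hfg
  rw [h, zero_mul] at h1
  exact absurd h1.symm (Finset.prod_pos fun i _ => hd i).ne'

include hw hd hg h0 in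
/-- (A3) additivity for a factor of one equation, the other factor satisfying (W) -/
theorem wMul [DecidableEq σ] (hfg : ∀ i, Lead w (d i) (f i) (g i)) (i0 : σ) (y : MvPolynomial σ ℂ)
    (hy : mulAt (Ideal.span (Set.range (Function.update f i0 y))) 0 ≠ 0) :
    mulAt (Ideal.span (Set.range (Function.update f i0 (f i0 * y)))) 0 =
      mulAt (Ideal.span (Set.range f)) 0 +
        mulAt (Ideal.span (Set.range (Function.update f i0 y))) 0 := by
  have hup : ∀ z : MvPolynomial σ ℂ, rsys (Function.update f i0 z) =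
      Function.update (rsys f) (Fintype.equivFin σ i0) (ren σ z) := by
    intro z
    funext j
    unfold rsys
    by_cases hj : j = Fintype.equivFin σ i0
    · subst hj
      simp
    · rw [Function.update_of_ne hj, Function.update_of_ne]
      intro h
      exact hj (by rw [← h, Equiv.apply_symm_apply])
  have hi0 : rsys f (Fintype.equivFin σ i0) = ren σ (f i0) := by
    unfold rsys; rw [Equiv.symm_apply_apply]
  have hy' := hy
  rw [mulAt_rsys, hup] at hy'
  have h1 := (mulAt_update_mul (fun j => w ((Fintype.equivFin σ).symm j)) (fun j => hw _)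
    (rsys f) (rsys g) (fun j => d ((Fintype.equivFin σ).symm j)) (fun j => hd _)
    (hg_ren hg) (h0_ren h0) (fun j β h => by
      unfold rsys at h
      rw [← map_sub] at h
      obtain ⟨α, hα, e⟩ := coeff_ren h w
      rw [e]
      exact (hfg _).hi α hα) (Fintype.equivFin σ i0) (ren σ y) (finite_of_mulAt hy')).2
  rw [mulAt_rsys, mulAt_rsys f, mulAt_rsys (Function.update f i0 y), hup, hup, map_mul, ← hi0]
  exact h1

include hw hd hg h0 in
/-- (BW) affine weighted Bezout -/
theorem wAff (hfg : ∀ i, Top w (d i) (f i) (g i)) :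
    Module.Finite ℂ (MvPolynomial σ ℂ ⧸ Ideal.span (Set.range f)) ∧
      Module.finrank ℂ (MvPolynomial σ ℂ ⧸ Ideal.span (Set.range f)) * ∏ i, w i = ∏ i, d i := by
  obtain ⟨h1, h2⟩ := affBez_weighted (fun j => w ((Fintype.equivFin σ).symm j)) (fun j => hw _)
    (rsys f) (rsys g) (fun j => d ((Fintype.equivFin σ).symm j)) (fun j => hd _)
    (hg_ren hg) (h0_ren h0) (fun j β h => by
      unfold rsys at h
      rw [← map_sub] at h
      obtain ⟨α, hα, e⟩ := coeff_ren h w
      rw [e]
      exact (hfg _).hi α hα)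
  rw [Equiv.prod_comp (Fintype.equivFin σ).symm w, Equiv.prod_comp (Fintype.equivFin σ).symm d] at h2
  obtain ⟨e⟩ := finrank_map_surj (ren σ).toAlgHom (ren σ).surjective (Ideal.span (Set.range f))
    (fun x hx => by
      have : x = 0 := (ren σ).injective (by rw [map_zero]; exact hx)
      rw [this]; exact Ideal.zero_mem _)
  have e1 : (Ideal.span (Set.range f)).map (ren σ).toAlgHom = Ideal.span (Set.range (rsys f)) := map_rsys f
  rw [e1] at e
  exact ⟨Module.Finite.equiv e.symm.toLinearEquiv, by rw [e.toLinearEquiv.finrank_eq]; exact h2⟩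

end weighted

end

end EY
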