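import Pool.Agent.helper5.EY.Loc

set_option autoImplicit false

/-!
# EY-Pow: the local multiplicity as the dimension of `ℂ[x]/(I + m_p ^ N)`, `N` large
-/

namespace EY

open MvPolynomial

section Nak

variable {k L M : Type*} [Field k] [CommRing L] [Algebra k L] [IsLocalRing L]
    [AddCommGroup M] [Module k M] [Module L M] [IsScalarTower k L M]

def mV (k L M : Type*) [Field k] [CommRing L] [Algebra k L] [IsLocalRing L]
    [AddCommGroup M] [Module k M] [Module L M] [IsScalarTower k L M] (j : ℕ) : Submodule k M :=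
  (IsLocalRing.maximalIdeal L ^ j • (⊤ : Submodule L M)).restrictScalars k

theorem mV_mono (j : ℕ) : mV k L M (j+1) ≤ mV k L M j := by
  intro x hx
  exact Submodule.smul_mono_left (Ideal.pow_le_pow_right (Nat.le_succ j)) hx

theorem mV_lt [IsNoetherian L M] (j : ℕ) (hbot : mV k L M j ≠ ⊥) : mV k L M (j+1) ≠ mV k L M j := by
  intro heq
  apply hbot
  have heq' : IsLocalRing.maximalIdeal L ^ (j + 1) • (⊤ : Submodule L M) =
            IsLocalRing.maximalIdeal L ^ j • ⊤ :=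
          Submodule.restrictScalars_injective k L M heq
  have h2 : IsLocalRing.maximalIdeal L ^ j • (⊤ : Submodule L M) = ⊥ := by
    apply Submodule.eq_bot_of_le_smul_of_le_jacobson_bot (IsLocalRing.maximalIdeal L)
    · exact IsNoetherian.noetherian _
    · rw [← Submodule.mul_smul, ← pow_succ', heq']
    · exact IsLocalRing.maximalIdeal_le_jacobson _
  unfold mV
  rw [h2]
  rfl

theorem mV_finrank [Module.Finite k M] [IsNoetherian L M] (j : ℕ) :
    Module.finrank k (mV k L M j) ≤ Module.finrank k M - j := by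
  induction j with
  | zero => exact Submodule.finrank_le _
  | succ j ih =>
    by_cases hbot : mV k L M j = ⊥
    · have h1 : mV k L M (j + 1) = ⊥ := by
        rw [eq_bot_iff, ← hbot]
        exact mV_mono j
      rw [h1, finrank_bot]
      exact Nat.zero_le _
    · have hlt : mV k L M (j + 1) < mV k L M j := lt_of_le_of_ne (mV_mono j) (mV_lt j hbot)
      have h3 := Submodule.finrank_lt_finrank_of_lt hlt
      omega

theorem mV_bot [Module.Finite k M] [IsNoetherian L M] (j : ℕ) (hj : Module.finrank k M ≤ j) :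
    mV k L M j = ⊥ := by
  rw [← Submodule.finrank_eq_zero]
  have := mV_finrank (k := k) (L := L) (M := M) j
  omega

theorem smul_mem_mV (j : ℕ) (x : L) (hx : x ∈ IsLocalRing.maximalIdeal L ^ j) (y : M) :
    x • y ∈ mV k L M j := by
  have h : x • y ∈ (IsLocalRing.maximalIdeal L ^ j • (⊤ : Submodule L M)) :=
    Submodule.smul_mem_smul hx (Submodule.mem_top (x := y))
  exact h

theorem maximalIdeal_pow_le {k L : Type*} [Field k] [CommRing L] [Algebra k L] [IsLocalRing L]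
    (J : Ideal L) [Module.Finite k (L ⧸ J)] (N : ℕ) (hN : Module.finrank k (L ⧸ J) ≤ N) :
    IsLocalRing.maximalIdeal L ^ N ≤ J := by
  have hnL : IsNoetherian L (L ⧸ J) := isNoetherian_of_tower (R := k) (S := L) (M := L ⧸ J) inferInstance
  have h0 : mV k L (L ⧸ J) N = ⊥ := mV_bot N hN
  intro x hx
  have h1 : Ideal.Quotient.mk J x ∈ mV k L (L ⧸ J) N := by
    have h2 : x • (1 : L ⧸ J) = Ideal.Quotient.mk J x := by
      rw [Algebra.smul_def, mul_one]; rfl
    rw [← h2]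
    exact smul_mem_mV N x hx 1
  rw [h0, Submodule.mem_bot] at h1
  exact Ideal.Quotient.eq_zero_iff_mem.mp h1

end Nak

section

variable {σ : Type*}

instance pt_isMaximal (p : σ → ℂ) : (pt p).IsMaximal :=
  RingHom.ker_isMaximal_of_surjective _ (fun c => ⟨C c, by simp⟩)

/-- outside `m_p` everything is a unit modulo `I + m_p ^ N` -/
theorem isUnit_mk_pow (I : Ideal (MvPolynomial σ ℂ)) (p : σ → ℂ) (N : ℕ) (s : MvPolynomial σ ℂ)
    (hs : s ∉ pt p) : IsUnit (Ideal.Quotient.mk (I ⊔ pt p ^ N) s) := by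
  have h0 : pt p ⊔ Ideal.span {s} = ⊤ := by
    apply (pt_isMaximal p).out.2
    refine lt_of_le_of_ne le_sup_left fun h => hs ?_
    rw [h]
    exact Ideal.mem_sup_right (Ideal.subset_span rfl)
  have h1 : pt p ^ N ⊔ Ideal.span {s} = ⊤ := Ideal.pow_sup_eq_top h0
  have h2 : (1 : MvPolynomial σ ℂ) ∈ pt p ^ N ⊔ Ideal.span {s} := by rw [h1]; trivial
  obtain ⟨j, hj, t, ht, hjt⟩ := Submodule.mem_sup.mp h2
  obtain ⟨a, rfl⟩ := Ideal.mem_span_singleton'.mp ht
  refine IsUnit.of_mul_eq_one (Ideal.Quotient.mk _ a) ?_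
  rw [← map_mul, ← map_one (Ideal.Quotient.mk (I ⊔ pt p ^ N)), ← hjt, map_add,
    Ideal.Quotient.eq_zero_iff_mem.mpr (Ideal.mem_sup_right hj), zero_add, mul_comm]

theorem algEquiv_of_killed (I : Ideal (MvPolynomial σ ℂ)) (p : σ → ℂ) (N : ℕ)
    (h : ∀ x ∈ pt p ^ N, ∃ s, s ∉ pt p ∧ s * x ∈ I) :
    Nonempty ((MvPolynomial σ ℂ ⧸ (I ⊔ pt p ^ N)) ≃ₐ[ℂ]
      (Localization.AtPrime (pt p) ⧸
        I.map (algebraMap (MvPolynomial σ ℂ) (Localization.AtPrime (pt p))))) := by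
  apply exists_algEquiv
  · exact fun s hs => isUnit_mk_pow I p N s hs
  · exact le_sup_left
  · intro x hx
    obtain ⟨i, hi, y, hy, rfl⟩ := Submodule.mem_sup.mp hx
    obtain ⟨s, hs, hsy⟩ := h y hy
    refine ⟨s, hs, ?_⟩
    rw [mul_add]
    exact I.add_mem (I.mul_mem_left _ hi) hsy

theorem killed_of_pow_le [Finite σ] (I : Ideal (MvPolynomial σ ℂ)) (p : σ → ℂ) (M : ℕ)
    (h : pt p ^ M ≤ I ⊔ pt p ^ (M + 1)) :
    ∃ s, s ∉ pt p ∧ ∀ x ∈ pt p ^ M, s * x ∈ I := by
  set Q : Submodule (MvPolynomial σ ℂ) (MvPolynomial σ ℂ ⧸ I) :=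
    Submodule.map (Submodule.mkQ I) (pt p ^ M) with hQ
  have hfg : Q.FG := IsNoetherian.noetherian Q
  have hle : Q ≤ pt p • Q := by
    rw [hQ, ← Submodule.map_smul'', ← sup_bot_eq (Submodule.map (Submodule.mkQ I) (pt p • pt p ^ M))]
    have h1 : Submodule.map (Submodule.mkQ I) I = ⊥ := by
      rw [← LinearMap.le_ker_iff_map, Submodule.ker_mkQ]
    rw [← h1, ← Submodule.map_sup]
    apply Submodule.map_mono
    refine h.trans (sup_le le_sup_right ?_)
    rw [pow_succ, mul_comm]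
    exact le_sup_left
  obtain ⟨r, hr, hr'⟩ :=
    Submodule.exists_sub_one_mem_and_smul_eq_zero_of_fg_of_le_smul (pt p) Q hfg hle
  refine ⟨r, ?_, ?_⟩
  · intro hrp
    have h1 : (1 : MvPolynomial σ ℂ) ∈ pt p := by
      have := (pt p).sub_mem hrp hr
      simpa using this
    exact (Ideal.ne_top_iff_one _).mp (pt_isMaximal p).ne_top h1
  · intro x hx
    have h1 := hr' _ (Submodule.mem_map_of_mem hx)
    rw [← map_smul] at h1
    exact (Submodule.Quotient.mk_eq_zero I).mp h1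

/-- `ℂ[x]/(I + m_p^N)` is finite dimensional -/
theorem finite_quot_pow [Finite σ] (I : Ideal (MvPolynomial σ ℂ)) (p : σ → ℂ) (N : ℕ) :
    Module.Finite ℂ (MvPolynomial σ ℂ ⧸ (I ⊔ pt p ^ N)) := by
  have hX : ∀ i, IsIntegral ℂ (Ideal.Quotient.mk (I ⊔ pt p ^ N) (X i)) := by
    intro i
    refine ⟨(Polynomial.X - Polynomial.C (p i)) ^ N, (Polynomial.monic_X_sub_C _).pow N, ?_⟩
    have h1 : (X i - C (p i)) ^ N ∈ I ⊔ pt p ^ N :=
      Ideal.mem_sup_right (Ideal.pow_mem_pow (mem_pt.mpr (by simp)) N)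
    rw [Polynomial.eval₂_pow, Polynomial.eval₂_sub, Polynomial.eval₂_X, Polynomial.eval₂_C]
    rw [← Ideal.Quotient.eq_zero_iff_mem, map_pow, map_sub] at h1
    exact h1
  have hint : Algebra.IsIntegral ℂ (MvPolynomial σ ℂ ⧸ (I ⊔ pt p ^ N)) := by
    refine ⟨fun y => ?_⟩
    obtain ⟨f, rfl⟩ := Ideal.Quotient.mk_surjective y
    induction f using MvPolynomial.induction_on with
    | C a => exact isIntegral_algebraMap
    | add f g hf hg => rw [map_add]; exact hf.add hg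
    | mul_X f i hf => rw [map_mul]; exact hf.mul (hX i)
  exact Algebra.IsIntegral.finite

/-- (B) -/
theorem mulAt_eq_pow [Finite σ] (I : Ideal (MvPolynomial σ ℂ)) (p : σ → ℂ) (M : ℕ)
    (h : pt p ^ M ≤ I ⊔ pt p ^ (M + 1)) {N : ℕ} (hN : M ≤ N) :
    Module.Finite ℂ (Localization.AtPrime (pt p) ⧸
      I.map (algebraMap (MvPolynomial σ ℂ) (Localization.AtPrime (pt p)))) ∧
    mulAt I p = Module.finrank ℂ (MvPolynomial σ ℂ ⧸ (I ⊔ pt p ^ N)) := by
  obtain ⟨s, hs, hs'⟩ := killed_of_pow_le I p M h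
  obtain ⟨e⟩ := algEquiv_of_killed I p N fun x hx => ⟨s, hs, hs' x (Ideal.pow_le_pow_right hN hx)⟩
  have := finite_quot_pow I p N
  exact ⟨Module.Finite.equiv e.toLinearEquiv, e.toLinearEquiv.finrank_eq.symm⟩

/-- (B'): if the dimensions agree at two consecutive steps -/
theorem mulAt_eq_pow_of_stable [Finite σ] (I : Ideal (MvPolynomial σ ℂ)) (p : σ → ℂ) (M : ℕ)
    (h : Module.finrank ℂ (MvPolynomial σ ℂ ⧸ (I ⊔ pt p ^ M)) =
      Module.finrank ℂ (MvPolynomial σ ℂ ⧸ (I ⊔ pt p ^ (M + 1)))) {N : ℕ} (hN : M ≤ N) :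
    Module.Finite ℂ (Localization.AtPrime (pt p) ⧸
      I.map (algebraMap (MvPolynomial σ ℂ) (Localization.AtPrime (pt p)))) ∧
    mulAt I p = Module.finrank ℂ (MvPolynomial σ ℂ ⧸ (I ⊔ pt p ^ N)) := by
  refine mulAt_eq_pow I p M ?_ hN
  have hle : I ⊔ pt p ^ (M + 1) ≤ I ⊔ pt p ^ M :=
    sup_le_sup_left (Ideal.pow_le_pow_right (Nat.le_succ M)) I
  have := finite_quot_pow I p M
  have := finite_quot_pow I p (M + 1)
  let φ : (MvPolynomial σ ℂ ⧸ (I ⊔ pt p ^ (M + 1))) →ₐ[ℂ] (MvPolynomial σ ℂ ⧸ (I ⊔ pt p ^ M)) :=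
    Ideal.Quotient.factorₐ ℂ hle
  have hφ : Function.Surjective φ.toLinearMap := by
    intro y
    obtain ⟨f, rfl⟩ := Ideal.Quotient.mk_surjective y
    exact ⟨Ideal.Quotient.mk _ f, rfl⟩
  have hinj : Function.Injective φ.toLinearMap :=
    (LinearMap.injective_iff_surjective_of_finrank_eq_finrank h.symm).mpr hφ
  intro x hx
  rw [← Ideal.Quotient.eq_zero_iff_mem]
  apply hinj
  rw [map_zero]
  exact Ideal.Quotient.eq_zero_iff_mem.mpr (Ideal.mem_sup_right hx)

/-- (C): if the local ring is finite dimensional, `N ≥` its dimension is large enough -/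
theorem killed_of_finite (I : Ideal (MvPolynomial σ ℂ)) (p : σ → ℂ)
    (hfin : Module.Finite ℂ (Localization.AtPrime (pt p) ⧸
      I.map (algebraMap (MvPolynomial σ ℂ) (Localization.AtPrime (pt p))))) {N : ℕ}
    (hN : mulAt I p ≤ N) : ∀ x ∈ pt p ^ N, ∃ s, s ∉ pt p ∧ s * x ∈ I := by
  intro x hx
  have h1 := maximalIdeal_pow_le (k := ℂ)
    (I.map (algebraMap (MvPolynomial σ ℂ) (Localization.AtPrime (pt p)))) N hN
  have h2 : algebraMap (MvPolynomial σ ℂ) (Localization.AtPrime (pt p)) x ∈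
      I.map (algebraMap (MvPolynomial σ ℂ) (Localization.AtPrime (pt p))) := by
    apply h1
    have h3 := Ideal.mem_map_of_mem (algebraMap (MvPolynomial σ ℂ) (Localization.AtPrime (pt p))) hx
    rw [Ideal.map_pow, Localization.AtPrime.map_eq_maximalIdeal] at h3
    exact h3
  obtain ⟨s, hs, hsx⟩ := (IsLocalization.algebraMap_mem_map_algebraMap_iff (pt p).primeCompl
    (Localization.AtPrime (pt p)) I x).mp h2
  exact ⟨s, hs, hsx⟩

theorem mulAt_eq_pow_of_finite (I : Ideal (MvPolynomial σ ℂ)) (p : σ → ℂ)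
    (hfin : Module.Finite ℂ (Localization.AtPrime (pt p) ⧸
      I.map (algebraMap (MvPolynomial σ ℂ) (Localization.AtPrime (pt p))))) {N : ℕ}
    (hN : mulAt I p ≤ N) :
    mulAt I p = Module.finrank ℂ (MvPolynomial σ ℂ ⧸ (I ⊔ pt p ^ N)) := by
  obtain ⟨e⟩ := algEquiv_of_killed I p N (killed_of_finite I p hfin hN)
  exact e.toLinearEquiv.finrank_eq.symm

end

end EY
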