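import Pool.Agent.helper40.EY.Wt

set_option autoImplicit false

/-!
# EY-AffW: affine weighted Bezout
-/

namespace EY

open MvPolynomial Pool.Agent.helper62.BZ

noncomputable section

variable {n : ℕ}

/-- affine Bezout (weights 1) -/
theorem affBez (F G : Fin n → MvPolynomial (Fin n) ℂ) (d : Fin n → ℕ) (hd : ∀ i, 0 < d i)
    (hG : ∀ i, (G i).IsHomogeneous (d i))
    (h0 : ∀ x : Fin n → ℂ, (∀ i, eval x (G i) = 0) → x = 0)
    (hF : ∀ i, (F i - G i).totalDegree < d i) :
    Module.Finite ℂ (MvPolynomial (Fin n) ℂ ⧸ Ideal.span (Set.range F)) ∧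
      Module.finrank ℂ (MvPolynomial (Fin n) ℂ ⧸ Ideal.span (Set.range F)) = ∏ i, d i := by
  obtain ⟨ι, hι, e, de, he, hcard, H⟩ := exists_basis G d hd hG h0
  obtain ⟨b, -⟩ := H ℂ F (fun i => by
    have : map (algebraMap ℂ ℂ) (G i) = G i := by
      rw [Algebra.algebraMap_self]; exact map_id _
    rw [this]; exact hF i)
  refine ⟨Module.Finite.of_basis b, ?_⟩
  rw [Module.finrank_eq_card_basis b, hcard]

section weighted

variable (w : Fin n → ℕ) (hw : ∀ i, 0 < w i)
  (f g : Fin n → MvPolynomial (Fin n) ℂ) (d : Fin n → ℕ) (hd : ∀ i, 0 < d i)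
  (hg : ∀ i, ∀ α : Fin n →₀ ℕ, (g i).coeff α ≠ 0 → ∑ j, w j * α j = d i)
  (h0 : ∀ x : Fin n → ℂ, (∀ i, eval x (g i) = 0) → x = 0)
  (hfg : ∀ i, ∀ α : Fin n →₀ ℕ, (f i - g i).coeff α ≠ 0 → ∑ j, w j * α j < d i)

include hd hfg in
lemma pw_td (i : Fin n) : (pw w (f i) - pw w (g i)).totalDegree < d i := by
  rw [← map_sub]
  have h1 : f i - g i = ∑ β ∈ (f i - g i).support, monomial β ((f i - g i).coeff β) :=
    (f i - g i).as_sum
  rw [h1, map_sum]
  refine lt_of_le_of_lt (totalDegree_finsetSum _ _) ?_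
  rw [Finset.sup_lt_iff (by simpa using hd i)]
  intro β hβ
  rw [pw_monomial]
  refine lt_of_le_of_lt (totalDegree_monomial_le _ _) ?_
  have h2 : (sc w β).degree = ∑ j, w j * β j := degree_sc w β
  have h3 := hfg i β (mem_support_iff.mp hβ)
  rw [← h2] at h3
  exact h3

include hw hd hg h0 hfg in
/-- (BW) **affine weighted Bezout** -/
theorem affBez_weighted :
    Module.Finite ℂ (MvPolynomial (Fin n) ℂ ⧸ Ideal.span (Set.range f)) ∧
      Module.finrank ℂ (MvPolynomial (Fin n) ℂ ⧸ Ideal.span (Set.range f)) * ∏ i, w i = ∏ i, d i := by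
  set F : Fin n → MvPolynomial (Fin n) ℂ := fun i => pw w (f i) with hF
  set G : Fin n → MvPolynomial (Fin n) ℂ := fun i => pw w (g i) with hG
  have hGh : ∀ i, (G i).IsHomogeneous (d i) := pw_hom w g d hg
  have hG0 : ∀ x : Fin n → ℂ, (∀ i, eval x (G i) = 0) → x = 0 := fun x hx => pw_zero w hw g h0 x hx
  obtain ⟨hfin, hmul⟩ := affBez F G d hd hGh hG0 (pw_td w f g d hd hfg)
  have hmap : (Ideal.span (Set.range f)).map (pw w) = Ideal.span (Set.range F) := by
    rw [Ideal.map_span, ← Set.range_comp]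
    rfl
  have hfin2 : Module.Finite ℂ (MvPolynomial (Fin n) ℂ ⧸ Ideal.span (Set.range f)) := by
    -- the map `S/(f) → S/(F)` is injective
    set I := Ideal.span (Set.range f) with hI
    let φ : (MvPolynomial (Fin n) ℂ ⧸ I) →ₐ[ℂ] (MvPolynomial (Fin n) ℂ ⧸ Ideal.span (Set.range F)) :=
      Ideal.Quotient.liftₐ I ((Ideal.Quotient.mkₐ ℂ (Ideal.span (Set.range F))).comp (pw w))
        (fun a ha => by
          change Ideal.Quotient.mk (Ideal.span (Set.range F)) (pw w a) = 0
          rw [Ideal.Quotient.eq_zero_iff_mem, ← hmap]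
          exact Ideal.mem_map_of_mem _ ha)
    have hφ : ∀ a, φ (Ideal.Quotient.mk I a) = Ideal.Quotient.mk _ (pw w a) := fun a => rfl
    have hinj : Function.Injective φ := by
      rw [injective_iff_map_eq_zero]
      intro y hy
      obtain ⟨a, rfl⟩ := Ideal.Quotient.mk_surjective y
      rw [hφ, Ideal.Quotient.eq_zero_iff_mem, ← hmap] at hy
      rw [Ideal.Quotient.eq_zero_iff_mem]
      let e0 : Er w := fun i => ⟨0, hw i⟩
      have h1 := (mem_map_pw w hw _ _).mp hy e0
      have h3 := chi_pw_mul w hw e0 a (ye w e0)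
      have h4 : ye w e0 = 1 := by
        unfold ye
        have : (Finsupp.equivFunOnFinite.symm fun i => ((e0 i : Fin (w i)) : ℕ)) = 0 := by
          ext i; rfl
        rw [this]; rfl
      rw [chi_ye, if_pos rfl, mul_one, h4, mul_one] at h3
      rwa [h3] at h1
    exact Module.Finite.of_injective φ.toLinearMap hinj
  refine ⟨hfin2, ?_⟩
  have h3 := finrank_map_pw w hw (Ideal.span (Set.range f)) hfin2
  rw [hmap] at h3
  rw [← hmul, h3, mul_comm]

end weighted

end

end EY
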