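import Pool.Agent.helper62.BZ.Main
import Pool.Agent.helper40.EY.Pow

set_option autoImplicit false

/-!
# EY-LocBez: local Bezout at the origin

`G i` polynomials with lowest forms `g i` (of degree `d i > 0`), the `g i` without a common zero
besides `0`; then the local ring at `0` of `(G)` has length `∏ d i`.
-/

namespace EY

open MvPolynomial Pool.Agent.helper62.BZ

noncomputable section

variable {n : ℕ}

/-- order at least `s` -/
def lo (s : ℕ) (f : MvPolynomial (Fin n) ℂ) : Prop := ∀ x, x.degree < s → f.coeff x = 0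

lemma lo_iff {s : ℕ} {f : MvPolynomial (Fin n) ℂ} : lo s f ↔ f ∈ idealOfVars (Fin n) ℂ ^ s :=
  (mem_pow_idealOfVars_iff' s f).symm

lemma lo_mono {s t : ℕ} (h : t ≤ s) {f : MvPolynomial (Fin n) ℂ} (hf : lo s f) : lo t f :=
  fun x hx => hf x (hx.trans_le h)

lemma lo_zero (s : ℕ) : lo s (0 : MvPolynomial (Fin n) ℂ) := fun x _ => by simp

lemma lo_add {s : ℕ} {f g : MvPolynomial (Fin n) ℂ} (hf : lo s f) (hg : lo s g) : lo s (f + g) :=
  fun x hx => by rw [coeff_add, hf x hx, hg x hx, add_zero]

lemma lo_sub {s : ℕ} {f g : MvPolynomial (Fin n) ℂ} (hf : lo s f) (hg : lo s g) : lo s (f - g) :=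
  fun x hx => by rw [coeff_sub, hf x hx, hg x hx, sub_zero]

lemma lo_sum {s : ℕ} {ι : Type*} (T : Finset ι) {f : ι → MvPolynomial (Fin n) ℂ}
    (hf : ∀ i ∈ T, lo s (f i)) : lo s (∑ i ∈ T, f i) := by
  intro x hx
  rw [coeff_sum]
  exact Finset.sum_eq_zero fun i hi => hf i hi x hx

lemma lo_mul {s t : ℕ} {f g : MvPolynomial (Fin n) ℂ} (hf : lo s f) (hg : lo t g) :
    lo (s + t) (f * g) := by
  rw [lo_iff] at *
  rw [pow_add]
  exact Ideal.mul_mem_mul hf hg

lemma lo_of_hom {s k : ℕ} (h : s ≤ k) {f : MvPolynomial (Fin n) ℂ} (hf : f.IsHomogeneous k) :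
    lo s f := by
  intro x hx
  apply hf.coeff_eq_zero
  intro h'
  rw [h'] at hx
  omega

lemma comp_eq_zero_of_lo {s j : ℕ} (h : j < s) {f : MvPolynomial (Fin n) ℂ} (hf : lo s f) :
    homogeneousComponent j f = 0 := by
  ext x
  rw [coeff_homogeneousComponent]
  split_ifs with h1
  · rw [hf x (by omega), coeff_zero]
  · simp

lemma lo_sub_comp {s : ℕ} {f : MvPolynomial (Fin n) ℂ} (hf : lo s f) :
    lo (s + 1) (f - homogeneousComponent s f) := by
  intro x hx
  rw [coeff_sub, coeff_homogeneousComponent]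
  split_ifs with h1
  · ring
  · rw [hf x (by omega), sub_zero]

/-- the lowest form of a product -/
lemma comp_mul_lo {s t : ℕ} {f g h : MvPolynomial (Fin n) ℂ} (hf : lo s f) (hh : h.IsHomogeneous t)
    (hg : lo (t + 1) (g - h)) :
    homogeneousComponent (s + t) (f * g) = homogeneousComponent s f * h := by
  have e : f * g = homogeneousComponent s f * h +
      ((f - homogeneousComponent s f) * h + f * (g - h)) := by ring
  have h1 : lo (s + t + 1) ((f - homogeneousComponent s f) * h + f * (g - h)) := by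
    apply lo_add
    · have := lo_mul (lo_sub_comp hf) (lo_of_hom le_rfl hh)
      rwa [add_right_comm] at this
    · have := lo_mul hf hg
      rwa [← add_assoc] at this
  have h2 : (homogeneousComponent s f * h) ∈ homogeneousSubmodule (Fin n) ℂ (s + t) :=
    (homogeneousComponent_isHomogeneous s f).mul hh
  rw [e, map_add, comp_eq_zero_of_lo (Nat.lt_succ_self _) h1, add_zero,
    homogeneousComponent_of_mem h2, if_pos rfl]

section main

variable (g G : Fin n → MvPolynomial (Fin n) ℂ) (d : Fin n → ℕ) (hd : ∀ i, 0 < d i)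
  (hg : ∀ i, (g i).IsHomogeneous (d i))
  (h0 : ∀ x : Fin n → ℂ, (∀ i, eval x (g i) = 0) → x = 0)
  (hG : ∀ i, lo (d i + 1) (G i - g i))

include hg hG in
lemma lo_G (i : Fin n) : lo (d i) (G i) := by
  have e : G i = g i + (G i - g i) := by ring
  rw [e]
  exact lo_add (lo_of_hom le_rfl (hg i)) (lo_mono (Nat.le_succ _) (hG i))

include hg in
/-- a form of degree `k` in `(g)` is `∑ b i g i` with `b i` forms of degree `k - d i` -/
lemma form_mem {k : ℕ} {f : MvPolynomial (Fin n) ℂ} (hf : f.IsHomogeneous k)
    (hfI : f ∈ Ideal.span (Set.range g)) :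
    ∃ b : Fin n → MvPolynomial (Fin n) ℂ, (∀ i, lo (k - d i) (b i)) ∧
      (∀ i, k < d i → b i = 0) ∧ f = ∑ i, b i * g i := by
  obtain ⟨c, hc⟩ := Ideal.mem_span_range_iff_exists_fun.mp hfI
  refine ⟨fun i => if d i ≤ k then homogeneousComponent (k - d i) (c i) else 0, fun i => ?_,
    fun i hi => if_neg (by omega), ?_⟩
  · by_cases h : d i ≤ k
    · simp only [h, if_true]
      exact lo_of_hom le_rfl (homogeneousComponent_isHomogeneous _ _)
    · simp only [h, if_false]
      exact lo_zero _
  · have h1 := congrArg (homogeneousComponent k) hc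
    rw [homogeneousComponent_of_mem hf, if_pos rfl, map_sum] at h1
    rw [← h1]
    apply Finset.sum_congr rfl
    intro i _
    dsimp only
    by_cases h : d i ≤ k
    · rw [if_pos h]
      obtain ⟨r, rfl⟩ := Nat.exists_eq_add_of_le h
      rw [Nat.add_sub_cancel_left, add_comm (d i) r, comp_mul (hg i)]
    · rw [if_neg h, zero_mul, comp_mul_lt (hg i) _ (by omega)]

include hg hG in
lemma form_mem_G {k : ℕ} {f : MvPolynomial (Fin n) ℂ} (hf : f.IsHomogeneous k)
    (hfI : f ∈ Ideal.span (Set.range g)) :
    f ∈ Ideal.span (Set.range G) ⊔ idealOfVars (Fin n) ℂ ^ (k + 1) := by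
  obtain ⟨b, hb, hb0, hfb⟩ := form_mem g d hg hf hfI
  have e : f = ∑ i, b i * G i + (- ∑ i, b i * (G i - g i)) := by
    rw [hfb, ← sub_eq_add_neg, ← Finset.sum_sub_distrib]
    apply Finset.sum_congr rfl
    intro i _
    ring
  rw [e]
  apply add_mem
  · exact Ideal.mem_sup_left (Ideal.mem_span_range_iff_exists_fun.mpr ⟨b, rfl⟩)
  · apply Ideal.mem_sup_right
    apply neg_mem
    rw [← lo_iff]
    apply lo_sum
    intro i _
    by_cases h : k < d i
    · rw [hb0 i h, zero_mul]; exact lo_zero _
    · have := lo_mul (hb i) (hG i)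
      have e2 : k - d i + (d i + 1) = k + 1 := by omega
      rwa [e2] at this

include hd hg h0 hG in
/-- the descent: representation of `f` with coefficients of order `≥ s - d i` -/
lemma descent {k : ℕ} {f : MvPolynomial (Fin n) ℂ} (hf : f.IsHomogeneous k)
    (hfG : f ∈ Ideal.span (Set.range G) ⊔ idealOfVars (Fin n) ℂ ^ (k + 1)) (s : ℕ) (hs : s ≤ k) :
    ∃ a : Fin n → MvPolynomial (Fin n) ℂ, (∀ i, lo (s - d i) (a i)) ∧
      lo (k + 1) (f - ∑ i, a i * G i) := by
  classical
  induction s with
  | zero =>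
    obtain ⟨y, hy, z, hz, hyz⟩ := Submodule.mem_sup.mp hfG
    obtain ⟨a, ha⟩ := Ideal.mem_span_range_iff_exists_fun.mp hy
    refine ⟨a, fun i x hx => by omega, ?_⟩
    rw [ha, ← hyz, add_sub_cancel_left, lo_iff]
    exact hz
  | succ s ih =>
    obtain ⟨a, ha, hfa⟩ := ih (by omega)
    set A : Fin n → MvPolynomial (Fin n) ℂ :=
      fun i => if d i ≤ s then homogeneousComponent (s - d i) (a i) else 0 with hA
    have hcomp : ∀ i, homogeneousComponent s (a i * G i) = A i * g i := by
      intro i
      simp only [hA]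
      by_cases h : d i ≤ s
      · rw [if_pos h]
        have h2 := comp_mul_lo (ha i) (hg i) (hG i)
        rwa [Nat.sub_add_cancel h] at h2
      · rw [if_neg h, zero_mul]
        apply comp_eq_zero_of_lo (s := d i) (by omega)
        have := lo_mul (ha i) (lo_G g G d hg hG i)
        exact lo_mono (by omega) this
    have hsum : ∑ i, A i * g i = 0 := by
      have h1 : homogeneousComponent s (f - ∑ i, a i * G i) = 0 :=
        comp_eq_zero_of_lo (by omega) hfa
      rw [map_sub, homogeneousComponent_of_mem hf, if_neg (by omega), zero_sub, neg_eq_zero,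
        map_sum] at h1
      rw [← h1]
      exact Finset.sum_congr rfl fun i _ => (hcomp i).symm
    obtain ⟨c, hc1, hc2⟩ := koszul g d hd hg h0 A hsum
    set c' : Fin n → Fin n → MvPolynomial (Fin n) ℂ :=
      fun i j => if d i + d j ≤ s then homogeneousComponent (s - (d i + d j)) (c i j) else 0 with hc'
    have hanti : ∀ i j, c' i j = - c' j i := by
      intro i j
      simp only [hc']
      rw [add_comm (d j) (d i)]
      by_cases h : d i + d j ≤ s
      · rw [if_pos h, if_pos h, hc1 i j, map_neg]
      · rw [if_neg h, if_neg h, neg_zero]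
    have hA' : ∀ i, A i = ∑ j, c' i j * g j := by
      intro i
      by_cases h : d i ≤ s
      · have h1 : A i = homogeneousComponent (s - d i) (A i) := by
          have h2 : A i ∈ homogeneousSubmodule (Fin n) ℂ (s - d i) := by
            simp only [hA]
            rw [if_pos h]
            exact homogeneousComponent_isHomogeneous _ _
          rw [homogeneousComponent_of_mem h2, if_pos rfl]
        rw [h1, hc2 i, map_sum]
        apply Finset.sum_congr rfl
        intro j _
        simp only [hc']
        by_cases h2 : d i + d j ≤ s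
        · rw [if_pos h2]
          have e : s - d i = (s - (d i + d j)) + d j := by omega
          rw [e, comp_mul (hg j)]
        · rw [if_neg h2, zero_mul, comp_mul_lt (hg j) _ (by omega)]
      · have h1 : A i = 0 := by simp only [hA]; rw [if_neg h]
        rw [h1]
        symm
        apply Finset.sum_eq_zero
        intro j _
        simp only [hc']
        rw [if_neg (by omega), zero_mul]
    have hc'lo : ∀ i j, c' i j = 0 ∨ (d i + d j ≤ s ∧ (c' i j).IsHomogeneous (s - (d i + d j))) := by
      intro i j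
      simp only [hc']
      by_cases h : d i + d j ≤ s
      · rw [if_pos h]; exact Or.inr ⟨h, homogeneousComponent_isHomogeneous _ _⟩
      · rw [if_neg h]; exact Or.inl rfl
    refine ⟨fun i => a i - ∑ j, c' i j * G j, fun i => ?_, ?_⟩
    · by_cases h : d i ≤ s
      · have e : s + 1 - d i = (s - d i) + 1 := by omega
        rw [e]
        -- order at least s - d i
        have h1 : ∀ j, lo (s - d i) (c' i j * G j) := by
          intro j
          rcases hc'lo i j with h2 | ⟨h2, h3⟩
          · rw [h2, zero_mul]; exact lo_zero _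
          · have := lo_mul (lo_of_hom le_rfl h3) (lo_G g G d hg hG j)
            exact lo_mono (by omega) this
        have h2 : lo (s - d i) (a i - ∑ j, c' i j * G j) :=
          lo_sub (ha i) (lo_sum _ fun j _ => h1 j)
        have h3 : homogeneousComponent (s - d i) (a i - ∑ j, c' i j * G j) = 0 := by
          rw [map_sub, map_sum, sub_eq_zero]
          have h4 : homogeneousComponent (s - d i) (a i) = A i := by
            simp only [hA]; rw [if_pos h]
          rw [h4, hA' i]
          apply Finset.sum_congr rfl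
          intro j _
          rcases hc'lo i j with h5 | ⟨h5, h6⟩
          · rw [h5, zero_mul, zero_mul, map_zero]
          · have h7 := comp_mul_lo (lo_of_hom le_rfl h6) (hg j) (hG j)
            have e2 : s - (d i + d j) + d j = s - d i := by omega
            rw [e2, homogeneousComponent_of_mem h6, if_pos rfl] at h7
            exact h7.symm
        have h4 := lo_sub_comp h2
        rwa [h3, sub_zero] at h4
      · have e : s + 1 - d i = 0 := by omega
        rw [e]
        intro x hx
        omega
    · have e : ∑ i, (a i - ∑ j, c' i j * G j) * G i = ∑ i, a i * G i := by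
        have h1 : ∑ i, (∑ j, c' i j * G j) * G i = 0 := by
          have h2 : ∑ i, (∑ j, c' i j * G j) * G i = ∑ i, ∑ j, c' i j * G j * G i := by
            apply Finset.sum_congr rfl
            intro i _
            rw [Finset.sum_mul]
          have h3 : ∑ i, ∑ j, c' i j * G j * G i = - ∑ i, ∑ j, c' i j * G j * G i := by
            conv_lhs => rw [Finset.sum_comm]
            rw [← Finset.sum_neg_distrib]
            apply Finset.sum_congr rfl
            intro i _
            rw [← Finset.sum_neg_distrib]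
            apply Finset.sum_congr rfl
            intro j _
            rw [hanti j i]
            ring
          rw [h2]
          exact self_eq_neg.mp h3
        rw [← sub_zero (∑ i, a i * G i), ← h1, ← Finset.sum_sub_distrib]
        apply Finset.sum_congr rfl
        intro i _
        ring
      rw [e]
      exact hfa

include hd hg h0 hG in
/-- the key: the initial ideal of `(G)` is `(g)` -/
lemma form_mem_iff {k : ℕ} {f : MvPolynomial (Fin n) ℂ} (hf : f.IsHomogeneous k) :
    f ∈ Ideal.span (Set.range G) ⊔ idealOfVars (Fin n) ℂ ^ (k + 1) ↔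
      f ∈ Ideal.span (Set.range g) := by
  constructor
  · intro h
    obtain ⟨a, ha, hfa⟩ := descent g G d hd hg h0 hG hf h k le_rfl
    have h1 : homogeneousComponent k (f - ∑ i, a i * G i) = 0 :=
      comp_eq_zero_of_lo (Nat.lt_succ_self _) hfa
    rw [map_sub, homogeneousComponent_of_mem hf, if_pos rfl, sub_eq_zero, map_sum] at h1
    rw [h1]
    apply Ideal.sum_mem
    intro i _
    by_cases h : d i ≤ k
    · have h2 := comp_mul_lo (ha i) (hg i) (hG i)
      rw [Nat.sub_add_cancel h] at h2
      rw [h2]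
      exact Ideal.mul_mem_left _ _ (Ideal.subset_span ⟨i, rfl⟩)
    · rw [comp_eq_zero_of_lo (s := d i) (by omega)
        (lo_mono (by omega) (lo_mul (ha i) (lo_G g G d hg hG i)))]
      exact zero_mem _
  · exact form_mem_G g G d hg hG hf

lemma idealOfVars_eq_pt : idealOfVars (Fin n) ℂ = pt (0 : Fin n → ℂ) := by
  ext f
  have h1 : f ∈ idealOfVars (Fin n) ℂ ↔ lo 1 f := by rw [lo_iff, pow_one]
  rw [h1, mem_pt]
  have h2 : eval (0 : Fin n → ℂ) f = f.coeff 0 := by
    rw [← constantCoeff_eq, ← eval_zero]
  rw [h2]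
  constructor
  · intro h
    exact h 0 (by simp)
  · intro h x hx
    have : x = 0 := by
      rw [← Finsupp.degree_eq_zero_iff]
      omega
    rw [this, h]

/-- the forms of degree `k` modulo `I_G + m^(k+1)` -/
def thk (k : ℕ) : homogeneousSubmodule (Fin n) ℂ k →ₗ[ℂ]
    (MvPolynomial (Fin n) ℂ ⧸ (Ideal.span (Set.range G) ⊔ pt (0 : Fin n → ℂ) ^ (k + 1))) :=
  (Ideal.Quotient.mkₐ ℂ (Ideal.span (Set.range G) ⊔ pt (0 : Fin n → ℂ) ^ (k + 1))).toLinearMap.comp
    (homogeneousSubmodule (Fin n) ℂ k).subtype

lemma thk_apply (k : ℕ) (f : homogeneousSubmodule (Fin n) ℂ k) :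
    thk G k f = Ideal.Quotient.mk (Ideal.span (Set.range G) ⊔ pt (0 : Fin n → ℂ) ^ (k + 1))
      (f : MvPolynomial (Fin n) ℂ) := rfl

include hd hg h0 hG in
lemma ker_thk (k : ℕ) : LinearMap.ker (thk G k) = Ij (Ideal.span (Set.range g)) k := by
  ext f
  rw [LinearMap.mem_ker, thk_apply, Ideal.Quotient.eq_zero_iff_mem, mem_Ij, ← idealOfVars_eq_pt]
  exact form_mem_iff g G d hd hg h0 hG f.2

/-- the projection -/
def pik (k : ℕ) : (MvPolynomial (Fin n) ℂ ⧸ (Ideal.span (Set.range G) ⊔ pt (0 : Fin n → ℂ) ^ (k + 1)))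
    →ₗ[ℂ] (MvPolynomial (Fin n) ℂ ⧸ (Ideal.span (Set.range G) ⊔ pt (0 : Fin n → ℂ) ^ k)) :=
  (Ideal.Quotient.factorₐ ℂ (sup_le_sup_left (Ideal.pow_le_pow_right (Nat.le_succ k))
    (Ideal.span (Set.range G)))).toLinearMap

lemma pik_mk (k : ℕ) (f : MvPolynomial (Fin n) ℂ) :
    pik G k (Ideal.Quotient.mk _ f) = Ideal.Quotient.mk _ f := rfl

lemma range_thk (k : ℕ) : LinearMap.range (thk G k) = LinearMap.ker (pik G k) := by
  apply le_antisymm
  · rintro _ ⟨f, rfl⟩
    rw [LinearMap.mem_ker, thk_apply, pik_mk, Ideal.Quotient.eq_zero_iff_mem]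
    apply Ideal.mem_sup_right
    rw [← idealOfVars_eq_pt, ← lo_iff]
    exact lo_of_hom le_rfl f.2
  · intro y hy
    obtain ⟨f, rfl⟩ := Ideal.Quotient.mk_surjective y
    rw [LinearMap.mem_ker, pik_mk, Ideal.Quotient.eq_zero_iff_mem] at hy
    obtain ⟨a, ha, r, hr, har⟩ := Submodule.mem_sup.mp hy
    rw [← idealOfVars_eq_pt, ← lo_iff] at hr
    refine ⟨⟨homogeneousComponent k r, homogeneousComponent_isHomogeneous k r⟩, ?_⟩
    rw [thk_apply, Ideal.Quotient.eq, ← har]
    have e : homogeneousComponent k r - (a + r) = -a + (-(r - homogeneousComponent k r)) := by ring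
    change homogeneousComponent k r - (a + r) ∈ _
    rw [e]
    apply add_mem
    · exact Ideal.mem_sup_left (neg_mem ha)
    · apply Ideal.mem_sup_right
      apply neg_mem
      rw [← idealOfVars_eq_pt, ← lo_iff]
      exact lo_sub_comp hr

include hd hg h0 hG in
lemma finrank_step (k : ℕ) :
    Module.finrank ℂ (MvPolynomial (Fin n) ℂ ⧸ (Ideal.span (Set.range G) ⊔ pt (0 : Fin n → ℂ) ^ (k + 1))) =
    Module.finrank ℂ (MvPolynomial (Fin n) ℂ ⧸ (Ideal.span (Set.range G) ⊔ pt (0 : Fin n → ℂ) ^ k)) +
      hf (Ideal.span (Set.range g)) k := by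
  have := finite_quot_pow (Ideal.span (Set.range G)) (0 : Fin n → ℂ) (k + 1)
  have := finite_quot_pow (Ideal.span (Set.range G)) (0 : Fin n → ℂ) k
  have hs : Function.Surjective (pik G k) := by
    intro y
    obtain ⟨f, rfl⟩ := Ideal.Quotient.mk_surjective y
    exact ⟨Ideal.Quotient.mk _ f, rfl⟩
  have h1 := LinearMap.finrank_range_add_finrank_ker (pik G k)
  rw [LinearMap.range_eq_top.mpr hs, finrank_top, ← range_thk G k] at h1
  have h2 : Module.finrank ℂ (LinearMap.range (thk G k)) = hf (Ideal.span (Set.range g)) k := by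
    have h3 := (LinearMap.quotKerEquivRange (thk G k)).finrank_eq
    rw [ker_thk g G d hd hg h0 hG k] at h3
    exact h3.symm
  rw [← h1, h2]

include hd hg h0 hG in
lemma finrank_trunc (k : ℕ) :
    Module.finrank ℂ (MvPolynomial (Fin n) ℂ ⧸ (Ideal.span (Set.range G) ⊔ pt (0 : Fin n → ℂ) ^ k)) =
      ∑ j ∈ Finset.range k, hf (Ideal.span (Set.range g)) j := by
  induction k with
  | zero =>
    rw [Finset.sum_range_zero]
    have h1 : Ideal.span (Set.range G) ⊔ pt (0 : Fin n → ℂ) ^ 0 = ⊤ := by
      rw [pow_zero, Ideal.one_eq_top, sup_top_eq]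
    rw [h1]
    exact Module.finrank_zero_of_subsingleton
  | succ k ih =>
    rw [finrank_step g G d hd hg h0 hG k, ih, Finset.sum_range_succ]

include hd hg h0 hG in
/-- **local Bezout at the origin** -/
theorem locBez : Module.Finite ℂ (Localization.AtPrime (pt (0 : Fin n → ℂ)) ⧸
      (Ideal.span (Set.range G)).map
        (algebraMap (MvPolynomial (Fin n) ℂ) (Localization.AtPrime (pt (0 : Fin n → ℂ))))) ∧
    mulAt (Ideal.span (Set.range G)) 0 = ∏ i, d i := by
  have hI : HomI (Ideal.span (Set.range g)) := homI_range g d hg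
  obtain ⟨N, hN⟩ := forms_mem (I := Ideal.span (Set.range g)) (by
    intro x hx
    exact h0 x fun i => hx (g i) (Ideal.subset_span ⟨i, rfl⟩))
  have hle : pt (0 : Fin n → ℂ) ^ N ≤ Ideal.span (Set.range G) ⊔ pt (0 : Fin n → ℂ) ^ (N + 1) := by
    intro f hf
    rw [← idealOfVars_eq_pt, ← lo_iff] at hf
    have e : f = homogeneousComponent N f + (f - homogeneousComponent N f) := by ring
    rw [e]
    apply add_mem
    · rw [← idealOfVars_eq_pt]
      exact form_mem_G g G d hg hG (homogeneousComponent_isHomogeneous N f)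
        (hN N le_rfl _ (homogeneousComponent_isHomogeneous N f))
    · apply Ideal.mem_sup_right
      rw [← idealOfVars_eq_pt, ← lo_iff]
      exact lo_sub_comp hf
  obtain ⟨h1, h2⟩ := mulAt_eq_pow (Ideal.span (Set.range G)) 0 N hle le_rfl
  refine ⟨h1, ?_⟩
  rw [h2, finrank_trunc g G d hd hg h0 hG N, ← finrank_quot hI hN]
  exact (ci n g d hd hg h0).2

end main

end

end EY
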