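import Pool.Agent.helper40.EY.TC

set_option autoImplicit false
set_option linter.unusedSectionVars false

/-!
# EY-SB: the multiplicity of the step `S(n,E)`, `3 ≤ E ≤ q + 1`
-/

namespace EY

open MvPolynomial

noncomputable section

variable {τ : Type} [Fintype τ] [DecidableEq τ]

/-! ### the class C part in weighted coordinates `(T,y,x)` -/

/-- the weights of `φ` multiplied by `r` -/
lemma wh_vw_mul {m r : ℕ} {ψ : MvPolynomial (Option (Option τ)) ℂ} (h : wh (vw τ) m ψ) :
    wh (fun i => r * vw τ i) (r * m) ψ := by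
  intro α hα
  rw [← h α hα]
  unfold wd
  rw [Finset.mul_sum]
  apply Finset.sum_congr rfl
  intro j _
  ring

/-- `x ↦ x`, `T, w ↦ 0` -/
def cx : MvPolynomial (Option (Option τ)) ℂ →ₐ[ℂ] MvPolynomial (Option (Option τ)) ℂ :=
  aeval fun o => o.elim 0 fun o => o.elim 0 fun k => X (some (some k))

omit [Fintype τ] [DecidableEq τ] in
lemma eval_cx (x : Option (Option τ) → ℂ) (ψ : MvPolynomial (Option (Option τ)) ℂ) :
    eval x (cx ψ) = eval (fun o => o.elim 0 fun o => o.elim 0 fun k => x (some (some k))) ψ := by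
  have hX : ∀ i, eval x (cx (X i)) = Option.elim i (0 : ℂ) fun o => o.elim 0 fun k => x (some (some k)) := by
    intro i
    unfold cx
    rw [aeval_X]
    rcases i with _ | _ | k <;> simp
  induction ψ using MvPolynomial.induction_on with
  | C a => unfold cx; rw [aeval_C, MvPolynomial.algebraMap_eq, eval_C, eval_C]
  | add p q hp hq => rw [map_add, map_add, map_add, hp, hq]
  | mul_X p i hp => rw [map_mul, map_mul, map_mul, hp, eval_X, hX]

variable {w : Option (Option τ) → ℕ} {r m : ℕ}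

/-- order of `w = T - (y² + |x|²)/2` -/
lemma wlo_wq {s : ℕ} (hT : s ≤ w none) (hy : s ≤ 2 * w (some none)) (hx : ∀ k : τ, s ≤ 2 * w (some (some k))) :
    wlo w s (wq (Option τ)) := by
  unfold wq
  apply wlo_sub (wlo_mono hT (wh_X w none).wlo)
  apply wlo_C_mul
  apply wlo_sum
  intro k _
  rcases k with _ | k
  · refine wlo_mono ?_ (wlo_pow (wh_X w (some none)).wlo 2)
    rw [mul_comm]; exact hy
  · refine wlo_mono ?_ (wlo_pow (wh_X w (some (some k))).wlo 2)
    rw [mul_comm]; exact hx k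

/-- order of `ψ(T; w, x)`, all variables `x` of weight `r` -/
lemma wlo_sev (hT : 2 * r ≤ w none) (hy : r ≤ 2 * w (some none)) (hx : ∀ k : τ, w (some (some k)) = r)
    {ψ : MvPolynomial (Option (Option τ)) ℂ} (h : wh (vw τ) m ψ) : wlo w (r * m) (sev ψ) := by
  unfold sev
  apply wlo_aeval _ (wh_vw_mul h).wlo
  intro i
  rcases i with _ | _ | k
  · exact wlo_mono (by unfold vw; simp; omega) (wh_X w none).wlo
  · refine wlo_mono (le_of_eq (b := r) ?_) (wlo_wq (s := r) (by omega) hy (fun k => by rw [hx]; omega))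
    unfold vw; simp
  · refine wlo_mono (le_of_eq ?_) (wh_X w (some (some k))).wlo
    rw [hx]; unfold vw; simp

/-- the initial form of `ψ(T; w, x)` is `ψ(0; 0, x)` -/
lemma Lead_sev (hr : 0 < r) (hT : 2 * r < w none) (hy : r < 2 * w (some none))
    (hx : ∀ k : τ, w (some (some k)) = r)
    {ψ : MvPolynomial (Option (Option τ)) ℂ} (h : wh (vw τ) m ψ) : Lead w (r * m) (sev ψ) (cx ψ) := by
  unfold sev cx
  refine Lead.aeval (v := fun i => r * vw τ i) ?_ (Lead.self (wh_vw_mul h).wlo)
  intro i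
  rcases i with _ | _ | k
  · refine Lead.of_lt (wh_X w none).wlo ?_
    unfold vw; simp; omega
  · refine Lead.of_lt (s' := r + 1) (wlo_wq (by omega) hy (fun k => by rw [hx]; omega)) ?_
    unfold vw; simp
  · refine (Lead.X w (some (some k))).cast ?_
    rw [hx]; unfold vw; simp

lemma wh_cx (hx : ∀ k : τ, w (some (some k)) = r)
    {ψ : MvPolynomial (Option (Option τ)) ℂ} (h : wh (vw τ) m ψ) : wh w (r * m) (cx ψ) := by
  unfold cx
  refine wh_aeval (v := fun i => r * vw τ i) ?_ (wh_vw_mul h)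
  intro i
  rcases i with _ | _ | k
  · exact wh_zero w _
  · exact wh_zero w _
  · have := wh_X w (some (some k))
    rw [hx] at this
    have e : r * vw τ (some (some k)) = r := by unfold vw; simp
    rw [e]
    exact this

/-! ### the equations of the step -/

section eqs

variable (φ : MvPolynomial (Option (Option τ)) ℂ) (q n E : ℕ) (α β : ℂ)

/-- `y`-equation without the factor `y` -/
def eqA : MvPolynomial (Option (Option τ)) ℂ :=
  C (2 * α) * X none ^ n + C (β * E) * X (some none) ^ (E - 2) - sev (pderiv (some none) φ)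

/-- `u`-equation -/
def eqB : MvPolynomial (Option (Option τ)) ℂ :=
  C (α * (q - 1 - 2 * n : ℕ)) * (X none ^ n * X (some none) ^ 2) + C (β * (q + 1 - E : ℕ)) * X (some none) ^ E -
    wq (Option τ) * sev (pderiv (some none) φ)

/-- `x`-equations -/
def eqC (i : τ) : MvPolynomial (Option (Option τ)) ℂ :=
  sev (pderiv (some (some i)) φ) - X (some (some i)) * sev (pderiv (some none) φ)

/-- the second sheet -/
def sysB40 : Option (Option τ) → MvPolynomial (Option (Option τ)) ℂ
  | none => eqB φ q n E α β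
  | some none => eqA φ n E α β
  | some (some i) => eqC φ i

lemma tev_Xpow_u (k : ℕ) : tev (τ := Option τ) (X (some none) ^ k) = 1 := by
  rw [map_pow, tev_u, one_pow]

lemma tSys_B (hE : 3 ≤ E) :
    tSys (rename (embY τ) φ + SHB τ q n E α β) =
      Function.update (sysB40 φ q n E α β) (some none) (sysB40 φ q n E α β (some none) * X (some none)) := by
  have hw : tev (pderiv (some (some none)) (rename (embY τ) φ + SHB τ q n E α β)) =
      sev (pderiv (some none) φ) := by
    rw [map_add, pderiv_embY_w, map_add, tev_embY]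
    unfold SHB
    simp [pderiv_X]
  funext o
  rcases o with _ | _ | i
  · rw [Function.update_of_ne (by simp)]
    change tev (pderiv (some none) _) - wq (Option τ) * tev (pderiv (some (some none)) _) = eqB φ q n E α β
    have h1 : tev (pderiv (some none) (SHB τ q n E α β)) = C (α * (q - 1 - 2 * n : ℕ)) *
        (X none ^ n * X (some none) ^ 2) + C (β * (q + 1 - E : ℕ)) * X (some none) ^ E := by
      unfold SHB
      simp [pderiv_X, Derivation.leibniz, Derivation.leibniz_pow]
      ring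
    rw [hw, map_add, pderiv_embY_u, zero_add, h1]
    rfl
  · rw [Function.update_self]
    change tev (pderiv (some (some (some none))) _) - X (some none) * tev (pderiv (some (some none)) _) =
      eqA φ n E α β * X (some none)
    rw [hw, map_add, pderiv_embY_y, zero_add]
    unfold SHB eqA
    obtain ⟨e, rfl⟩ : ∃ e, E = e + 2 := ⟨E - 2, by omega⟩
    have h2 : (C (2 : ℂ) : MvPolynomial (Option (Option τ)) ℂ) = 2 := map_ofNat C 2
    have h3 : tev (τ := Option τ) 2 = 2 := map_ofNat _ 2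
    simp [pderiv_X, Derivation.leibniz, Derivation.leibniz_pow, h2]
    rw [h3]
    ring
  · rw [Function.update_of_ne (by simp)]
    change tev (pderiv (some (some (some (some i)))) _) -
      X (some (some i)) * tev (pderiv (some (some none)) _) = eqC φ i
    rw [hw, map_add, pderiv_embY_x, map_add, tev_embY]
    unfold SHB eqC
    simp [pderiv_X]

/-- the first sheet `y = 0` -/
lemma sheet_B (hE : 3 ≤ E) :
    mulAt (Ideal.span (Set.range (Function.update (sysB40 φ q n E α β) (some none) (X (some none))))) 0 =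
      mulAt (affIdeal (formC φ) (gram τ) (some none)) 0 := by
  unfold formC
  have hmem : (X (some none) : MvPolynomial (Option (Option τ)) ℂ) ∈
      Ideal.span (Set.range (Function.update (sysB40 φ q n E α β) (some none) (X (some none)))) :=
    Ideal.subset_span ⟨some none, by rw [Function.update_self]⟩
  rw [mulAt_T, mulAt_y0 _ hmem, Ideal.map_span, ← Set.range_comp]
  congr 1
  have hy : ∀ k : ℕ, 0 < k → (0 : MvPolynomial (Option τ) ℂ) ^ k = 0 := fun k hk => zero_pow hk.ne'
  have h1 : y0 (eqB φ q n E α β) = tSys (rename (embC τ) φ) none := by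
    rw [tSys_embC_none]
    unfold eqB
    simp only [map_sub, map_add, map_mul, map_pow, y0_T, y0_y, y0_C, y0_wq, y0_sev]
    rw [hy 2 (by omega), hy E (by omega)]
    ring
  have h2 : ∀ i, y0 (eqC φ i) = tSys (rename (embC τ) φ) (some i) := by
    intro i
    rw [tSys_embC_some]
    unfold eqC
    simp only [map_sub, map_mul, y0_x, y0_sev]
  apply le_antisymm
  · rw [Ideal.span_le]
    rintro _ ⟨o, rfl⟩
    rw [Function.comp_apply]
    rcases o with _ | _ | i
    · rw [Function.update_of_ne (by simp)]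
      change y0 (eqB φ q n E α β) ∈ _
      rw [h1]
      exact Ideal.subset_span ⟨none, rfl⟩
    · rw [Function.update_self, y0_y]
      exact Ideal.zero_mem _
    · rw [Function.update_of_ne (by simp)]
      change y0 (eqC φ i) ∈ _
      rw [h2]
      exact Ideal.subset_span ⟨some i, rfl⟩
  · rw [Ideal.span_le]
    rintro _ ⟨o, rfl⟩
    rcases o with _ | i
    · apply Ideal.subset_span
      refine ⟨none, ?_⟩
      rw [Function.comp_apply, Function.update_of_ne (by simp)]
      exact h1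
    · apply Ideal.subset_span
      refine ⟨some (some i), ?_⟩
      rw [Function.comp_apply, Function.update_of_ne (by simp)]
      exact h2 i

end eqs

/-! ### the weights -/

section main

variable {φ : MvPolynomial (Option (Option τ)) ℂ} {q n E : ℕ} {α β : ℂ}

/-- weights (or degrees) `a, b, c` for `T, y, x` -/
def w3 (τ : Type) (a b c : ℕ) : Option (Option τ) → ℕ := fun o => o.elim a fun o => o.elim b fun _ => c

omit [DecidableEq τ] in
lemma prod_w3 (a b c : ℕ) : ∏ i, w3 τ a b c i = a * (b * c ^ Fintype.card τ) := by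
  rw [Fintype.prod_option, Fintype.prod_option]
  unfold w3
  simp

/-- the initial forms -/
def gB (φ : MvPolynomial (Option (Option τ)) ℂ) (q n E : ℕ) (α β : ℂ) :
    Option (Option τ) → MvPolynomial (Option (Option τ)) ℂ
  | none => C (α * (q - 1 - 2 * n : ℕ)) * (X none ^ n * X (some none) ^ 2) +
      C (β * (q + 1 - E : ℕ)) * X (some none) ^ E
  | some none => C (2 * α) * X none ^ n + C (β * E) * X (some none) ^ (E - 2)
  | some (some i) => cx (pderiv (some (some i)) φ)

omit [Fintype τ] [DecidableEq τ] in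
/-- the initial forms have only the common zero `0` -/
lemma gB_zero (hndx : ∀ p : Option (Option τ) → ℂ, p none = 0 → p (some none) = 0 →
      (∀ i, eval p (pderiv (some (some i)) φ) = 0) → p = 0)
    (hn : 1 ≤ n) (hn2 : 2 * n + 1 ≤ q) (hE3 : 3 ≤ E) (hEq : E ≤ q + 1)
    (hres : E * (q + 1 - 2 * n) ≠ 2 * (q + 1)) (hα : α ≠ 0) (hβ : β ≠ 0)
    (x : Option (Option τ) → ℂ) (hx : ∀ i, eval x (gB φ q n E α β i) = 0) : x = 0 := by
  have hA := hx (some none)
  have hB := hx none
  have hA' : 2 * α * x none ^ n + β * E * x (some none) ^ (E - 2) = 0 := by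
    rw [← hA]; unfold gB; simp
  have hB' : α * ((q - 1 - 2 * n : ℕ) : ℂ) * (x none ^ n * x (some none) ^ 2) +
      β * ((q + 1 - E : ℕ) : ℂ) * x (some none) ^ E = 0 := by
    rw [← hB]; unfold gB; simp
  clear hA hB
  have hy : x (some none) = 0 := by
    by_contra hy
    generalize x none = T at hA' hB'
    generalize x (some none) = y at hA' hB' hy
    have hyE : y ^ E = y ^ 2 * y ^ (E - 2) := by rw [← pow_add]; congr 1; omega
    have h1 : α * ((q - 1 - 2 * n : ℕ) : ℂ) * T ^ n + β * ((q + 1 - E : ℕ) : ℂ) * y ^ (E - 2) = 0 := by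
      have h2 : y ^ 2 * (α * ((q - 1 - 2 * n : ℕ) : ℂ) * T ^ n + β * ((q + 1 - E : ℕ) : ℂ) * y ^ (E - 2)) = 0 := by
        rw [← hB', hyE]; ring
      exact (mul_eq_zero.mp h2).resolve_left (pow_ne_zero 2 hy)
    have h3 : β * y ^ (E - 2) * ((E : ℂ) * ((q - 1 - 2 * n : ℕ) : ℂ) - 2 * ((q + 1 - E : ℕ) : ℂ)) = 0 := by
      linear_combination ((q - 1 - 2 * n : ℕ) : ℂ) * hA' - 2 * h1
    have h5 : (E : ℂ) * ((q - 1 - 2 * n : ℕ) : ℂ) - 2 * ((q + 1 - E : ℕ) : ℂ) ≠ 0 := by
      intro h6
      have h7 : ((E * (q - 1 - 2 * n) : ℕ) : ℂ) = ((2 * (q + 1 - E) : ℕ) : ℂ) := by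
        rw [Nat.cast_mul, Nat.cast_mul]
        linear_combination h6
      have h8 : E * (q - 1 - 2 * n) = 2 * (q + 1 - E) := by exact_mod_cast h7
      apply hres
      have e2 : q + 1 - 2 * n = (q - 1 - 2 * n) + 2 := by omega
      rw [e2, mul_add, h8]
      omega
    rcases mul_eq_zero.mp h3 with h6 | h6
    · exact (mul_ne_zero hβ (pow_ne_zero _ hy)) h6
    · exact h5 h6
  have hT : x none = 0 := by
    rw [hy, zero_pow (by omega), mul_zero, add_zero] at hA'
    have h1 := (mul_eq_zero.mp hA').resolve_left (mul_ne_zero two_ne_zero hα)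
    exact (pow_eq_zero_iff (by omega)).mp h1
  have h1 := hndx (fun o => o.elim 0 fun o => o.elim 0 fun k => x (some (some k))) rfl rfl (fun i => by
    rw [← eval_cx]
    exact hx (some (some i)))
  funext o
  rcases o with _ | _ | k
  · exact hT
  · exact hy
  · exact congrFun h1 (some (some k))

section weights

variable {a b c : ℕ}

lemma wh_gB (hwh : wh (vw τ) (q + 1) φ) (h1 : a * n = b * (E - 2)) (hE : 3 ≤ E) (i : Option (Option τ)) :
    wh (w3 τ a b c) (w3 τ (b * E) (b * (E - 2)) (c * q) i) (gB φ q n E α β i) := by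
  have hphi : ∀ v : Option τ, wh (vw τ) q (pderiv (some v) φ) := fun v =>
    wh_pderiv hwh (some v) q (by unfold vw; rfl)
  have mT : ∀ k : ℕ, wh (w3 τ a b c) (a * k) (X none ^ k) := fun k => wh_pow (wh_X (w3 τ a b c) none) k
  have mY : ∀ k : ℕ, wh (w3 τ a b c) (b * k) (X (some none) ^ k) := fun k =>
    wh_pow (wh_X (w3 τ a b c) (some none)) k
  have e1 : b * (E - 2) + b * 2 = b * E := by rw [← mul_add]; congr 1; omega
  rcases i with _ | _ | k
  · change wh _ (b * E) _
    apply wh_add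
    · apply wh_C_mul
      have := wh_mul (mT n) (mY 2)
      rwa [h1, e1] at this
    · exact wh_C_mul _ (mY E)
  · change wh _ (b * (E - 2)) _
    apply wh_add
    · apply wh_C_mul
      have := mT n
      rwa [h1] at this
    · exact wh_C_mul _ (mY (E - 2))
  · exact wh_cx (fun _ => rfl) (hphi (some k))

lemma Lead_gB (hwh : wh (vw τ) (q + 1) φ) (h1 : a * n = b * (E - 2)) (hE : 3 ≤ E)
    (hc : 0 < c) (h2 : 2 * c < a) (h3 : c < b) (h4 : b * (E - 2) < c * q) (h5 : b * E < 2 * c + c * q)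
    (i : Option (Option τ)) :
    Lead (w3 τ a b c) (w3 τ (b * E) (b * (E - 2)) (c * q) i) (sysB40 φ q n E α β i) (gB φ q n E α β i) := by
  have hphi : ∀ v : Option τ, wh (vw τ) q (pderiv (some v) φ) := fun v =>
    wh_pderiv hwh (some v) q (by unfold vw; rfl)
  have w0 : w3 τ a b c none = a := rfl
  have w1 : w3 τ a b c (some none) = b := rfl
  have w2 : ∀ k : τ, w3 τ a b c (some (some k)) = c := fun _ => rfl
  have hlo : wlo (w3 τ a b c) (c * q) (sev (pderiv (some none) φ)) :=
    wlo_sev (by rw [w0]; omega) (by rw [w1]; omega) w2 (hphi none)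
  have hwq : wlo (w3 τ a b c) (2 * c) (wq (Option τ)) :=
    wlo_wq (by rw [w0]; omega) (by rw [w1]; omega) (fun k => by rw [w2])
  have hg := wh_gB (α := α) (β := β) (c := c) hwh h1 hE i
  rcases i with _ | _ | k
  · have e : eqB φ q n E α β = gB φ q n E α β none + -(wq (Option τ) * sev (pderiv (some none) φ)) := by
      unfold eqB gB; ring
    change Lead _ _ (eqB φ q n E α β) _
    rw [e]
    exact (Lead.self hg.wlo).add_hi (wlo_neg (wlo_mono h5 (wlo_mul hwq hlo)))
  · have e : eqA φ n E α β = gB φ q n E α β (some none) + -(sev (pderiv (some none) φ)) := by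
      unfold eqA gB; ring
    change Lead _ _ (eqA φ n E α β) _
    rw [e]
    exact (Lead.self hg.wlo).add_hi (wlo_neg (wlo_mono h4 hlo))
  · change Lead _ (c * q) (eqC φ k) (cx (pderiv (some (some k)) φ))
    have e : eqC φ k = sev (pderiv (some (some k)) φ) + -(X (some (some k)) * sev (pderiv (some none) φ)) := by
      unfold eqC; ring
    rw [e]
    refine (Lead_sev hc (by rw [w0]; exact h2) (by rw [w1]; omega) w2 (hphi (some k))).add_hi (wlo_neg ?_)
    refine wlo_mono ?_ (wlo_mul (wh_X (w3 τ a b c) (some (some k))).wlo hlo)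
    rw [w2]
    omega

end weights

/-- the weights exist: `a = (E-2)D`, `b = nD`, `c = nρ` with `D = 4n(q+2)`, `ρ = 4nE+1` -/
lemma exists_weights (hn : 1 ≤ n) (hn2 : 2 * n + 1 ≤ q) (hE3 : 3 ≤ E) (hEq : E ≤ q + 1)
    (hwin : 2 * (q + 2) < E * (q + 2 - 2 * n)) : ∃ a b c : ℕ, 0 < a ∧ 0 < b ∧ 0 < c ∧ a * n = b * (E - 2) ∧
      2 * c < a ∧ c < b ∧ b * (E - 2) < c * q ∧ b * E < 2 * c + c * q := by
  obtain ⟨e, rfl⟩ : ∃ e, E = e + 2 := ⟨E - 2, by omega⟩
  obtain ⟨p, hp⟩ : ∃ p, q + 2 = p + 2 * n := ⟨q + 2 - 2 * n, by omega⟩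
  have e1 : q + 2 - 2 * n = p := by omega
  have e2 : e + 2 - 2 = e := by omega
  rw [e1] at hwin
  have hw : 2 * n * (e + 2) + 2 * (q + 2) < (e + 2) * (q + 2) := by
    have : (e + 2) * (q + 2) = (e + 2) * p + 2 * n * (e + 2) := by rw [hp]; ring
    omega
  have hw2 : 4 * n * (e + 2) + 1 < 2 * (e * (q + 2)) := by
    have h1 : (e + 2) * (q + 2) = e * (q + 2) + 2 * (q + 2) := by ring
    have h2 : 4 * n * (e + 2) = 2 * (2 * n * (e + 2)) := by ring
    omega
  have hD : 0 < 4 * n * (q + 2) := by positivity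
  have k1 : 4 * n * (e + 2) + 1 < 4 * n * (q + 2) := by
    have h1 : 4 * n * (e + 2) ≤ 4 * n * (q + 1) := Nat.mul_le_mul_left _ hEq
    have h2 : 4 * n * (q + 2) = 4 * n * (q + 1) + 4 * n := by ring
    omega
  have k2 : 2 * (n * (4 * n * (e + 2) + 1)) < e * (4 * n * (q + 2)) := by
    calc 2 * (n * (4 * n * (e + 2) + 1)) = (2 * n) * (4 * n * (e + 2) + 1) := by ring
      _ < (2 * n) * (2 * (e * (q + 2))) := Nat.mul_lt_mul_of_pos_left hw2 (by omega)
      _ = e * (4 * n * (q + 2)) := by ring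
  have k3 : n * (4 * n * (e + 2) + 1) < n * (4 * n * (q + 2)) := Nat.mul_lt_mul_of_pos_left k1 (by omega)
  have k4 : n * (4 * n * (q + 2)) * (e + 2) <
      2 * (n * (4 * n * (e + 2) + 1)) + n * (4 * n * (e + 2) + 1) * q := by
    have h1 : 2 * (n * (4 * n * (e + 2) + 1)) + n * (4 * n * (e + 2) + 1) * q =
        n * (4 * n * (q + 2)) * (e + 2) + n * (q + 2) := by ring
    have h2 : 0 < n * (q + 2) := by positivity
    omega
  have k5 : n * (4 * n * (q + 2)) * e < n * (4 * n * (e + 2) + 1) * q := by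
    have h1 : n * (4 * n * (q + 2)) * (e + 2) = n * (4 * n * (q + 2)) * e + 2 * (n * (4 * n * (q + 2))) := by
      ring
    omega
  refine ⟨e * (4 * n * (q + 2)), n * (4 * n * (q + 2)), n * (4 * n * (e + 2) + 1), ?_, ?_, ?_, ?_, k2, k3, ?_, k4⟩
  · omega
  · positivity
  · positivity
  · rw [e2]; ring
  · rw [e2]; exact k5

/-- **M4, case `SHB`** -/
theorem smultB (hwh : wh (vw τ) (q + 1) φ)
    (hndx : ∀ p : Option (Option τ) → ℂ, p none = 0 → p (some none) = 0 →
      (∀ i, eval p (pderiv (some (some i)) φ) = 0) → p = 0)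
    (hn : 1 ≤ n) (hn2 : 2 * n + 1 ≤ q) (hE3 : 3 ≤ E) (hEq : E ≤ q + 1)
    (hwin : 2 * (q + 2) < E * (q + 2 - 2 * n)) (hres : E * (q + 1 - 2 * n) ≠ 2 * (q + 1))
    (hα : α ≠ 0) (hβ : β ≠ 0)
    (hψ : mulAt (affIdeal (formC φ) (gram τ) (some none)) 0 ≠ 0) :
    mulAt (affIdeal (formS φ (SHB τ q n E α β)) (gram (Option τ)) (some none)) 0 =
      mulAt (affIdeal (formC φ) (gram τ) (some none)) 0 + n * E * q ^ Fintype.card τ := by
  obtain ⟨a, b, c, ha, hb, hc, h1, h2, h3, h4, h5⟩ := exists_weights hn hn2 hE3 hEq hwin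
  have hw : ∀ i, 0 < w3 τ a b c i := by
    intro i
    rcases i with _ | _ | k
    · exact ha
    · exact hb
    · exact hc
  have hd : ∀ i, 0 < w3 τ (b * E) (b * (E - 2)) (c * q) i := by
    intro i
    rcases i with _ | _ | k
    · exact Nat.mul_pos hb (by omega)
    · exact Nat.mul_pos hb (by omega)
    · exact Nat.mul_pos hc (by omega)
  have hg : ∀ i, wh (w3 τ a b c) (w3 τ (b * E) (b * (E - 2)) (c * q) i) (gB φ q n E α β i) :=
    fun i => wh_gB hwh h1 hE3 i
  have h0 : ∀ x : Option (Option τ) → ℂ, (∀ i, eval x (gB φ q n E α β i) = 0) → x = 0 :=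
    fun x hx => gB_zero hndx hn hn2 hE3 hEq hres hα hβ x hx
  have hL : ∀ i, Lead (w3 τ a b c) (w3 τ (b * E) (b * (E - 2)) (c * q) i) (sysB40 φ q n E α β i)
      (gB φ q n E α β i) := fun i => Lead_gB hwh h1 hE3 hc h2 h3 h4 h5 i
  have hS : formS φ (SHB τ q n E α β) = subN (qf (Option τ)) (rename (embY τ) φ + SHB τ q n E α β) := rfl
  rw [hS, mulAt_T, tSys_B φ q n E α β hE3, ← sheet_B φ q n E α β hE3]
  rw [wMul hw hd hg h0 hL (some none) (X (some none)) (by rw [sheet_B φ q n E α β hE3]; exact hψ), add_comm]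
  congr 1
  have hB := wBez hw hd hg h0 hL
  rw [prod_w3, prod_w3] at hB
  have hpos : 0 < a * (b * c ^ Fintype.card τ) := by positivity
  apply Nat.eq_of_mul_eq_mul_right hpos
  rw [hB, ← h1, mul_pow]
  ring

theorem MSt.multB {E₀ : ℕ} (h : MSt τ q E₀ φ)
    (hn : 1 ≤ n) (hn2 : 2 * n + 1 ≤ q) (hE3 : 3 ≤ E) (hEq : E ≤ q + 1)
    (hwin : 2 * (q + 2) < E * (q + 2 - 2 * n)) (hres : E * (q + 1 - 2 * n) ≠ 2 * (q + 1))
    (hα : α ≠ 0) (hβ : β ≠ 0)
    (hψ : mulAt (affIdeal (formC φ) (gram τ) (some none)) 0 ≠ 0) :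
    mulAt (affIdeal (formS φ (SHB τ q n E α β)) (gram (Option τ)) (some none)) 0 =
      mulAt (affIdeal (formC φ) (gram τ) (some none)) 0 + n * E * q ^ Fintype.card τ :=
  smultB h.wh h.ndx hn hn2 hE3 hEq hwin hres hα hβ hψ

end main

end

end EY
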