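import Pool.Agent.helper5.EY.St

set_option autoImplicit false
set_option linter.unusedSectionVars false

/-!
# EY-TC: the coordinates `(T,x)` in the chart `u = 1`

`F(T;u,w,x)` as in helper50's `Aff.lean`.  `tev F` is the value at `(T, 1, T - |x|²/2, x)` in the ring with the
variables `none = T`, `some i = x_i`; `tSys F` are the equations `F_u = w F_w`, `F_{x_i} = x_i F_w`.
`mulAt_T`: the multiplicity of the eigenscheme at `e_u` is that of `tSys F` at the origin.
-/

namespace EY

open MvPolynomial

noncomputable section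

/-! ### retractions -/

section retract

variable {σ τ : Type*}

lemma sub_retract_mem (φ : MvPolynomial σ ℂ →ₐ[ℂ] MvPolynomial τ ℂ) (ι : MvPolynomial τ ℂ →ₐ[ℂ] MvPolynomial σ ℂ)
    (I : Ideal (MvPolynomial σ ℂ)) (hI : ∀ i, X i - ι (φ (X i)) ∈ I) (f : MvPolynomial σ ℂ) :
    f - ι (φ f) ∈ I := by
  induction f using MvPolynomial.induction_on with
  | C a =>
    have : ι (φ (C a)) = C a := by
      rw [← MvPolynomial.algebraMap_eq, AlgHom.commutes, AlgHom.commutes]
    rw [this, sub_self]; exact Ideal.zero_mem _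
  | add p q hp hq =>
    have e : p + q - ι (φ (p + q)) = (p - ι (φ p)) + (q - ι (φ q)) := by
      rw [map_add, map_add]; ring
    rw [e]; exact Ideal.add_mem _ hp hq
  | mul_X p i hp =>
    have e : p * X i - ι (φ (p * X i)) = X i * (p - ι (φ p)) + ι (φ p) * (X i - ι (φ (X i))) := by
      rw [map_mul, map_mul]; ring
    rw [e]
    exact Ideal.add_mem _ (Ideal.mul_mem_left _ _ hp) (Ideal.mul_mem_left _ _ (hI i))

/-- transport along a retraction `φ` with section `ι` such that `I` identifies `X i` with `ι (φ (X i))` -/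
theorem mulAt_retract (φ : MvPolynomial σ ℂ →ₐ[ℂ] MvPolynomial τ ℂ) (ι : MvPolynomial τ ℂ →ₐ[ℂ] MvPolynomial σ ℂ)
    (h : ∀ j, φ (ι (X j)) = X j) (I : Ideal (MvPolynomial σ ℂ)) (hI : ∀ i, X i - ι (φ (X i)) ∈ I)
    (p : σ → ℂ) (p' : τ → ℂ) (hp : ∀ i, eval p' (φ (X i)) = p i) : mulAt I p = mulAt (I.map φ) p' := by
  have h1 : φ.comp ι = AlgHom.id ℂ _ := MvPolynomial.algHom_ext (fun j => h j)
  apply mulAt_map φ (fun f => ⟨ι f, AlgHom.congr_fun h1 f⟩) I _ p p'
  · intro x
    induction x using MvPolynomial.induction_on with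
    | C a =>
      have : φ (C a) = C a := by
        rw [← MvPolynomial.algebraMap_eq, AlgHom.commutes]
        rfl
      rw [this, eval_C, eval_C]
    | add p q hp hq => rw [map_add, map_add, map_add, hp, hq]
    | mul_X q i hq => rw [map_mul, map_mul, map_mul, hq, hp, eval_X]
  · intro x hx
    have h2 := sub_retract_mem φ ι I hI x
    rwa [hx, map_zero, sub_zero] at h2

end retract

/-! ### the coordinates `(T,x)` -/

section coords

variable {τ : Type} [Fintype τ] [DecidableEq τ]

/-- `w = T - |x|²/2` -/
def wq (τ : Type) [Fintype τ] : MvPolynomial (Option τ) ℂ := X none - C (1 / 2) * ∑ i : τ, X (some i) ^ 2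

/-- evaluation at `(T, 1, T - |x|²/2, x)` -/
def tev : MvPolynomial (Option (Option (Option τ))) ℂ →ₐ[ℂ] MvPolynomial (Option τ) ℂ :=
  aeval fun o => o.elim (X none) fun o => o.elim 1 fun o => o.elim (wq τ) fun k => X (some k)

omit [DecidableEq τ] in
@[simp] lemma tev_T : tev (τ := τ) (X none) = X none := by unfold tev; rw [aeval_X]; rfl
omit [DecidableEq τ] in
@[simp] lemma tev_u : tev (τ := τ) (X (some none)) = 1 := by unfold tev; rw [aeval_X]; rfl
omit [DecidableEq τ] in
@[simp] lemma tev_w : tev (τ := τ) (X (some (some none))) = wq τ := by unfold tev; rw [aeval_X]; rfl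
omit [DecidableEq τ] in
@[simp] lemma tev_x (k : τ) : tev (τ := τ) (X (some (some (some k)))) = X (some k) := by
  unfold tev; rw [aeval_X]; rfl
omit [DecidableEq τ] in
@[simp] lemma tev_C (a : ℂ) : tev (τ := τ) (C a) = C a := by unfold tev; rw [aeval_C]; rfl

/-- the equations in the coordinates `(T,x)` -/
def tSys (F : MvPolynomial (Option (Option (Option τ))) ℂ) : Option τ → MvPolynomial (Option τ) ℂ
  | none => tev (pderiv (some none) F) - wq τ * tev (pderiv (some (some none)) F)
  | some k => tev (pderiv (some (some (some k))) F) - X (some k) * tev (pderiv (some (some none)) F)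

/-- `w ↦ T - |x|²/2` -/
def toT : MvPolynomial (Option τ) ℂ →ₐ[ℂ] MvPolynomial (Option τ) ℂ :=
  aeval fun o => o.elim (wq τ) fun k => X (some k)

/-- `T ↦ w + |x|²/2` -/
def ofT : MvPolynomial (Option τ) ℂ →ₐ[ℂ] MvPolynomial (Option τ) ℂ :=
  aeval fun o => o.elim (qc τ) fun k => X (some k)

omit [DecidableEq τ] in
lemma toT_none : toT (τ := τ) (X none) = wq τ := by unfold toT; rw [aeval_X]; rfl
omit [DecidableEq τ] in
lemma toT_some (k : τ) : toT (τ := τ) (X (some k)) = X (some k) := by unfold toT; rw [aeval_X]; rfl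
omit [DecidableEq τ] in
lemma toT_C (a : ℂ) : toT (τ := τ) (C a) = C a := by unfold toT; rw [aeval_C]; rfl
omit [DecidableEq τ] in
lemma ofT_none : ofT (τ := τ) (X none) = qc τ := by unfold ofT; rw [aeval_X]; rfl
omit [DecidableEq τ] in
lemma ofT_some (k : τ) : ofT (τ := τ) (X (some k)) = X (some k) := by unfold ofT; rw [aeval_X]; rfl
omit [DecidableEq τ] in
lemma ofT_C (a : ℂ) : ofT (τ := τ) (C a) = C a := by unfold ofT; rw [aeval_C]; rfl

omit [DecidableEq τ] in
lemma toT_qc : toT (qc τ) = X none := by
  unfold qc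
  rw [map_add, map_mul, map_sum, toT_none, toT_C]
  simp only [map_pow, toT_some]
  unfold wq
  ring

omit [DecidableEq τ] in
lemma toT_ofT (j : Option τ) : toT (ofT (X j)) = (X j : MvPolynomial (Option τ) ℂ) := by
  rcases j with _ | k
  · rw [ofT_none, toT_qc]
  · rw [ofT_some, toT_some]

omit [DecidableEq τ] in
lemma ofT_toT (j : Option τ) : ofT (toT (X j)) = (X j : MvPolynomial (Option τ) ℂ) := by
  rcases j with _ | k
  · rw [toT_none]
    unfold wq
    rw [map_sub, map_mul, map_sum, ofT_none, ofT_C]
    simp only [map_pow, ofT_some]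
    unfold qc
    ring
  · rw [toT_some, ofT_some]

omit [DecidableEq τ] in
lemma toT_ch (F : MvPolynomial (Option (Option (Option τ))) ℂ) : toT (ch F) = tev F := by
  have h : (toT (τ := τ)).comp ch = tev := by
    apply MvPolynomial.algHom_ext
    intro i
    rw [AlgHom.comp_apply]
    unfold ch
    rw [aeval_X]
    rcases i with _ | _ | _ | k
    · rw [tev_T]; exact toT_qc
    · rw [tev_u]; exact map_one _
    · rw [tev_w]; exact toT_none
    · rw [tev_x]; exact toT_some k
  exact AlgHom.congr_fun h F

/-- **the equations in the coordinates `(T,x)`** -/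
theorem mulAt_T (F : MvPolynomial (Option (Option (Option τ))) ℂ) :
    mulAt (affIdeal (subN (qf τ) F) (gram τ) (some none)) 0 = mulAt (Ideal.span (Set.range (tSys F))) 0 := by
  rw [affIdeal_subN]
  rw [mulAt_retract toT ofT toT_ofT (Ideal.span (Set.range (chSys F))) (fun i => by
    rw [ofT_toT, sub_self]; exact Ideal.zero_mem _) 0 0 (fun i => by
    rcases i with _ | k
    · rw [toT_none]; unfold wq; simp
    · rw [toT_some]; simp)]
  congr 1
  rw [Ideal.map_span, ← Set.range_comp]
  congr 2
  funext o
  rw [Function.comp_apply]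
  rcases o with _ | k
  · change toT (ch _ - X none * ch _) = _
    rw [map_sub, map_mul, toT_ch, toT_ch, toT_none]
    rfl
  · change toT (ch _ - X (some k) * ch _) = _
    rw [map_sub, map_mul, toT_ch, toT_ch, toT_some]
    rfl

/-! ### class C and the step `S` -/

/-- `φ(T; w, x)` in the coordinates `(T,x)` -/
def cev : MvPolynomial (Option (Option τ)) ℂ →ₐ[ℂ] MvPolynomial (Option τ) ℂ :=
  aeval fun o => o.elim (X none) fun o => o.elim (wq τ) fun k => X (some k)

omit [DecidableEq τ] in
lemma tev_embC (φ : MvPolynomial (Option (Option τ)) ℂ) : tev (rename (embC τ) φ) = cev φ := by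
  unfold tev cev
  rw [aeval_rename]
  congr 2
  funext o
  rcases o with _ | _ | k <;> rfl

theorem tSys_embC_none (φ : MvPolynomial (Option (Option τ)) ℂ) :
    tSys (rename (embC τ) φ) none = - (wq τ * cev (pderiv (some none) φ)) := by
  have h1 : pderiv (some none) (rename (embC τ) φ) = 0 := by
    apply pderiv_eq_zero_of_notMem_vars
    intro hmem
    obtain ⟨o, _, ho⟩ := Finset.mem_image.mp (vars_rename (embC τ) φ hmem)
    rcases o with _ | o <;> simp [embC] at ho
  have h2 : pderiv (some (some none)) (rename (embC τ) φ) = rename (embC τ) (pderiv (some none) φ) := by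
    have h3 : (some (some none) : Option (Option (Option τ))) = embC τ (some none) := rfl
    rw [h3, pderiv_rename (embC_inj)]
  change tev (pderiv (some none) _) - wq τ * tev (pderiv (some (some none)) _) = _
  rw [h1, h2, map_zero, tev_embC, zero_sub]

theorem tSys_embC_some (φ : MvPolynomial (Option (Option τ)) ℂ) (i : τ) :
    tSys (rename (embC τ) φ) (some i) =
      cev (pderiv (some (some i)) φ) - X (some i) * cev (pderiv (some none) φ) := by
  have h2 : ∀ o : Option τ, pderiv (some (some o)) (rename (embC τ) φ) =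
      rename (embC τ) (pderiv (some o) φ) := by
    intro o
    have h3 : (some (some o) : Option (Option (Option τ))) = embC τ (some o) := rfl
    rw [h3, pderiv_rename (embC_inj)]
  change tev (pderiv (some (some (some i))) _) - X (some i) * tev (pderiv (some (some none)) _) = _
  rw [h2, h2, tev_embC, tev_embC]

/-- `φ(T; w, x)` in the coordinates `(T,y,x)`: `none = T`, `some none = y`, `some (some i) = x_i` -/
def sev : MvPolynomial (Option (Option τ)) ℂ →ₐ[ℂ] MvPolynomial (Option (Option τ)) ℂ :=
  aeval fun o => o.elim (X none) fun o => o.elim (wq (Option τ)) fun k => X (some (some k))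

omit [Fintype τ] [DecidableEq τ] in
theorem embY_inj : Function.Injective (embY τ) := by
  intro a b h
  rcases a with _ | _ | a <;> rcases b with _ | _ | b <;> simp [embY] at h ⊢
  exact h

omit [DecidableEq τ] in
lemma tev_embY (φ : MvPolynomial (Option (Option τ)) ℂ) : tev (rename (embY τ) φ) = sev φ := by
  unfold tev sev
  rw [aeval_rename]
  congr 2
  funext o
  rcases o with _ | _ | k <;> rfl

omit [Fintype τ] [DecidableEq τ] in
lemma pderiv_embY_u (φ : MvPolynomial (Option (Option τ)) ℂ) : pderiv (some none) (rename (embY τ) φ) = 0 := by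
  classical
  apply pderiv_eq_zero_of_notMem_vars
  intro hmem
  obtain ⟨o, _, ho⟩ := Finset.mem_image.mp (vars_rename (embY τ) φ hmem)
  rcases o with _ | _ | o <;> simp [embY] at ho

omit [Fintype τ] [DecidableEq τ] in
lemma pderiv_embY_y (φ : MvPolynomial (Option (Option τ)) ℂ) :
    pderiv (some (some (some none))) (rename (embY τ) φ) = 0 := by
  classical
  apply pderiv_eq_zero_of_notMem_vars
  intro hmem
  obtain ⟨o, _, ho⟩ := Finset.mem_image.mp (vars_rename (embY τ) φ hmem)
  rcases o with _ | _ | o <;> simp [embY] at ho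

omit [Fintype τ] [DecidableEq τ] in
lemma pderiv_embY_w (φ : MvPolynomial (Option (Option τ)) ℂ) :
    pderiv (some (some none)) (rename (embY τ) φ) = rename (embY τ) (pderiv (some none) φ) := by
  have h3 : (some (some none) : Option (Option (Option (Option τ)))) = embY τ (some none) := rfl
  rw [h3, pderiv_rename embY_inj]

omit [Fintype τ] [DecidableEq τ] in
lemma pderiv_embY_x (φ : MvPolynomial (Option (Option τ)) ℂ) (i : τ) :
    pderiv (some (some (some (some i)))) (rename (embY τ) φ) = rename (embY τ) (pderiv (some (some i)) φ) := by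
  have h3 : (some (some (some (some i))) : Option (Option (Option (Option τ)))) = embY τ (some (some i)) := rfl
  rw [h3, pderiv_rename embY_inj]

/-- `y ↦ 0` -/
def y0 : MvPolynomial (Option (Option τ)) ℂ →ₐ[ℂ] MvPolynomial (Option τ) ℂ :=
  aeval fun o => o.elim (X none) fun o => o.elim 0 fun k => X (some k)

omit [Fintype τ] [DecidableEq τ] in
@[simp] lemma y0_T : y0 (τ := τ) (X none) = X none := by unfold y0; rw [aeval_X]; rfl
omit [Fintype τ] [DecidableEq τ] in
@[simp] lemma y0_y : y0 (τ := τ) (X (some none)) = 0 := by unfold y0; rw [aeval_X]; rfl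
omit [Fintype τ] [DecidableEq τ] in
@[simp] lemma y0_x (k : τ) : y0 (τ := τ) (X (some (some k))) = X (some k) := by unfold y0; rw [aeval_X]; rfl
omit [Fintype τ] [DecidableEq τ] in
@[simp] lemma y0_C (a : ℂ) : y0 (τ := τ) (C a) = C a := by unfold y0; rw [aeval_C]; rfl

omit [DecidableEq τ] in
@[simp] lemma y0_wq : y0 (wq (Option τ)) = wq τ := by
  unfold wq
  rw [map_sub, map_mul, map_sum, Fintype.sum_option]
  simp

omit [DecidableEq τ] in
@[simp] lemma y0_sev (φ : MvPolynomial (Option (Option τ)) ℂ) : y0 (sev φ) = cev φ := by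
  have h : (y0 (τ := τ)).comp sev = cev := by
    apply MvPolynomial.algHom_ext
    intro i
    rw [AlgHom.comp_apply]
    unfold sev cev
    rw [aeval_X, aeval_X]
    rcases i with _ | _ | k
    · exact y0_T
    · exact y0_wq
    · exact y0_x k
  exact AlgHom.congr_fun h φ

/-- the sheet `y = 0` in the coordinates `(T,y,x)` -/
theorem mulAt_y0 (I : Ideal (MvPolynomial (Option (Option τ)) ℂ)) (hI : X (some none) ∈ I) :
    mulAt I 0 = mulAt (I.map (y0 (τ := τ))) 0 := by
  apply mulAt_retract y0 (rename (Option.map some)) _ I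
  · intro i
    rcases i with _ | _ | k
    · rw [y0_T, rename_X]; simp
    · rw [y0_y, map_zero, sub_zero]; exact hI
    · rw [y0_x, rename_X]; simp
  · intro i
    rcases i with _ | _ | k <;> simp
  · intro j
    rcases j with _ | k <;> rw [rename_X] <;> simp

end coords

end

end EY
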