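import Pool.Agent.helper40.EY.LocBez

set_option autoImplicit false

/-!
# EY-Wt: weighted local Bezout
-/

namespace EY

open MvPolynomial Pool.Agent.helper62.BZ

noncomputable section

variable {n : ℕ}

section pow

variable (w : Fin n → ℕ)

/-- `x_i ↦ x_i ^ w_i` -/
def pw : MvPolynomial (Fin n) ℂ →ₐ[ℂ] MvPolynomial (Fin n) ℂ := aeval fun i => X i ^ w i

/-- multiplication of the exponents by the weights -/
def sc (α : Fin n →₀ ℕ) : Fin n →₀ ℕ := Finsupp.equivFunOnFinite.symm fun i => w i * α i

/-- division of the exponents by the weights -/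
def dvw (β : Fin n →₀ ℕ) : Fin n →₀ ℕ := Finsupp.equivFunOnFinite.symm fun i => β i / w i

lemma sc_apply (α : Fin n →₀ ℕ) (i : Fin n) : sc w α i = w i * α i := rfl

lemma dvw_apply (α : Fin n →₀ ℕ) (i : Fin n) : dvw w α i = α i / w i := rfl

lemma pw_X (i : Fin n) : pw w (X i) = X i ^ w i := by
  unfold pw; rw [aeval_X]

lemma pw_monomial (α : Fin n →₀ ℕ) (a : ℂ) : pw w (monomial α a) = monomial (sc w α) a := by
  unfold pw
  rw [aeval_monomial, monomial_eq, MvPolynomial.algebraMap_eq]
  congr 1
  rw [Finsupp.prod_fintype _ _ (fun i => by simp), Finsupp.prod_fintype _ _ (fun i => by simp)]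
  apply Finset.prod_congr rfl
  intro i _
  rw [sc_apply, pow_mul]

/-- the residues of the exponents -/
abbrev Er : Type := (i : Fin n) → Fin (w i)

/-- the component of residue `e` -/
def chi (e : Er w) : MvPolynomial (Fin n) ℂ →ₗ[ℂ] MvPolynomial (Fin n) ℂ :=
  (basisMonomials (Fin n) ℂ).constr ℂ fun β =>
    if (∀ i, β i % w i = e i) then monomial (dvw w β) 1 else 0

lemma chi_monomial (e : Er w) (β : Fin n →₀ ℕ) (a : ℂ) :
    chi w e (monomial β a) = if (∀ i, β i % w i = e i) then monomial (dvw w β) a else 0 := by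
  have h1 : (monomial β a : MvPolynomial (Fin n) ℂ) = a • (basisMonomials (Fin n) ℂ) β := by
    rw [coe_basisMonomials, smul_monomial]; simp
  rw [h1, map_smul]
  unfold chi
  rw [Module.Basis.constr_basis]
  split_ifs
  · rw [smul_monomial]; simp
  · simp

variable (hw : ∀ i, 0 < w i)

include hw in
lemma chi_pw_mul (e : Er w) (p f : MvPolynomial (Fin n) ℂ) :
    chi w e (pw w p * f) = p * chi w e f := by
  induction p using MvPolynomial.induction_on' with
  | add p q hp hq => rw [map_add, add_mul, map_add, hp, hq, add_mul]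
  | monomial α a =>
    induction f using MvPolynomial.induction_on' with
    | add p q hp hq => rw [mul_add, map_add, hp, hq, map_add, mul_add]
    | monomial β b =>
      rw [pw_monomial, monomial_mul, chi_monomial, chi_monomial]
      have h1 : ∀ i, (sc w α + β) i % w i = β i % w i := by
        intro i
        rw [Finsupp.add_apply, sc_apply, Nat.mul_add_mod]
      have h2 : dvw w (sc w α + β) = α + dvw w β := by
        ext i
        rw [dvw_apply, Finsupp.add_apply, Finsupp.add_apply, sc_apply, dvw_apply,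
          Nat.mul_add_div (hw i)]
      simp only [h1, h2]
      split_ifs
      · rw [monomial_mul]
      · rw [mul_zero]

/-- the monomial `y ^ e` -/
def ye (e : Er w) : MvPolynomial (Fin n) ℂ :=
  monomial (Finsupp.equivFunOnFinite.symm fun i => (e i : ℕ)) 1

lemma chi_ye (e e' : Er w) : chi w e (ye w e') = if e = e' then 1 else 0 := by
  unfold ye
  rw [chi_monomial]
  have h1 : ∀ i, (Finsupp.equivFunOnFinite.symm fun i => (e' i : ℕ)) i % w i = (e' i : ℕ) :=
    fun i => Nat.mod_eq_of_lt (e' i).2
  have h2 : dvw w (Finsupp.equivFunOnFinite.symm fun i => (e' i : ℕ)) = 0 := by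
    ext i
    rw [dvw_apply]
    exact Nat.div_eq_of_lt (e' i).2
  simp only [h1, h2]
  by_cases h : e = e'
  · subst h
    simp
  · rw [if_neg h, if_neg]
    intro h3
    apply h
    funext i
    exact Fin.ext (h3 i).symm

include hw in
lemma sum_chi (f : MvPolynomial (Fin n) ℂ) : ∑ e : Er w, ye w e * pw w (chi w e f) = f := by
  classical
  induction f using MvPolynomial.induction_on' with
  | add p q hp hq =>
    simp only [map_add, mul_add, Finset.sum_add_distrib, hp, hq]
  | monomial β b =>
    rw [Finset.sum_eq_single (fun i => ⟨β i % w i, Nat.mod_lt _ (hw i)⟩)]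
    · rw [chi_monomial, if_pos (fun i => rfl), pw_monomial, ye, monomial_mul, one_mul]
      congr 2
      ext i
      rw [Finsupp.add_apply, sc_apply, dvw_apply]
      exact Nat.mod_add_div _ _
    · intro e _ he
      rw [chi_monomial, if_neg, map_zero, mul_zero]
      intro h
      apply he
      funext i
      exact Fin.ext (h i).symm
    · intro h
      exact absurd (Finset.mem_univ _) h

include hw in
lemma mem_map_pw (I : Ideal (MvPolynomial (Fin n) ℂ)) (f : MvPolynomial (Fin n) ℂ) :
    f ∈ I.map (pw w) ↔ ∀ e, chi w e f ∈ I := by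
  constructor
  · intro hf
    rw [Ideal.map] at hf
    induction hf using Submodule.span_induction with
    | mem x hx =>
      obtain ⟨y, hy, rfl⟩ := hx
      intro e
      have := chi_pw_mul w hw e y 1
      rw [mul_one] at this
      change chi w e (pw w y) ∈ I
      rw [this]
      exact I.mul_mem_right _ hy
    | zero => intro e; rw [map_zero]; exact I.zero_mem
    | add x y _ _ hx hy => intro e; rw [map_add]; exact I.add_mem (hx e) (hy e)
    | smul a x hx hx' =>
      intro e
      have e0 : a * x = ∑ e', pw w (chi w e' x) * (a * ye w e') := by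
        conv_lhs => rw [← sum_chi w hw x]
        rw [Finset.mul_sum]
        apply Finset.sum_congr rfl
        intro e' _
        ring
      rw [smul_eq_mul, e0, map_sum]
      apply Ideal.sum_mem
      intro e' _
      rw [chi_pw_mul w hw]
      exact I.mul_mem_right _ (hx' e')
  · intro h
    rw [← sum_chi w hw f]
    apply Ideal.sum_mem
    intro e _
    exact Ideal.mul_mem_left _ _ (Ideal.mem_map_of_mem _ (h e))

/-- all the components modulo `I` -/
def chiq (I : Ideal (MvPolynomial (Fin n) ℂ)) :
    MvPolynomial (Fin n) ℂ →ₗ[ℂ] (Er w → MvPolynomial (Fin n) ℂ ⧸ I) :=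
  LinearMap.pi fun e => (Ideal.Quotient.mkₐ ℂ I).toLinearMap.comp (chi w e)

lemma chiq_apply (I : Ideal (MvPolynomial (Fin n) ℂ)) (f : MvPolynomial (Fin n) ℂ) (e : Er w) :
    chiq w I f e = Ideal.Quotient.mk I (chi w e f) := rfl

include hw in
lemma ker_chiq (I : Ideal (MvPolynomial (Fin n) ℂ)) :
    LinearMap.ker (chiq w I) = (I.map (pw w)).restrictScalars ℂ := by
  ext f
  rw [LinearMap.mem_ker, Submodule.restrictScalars_mem, mem_map_pw w hw]
  constructor
  · intro h e
    have := congrFun h e
    rw [chiq_apply, Pi.zero_apply, Ideal.Quotient.eq_zero_iff_mem] at this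
    exact this
  · intro h
    funext e
    rw [chiq_apply, Pi.zero_apply, Ideal.Quotient.eq_zero_iff_mem]
    exact h e

include hw in
lemma chiq_surjective (I : Ideal (MvPolynomial (Fin n) ℂ)) : Function.Surjective (chiq w I) := by
  classical
  intro y
  choose z hz using fun e : Er w => Ideal.Quotient.mk_surjective (y e)
  refine ⟨∑ e, pw w (z e) * ye w e, ?_⟩
  funext e
  rw [chiq_apply, map_sum, Finset.sum_eq_single e]
  · rw [chi_pw_mul w hw, chi_ye, if_pos rfl, mul_one, hz]
  · intro e' _ he
    rw [chi_pw_mul w hw, chi_ye, if_neg (Ne.symm he), mul_zero]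
  · intro h
    exact absurd (Finset.mem_univ _) h

include hw in
/-- the dimension is multiplied by the product of the weights -/
lemma finrank_map_pw (I : Ideal (MvPolynomial (Fin n) ℂ))
    (hfin : Module.Finite ℂ (MvPolynomial (Fin n) ℂ ⧸ I)) :
    Module.finrank ℂ (MvPolynomial (Fin n) ℂ ⧸ I.map (pw w)) =
      (∏ i, w i) * Module.finrank ℂ (MvPolynomial (Fin n) ℂ ⧸ I) := by
  have h1 := (LinearMap.quotKerEquivOfSurjective (chiq w I) (chiq_surjective w hw I)).finrank_eq
  rw [ker_chiq w hw I] at h1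
  rw [← (Submodule.Quotient.restrictScalarsEquiv ℂ (I.map (pw w))).finrank_eq]
  refine h1.trans ?_
  rw [Module.finrank_pi_fintype, Finset.sum_const, Finset.card_univ, Fintype.card_pi, smul_eq_mul]
  simp

/-- a bound for the weights -/
def Wb : ℕ := ∑ i, w i

lemma le_Wb (i : Fin n) : w i ≤ Wb w := Finset.single_le_sum (fun _ _ => Nat.zero_le _) (Finset.mem_univ i)

include hw in
lemma degree_dvw (β : Fin n →₀ ℕ) : β.degree ≤ Wb w * ((dvw w β).degree + n) := by
  have h1 : β.degree = ∑ i, β i := Finsupp.degree_eq_sum β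
  have h2 : (dvw w β).degree = ∑ i, β i / w i := by
    rw [Finsupp.degree_eq_sum]; rfl
  have h3 : ∀ i, β i ≤ Wb w * (β i / w i + 1) := by
    intro i
    have h4 : β i < w i * (β i / w i + 1) := Nat.lt_mul_div_succ _ (hw i)
    exact h4.le.trans (Nat.mul_le_mul_right _ (le_Wb w i))
  calc β.degree = ∑ i, β i := h1
    _ ≤ ∑ i, Wb w * (β i / w i + 1) := Finset.sum_le_sum fun i _ => h3 i
    _ = Wb w * ((dvw w β).degree + n) := by
      rw [← Finset.mul_sum, Finset.sum_add_distrib, h2]
      simp

include hw in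
lemma lo_chi {N : ℕ} {f : MvPolynomial (Fin n) ℂ} (hf : lo (Wb w * (N + n) + 1) f) (e : Er w) :
    lo N (chi w e f) := by
  have h1 : f = ∑ β ∈ f.support, monomial β (f.coeff β) := f.as_sum
  rw [h1, map_sum]
  apply lo_sum
  intro β hβ
  rw [chi_monomial]
  split_ifs
  · intro x hx
    rw [coeff_monomial, if_neg]
    intro h2
    have h3 : Wb w * (N + n) + 1 ≤ β.degree := by
      by_contra h4
      exact (mem_support_iff.mp hβ) (hf β (by omega))
    have h5 := degree_dvw w hw β
    rw [h2] at h5
    have h6 : Wb w * (x.degree + n) ≤ Wb w * (N + n) := Nat.mul_le_mul_left _ (by omega)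
    omega
  · exact lo_zero _

include hw in
lemma lo_pw {N : ℕ} {f : MvPolynomial (Fin n) ℂ} (hf : lo N f) : lo N (pw w f) := by
  have h1 : f = ∑ β ∈ f.support, monomial β (f.coeff β) := f.as_sum
  rw [h1, map_sum]
  apply lo_sum
  intro β hβ
  rw [pw_monomial]
  intro x hx
  rw [coeff_monomial, if_neg]
  intro h2
  have h3 : N ≤ β.degree := by
    by_contra h4
    exact (mem_support_iff.mp hβ) (hf β (by omega))
  have h4 : β.degree ≤ (sc w β).degree := by
    rw [Finsupp.degree_eq_sum, Finsupp.degree_eq_sum]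
    apply Finset.sum_le_sum
    intro i _
    rw [sc_apply]
    exact Nat.le_mul_of_pos_left _ (hw i)
  rw [h2] at h4
  omega

section main

variable (f g : Fin n → MvPolynomial (Fin n) ℂ) (d : Fin n → ℕ) (hd : ∀ i, 0 < d i)
  (hg : ∀ i, ∀ α : Fin n →₀ ℕ, (g i).coeff α ≠ 0 → ∑ j, w j * α j = d i)
  (h0 : ∀ x : Fin n → ℂ, (∀ i, eval x (g i) = 0) → x = 0)
  (hfg : ∀ i, ∀ α : Fin n →₀ ℕ, (f i - g i).coeff α ≠ 0 → d i < ∑ j, w j * α j)

lemma degree_sc (α : Fin n →₀ ℕ) : (sc w α).degree = ∑ j, w j * α j := by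
  rw [Finsupp.degree_eq_sum]; rfl

include hg in
lemma pw_hom (i : Fin n) : (pw w (g i)).IsHomogeneous (d i) := by
  have h1 : g i = ∑ β ∈ (g i).support, monomial β ((g i).coeff β) := (g i).as_sum
  rw [h1, map_sum]
  apply IsHomogeneous.sum
  intro β hβ
  rw [pw_monomial]
  apply isHomogeneous_monomial
  rw [degree_sc]
  exact hg i β (mem_support_iff.mp hβ)

include hfg in
lemma pw_lo (i : Fin n) : lo (d i + 1) (pw w (f i) - pw w (g i)) := by
  rw [← map_sub]
  have h1 : f i - g i = ∑ β ∈ (f i - g i).support, monomial β ((f i - g i).coeff β) :=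
    (f i - g i).as_sum
  rw [h1, map_sum]
  apply lo_sum
  intro β hβ
  rw [pw_monomial]
  intro x hx
  rw [coeff_monomial, if_neg]
  intro h2
  have h3 := hfg i β (mem_support_iff.mp hβ)
  rw [← degree_sc, h2] at h3
  omega

include hw h0 in
lemma pw_zero (x : Fin n → ℂ) (hx : ∀ i, eval x (pw w (g i)) = 0) : x = 0 := by
  have h1 : ∀ p : MvPolynomial (Fin n) ℂ, eval x (pw w p) = eval (fun i => x i ^ w i) p := by
    intro p
    induction p using MvPolynomial.induction_on with
    | C a => unfold pw; simp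
    | add p q hp hq => rw [map_add, map_add, map_add, hp, hq]
    | mul_X p i hp => rw [map_mul, map_mul, map_mul, hp, pw_X]; simp
  have h2 := h0 (fun i => x i ^ w i) (fun i => by rw [← h1]; exact hx i)
  funext i
  have h3 := congrFun h2 i
  exact eq_zero_of_pow_eq_zero h3

include hw hd hg h0 hfg in
/-- **weighted local Bezout at the origin** -/
theorem locBez_weighted :
    Module.Finite ℂ (Localization.AtPrime (pt (0 : Fin n → ℂ)) ⧸
      (Ideal.span (Set.range f)).map
        (algebraMap (MvPolynomial (Fin n) ℂ) (Localization.AtPrime (pt (0 : Fin n → ℂ))))) ∧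
    mulAt (Ideal.span (Set.range f)) 0 * ∏ i, w i = ∏ i, d i := by
  set F : Fin n → MvPolynomial (Fin n) ℂ := fun i => pw w (f i) with hF
  set G : Fin n → MvPolynomial (Fin n) ℂ := fun i => pw w (g i) with hG
  have hGh : ∀ i, (G i).IsHomogeneous (d i) := pw_hom w g d hg
  have hG0 : ∀ x : Fin n → ℂ, (∀ i, eval x (G i) = 0) → x = 0 := fun x hx => pw_zero w hw g h0 x hx
  have hFG : ∀ i, lo (d i + 1) (F i - G i) := pw_lo w f g d hfg
  obtain ⟨hfin, hmul⟩ := locBez G F d hd hGh hG0 hFG
  have hmap : (Ideal.span (Set.range f)).map (pw w) = Ideal.span (Set.range F) := by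
    rw [Ideal.map_span, ← Set.range_comp]
    rfl
  -- truncation level
  set If := Ideal.span (Set.range f) with hIf
  set IF := Ideal.span (Set.range F) with hIF
  set m := pt (0 : Fin n → ℂ) with hm
  obtain ⟨N, hN⟩ := forms_mem (I := Ideal.span (Set.range G)) (by
    intro x hx
    exact hG0 x fun i => hx (G i) (Ideal.subset_span ⟨i, rfl⟩))
  have hstep : ∀ k, N ≤ k → m ^ k ≤ IF ⊔ m ^ (k + 1) := by
    intro k hk y hy
    rw [hm, ← idealOfVars_eq_pt, ← lo_iff] at hy
    have e : y = homogeneousComponent k y + (y - homogeneousComponent k y) := by ring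
    rw [e]
    apply add_mem
    · rw [hm, ← idealOfVars_eq_pt]
      exact form_mem_G G F d hGh hFG (homogeneousComponent_isHomogeneous k y)
        (hN k hk _ (homogeneousComponent_isHomogeneous k y))
    · apply Ideal.mem_sup_right
      rw [hm, ← idealOfVars_eq_pt, ← lo_iff]
      exact lo_sub_comp hy
  have hall : ∀ k, IF ⊔ m ^ N = IF ⊔ m ^ (N + k) := by
    intro k
    induction k with
    | zero => rfl
    | succ k ih =>
      rw [ih]
      apply le_antisymm
      · exact sup_le le_sup_left (hstep (N + k) (by omega))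
      · exact sup_le_sup_left (Ideal.pow_le_pow_right (by omega)) _
  have hle : m ^ N ≤ If ⊔ m ^ (N + 1) := by
    intro a ha
    have h1 : pw w a ∈ IF ⊔ m ^ N := by
      apply Ideal.mem_sup_right
      rw [hm, ← idealOfVars_eq_pt, ← lo_iff] at ha ⊢
      exact lo_pw w hw ha
    rw [hall (Wb w * (N + 1 + n) + 1), ← hmap] at h1
    obtain ⟨i, hi, r, hr, hir⟩ := Submodule.mem_sup.mp h1
    let e0 : Er w := fun i => ⟨0, hw i⟩
    have h2 : chi w e0 (pw w a) = a := by
      have h3 := chi_pw_mul w hw e0 a (ye w e0)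
      have h4 : ye w e0 = 1 := by
        unfold ye
        have : (Finsupp.equivFunOnFinite.symm fun i => ((e0 i : Fin (w i)) : ℕ)) = 0 := by
          ext i; rfl
        rw [this]; rfl
      rw [chi_ye, if_pos rfl, mul_one, h4, mul_one] at h3
      exact h3
    rw [← h2, ← hir, map_add]
    apply add_mem
    · exact Ideal.mem_sup_left ((mem_map_pw w hw _ _).mp hi e0)
    · apply Ideal.mem_sup_right
      rw [hm, ← idealOfVars_eq_pt, ← lo_iff] at hr ⊢
      apply lo_chi w hw
      exact lo_mono (by omega) hr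
  obtain ⟨h1, h2⟩ := mulAt_eq_pow If 0 N hle le_rfl
  refine ⟨h1, ?_⟩
  have hfin2 := finite_quot_pow If (0 : Fin n → ℂ) N
  have h3 := finrank_map_pw w hw (If ⊔ m ^ N) hfin2
  have h4 : (If ⊔ m ^ N).map (pw w) = IF ⊔ m ^ N := by
    rw [Ideal.map_sup, hmap]
    apply le_antisymm
    · apply sup_le_sup_left
      rw [Ideal.map_le_iff_le_comap]
      intro a ha
      rw [Ideal.mem_comap]
      rw [hm, ← idealOfVars_eq_pt, ← lo_iff] at ha ⊢
      exact lo_pw w hw ha
    · rw [hall (Wb w * (N + n) + 1)]
      apply sup_le_sup_left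
      intro a ha
      rw [mem_map_pw w hw]
      intro e
      rw [hm, ← idealOfVars_eq_pt, ← lo_iff] at ha ⊢
      exact lo_chi w hw (lo_mono (by omega) ha) e
  rw [h4] at h3
  have h5 : mulAt IF 0 = Module.finrank ℂ (MvPolynomial (Fin n) ℂ ⧸ (IF ⊔ m ^ N)) :=
    (mulAt_eq_pow IF 0 N (hstep N le_rfl) le_rfl).2
  rw [← hmul, h5, h3, h2, mul_comm]

end main

end pow

end

end EY
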